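import Pool.Agent.MMS36.Sound
import Pool.Agent.MMS39.Corner

/-!
Bridge from the certificate format C3 (grid units, integer data, functions by cells) to the
soundness theorem `lb_of_cert`.
-/

set_option autoImplicit false
set_option linter.unusedSectionVars false

namespace Pool.Agent.MMS36

open Finset Pool.Agent.H59.MMS Pool.Agent.MMS39

/-- The data of a certificate in the format C3: values on cells and nodes of the integer grid. -/
structure C3 where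
  ps : ℤ → ℤ
  hl : ℤ → ℤ
  hr : ℤ → ℤ
  s3 : ℤ → ℤ
  M : ℤ → ℤ
  L : ℤ → ℤ
  mu1 : ℤ → ℤ
  mu2 : ℤ → ℤ
  f1 : ℤ → ℤ
  f2 : ℤ → ℤ
  G : ℤ → ℤ → ℤ
  H : ℤ → ℤ → ℤ

namespace C3

/-- the two cells next to `0` -/
def Adj (i : ℤ) : Prop := i = -1 ∨ i = 0

instance (i : ℤ) : Decidable (Adj i) := by unfold Adj; infer_instance

variable (D : C3)

/-- `psi`, continuous and piecewise linear -/
noncomputable def psi (u : ℝ) : ℝ :=
  (D.ps ⌊u⌋ : ℝ) * (1 - (u - ⌊u⌋)) + (D.ps (⌊u⌋ + 1) : ℝ) * (u - ⌊u⌋)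

/-- `hh`, piecewise linear with jumps -/
noncomputable def hh (u : ℝ) : ℝ :=
  (D.hl ⌊u⌋ : ℝ) * (1 - (u - ⌊u⌋)) + (D.hr ⌊u⌋ : ℝ) * (u - ⌊u⌋)

/-- `psi3`, piecewise constant -/
noncomputable def psi3 (u : ℝ) : ℝ := D.s3 ⌊u⌋

/-- the multiplier of the total fraction -/
noncomputable def m (a : ℝ) : ℝ := D.M ⌊a⌋ * a ^ 2

/-- the multiplier of the conditional fraction -/
noncomputable def lam (a : ℝ) : ℝ := D.L ⌊a⌋ * a ^ 2

noncomputable def m1 (a : ℝ) : ℝ := D.mu1 ⌊a⌋ * (if Adj ⌊a⌋ then a ^ 2 else 1)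

noncomputable def m2 (a : ℝ) : ℝ := if Adj ⌊a⌋ then 0 else D.mu2 ⌊a⌋

noncomputable def p1 (a : ℝ) : ℝ := D.f1 ⌊a⌋ * (if Adj ⌊a⌋ then a else 1)

noncomputable def p2 (a : ℝ) : ℝ := if Adj ⌊a⌋ then 0 else D.f2 ⌊a⌋

noncomputable def g (a u : ℝ) : ℝ := D.G ⌊a⌋ ⌊u⌋ * (if Adj ⌊a⌋ then a else 1)

noncomputable def h (a v : ℝ) : ℝ := D.H ⌊a⌋ ⌊v⌋ * (if Adj ⌊a⌋ then a else 1)

/-- the threshold of the conditional fraction -/
noncomputable def tg (T : Par ℝ) (a : ℝ) : ℝ := if 0 ≤ a then T.tgp else T.tgn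

/-- The integrand of the format C3, summed over the two orders of the window. -/
noncomputable def Ks (Q : ℝ) (T : Par ℝ) (a b y : ℝ) : ℝ :=
  T.te * ((y + a) * D.psi (y + a) + (y + b) * D.psi (y + b)) -
    T.tpq * ((a - b) * (D.psi (y + a) - D.psi (y + b))) +
  (T.tpq * (a * b) + T.tee * (y + a) ^ 2) * D.psi3 (y + a) +
  (T.tpq * (a * b) + T.tee * (y + b) ^ 2) * D.psi3 (y + b) +
  (T.te * Q - T.tp * a ^ 2 - T.tq * b ^ 2) * D.hh (y + a) +
  (T.te * Q - T.tp * b ^ 2 - T.tq * a ^ 2) * D.hh (y + b) +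
  D.m a * (T.tp * ge0 (y + a) + T.tq * ge0 (y + b) - T.tt) +
  D.m b * (T.tp * ge0 (y + b) + T.tq * ge0 (y + a) - T.tt) +
  D.lam a * (T.tl * ge0 (y + a) - tg T a) +
  D.lam b * (T.tl * ge0 (y + b) - tg T b) +
  D.m1 a * (T.t1 * y + T.t2 * a) + D.m1 b * (T.t1 * y + T.t2 * b) +
  D.m2 a * (T.t3 * y ^ 2 - T.t4 * (Q - a ^ 2) - T.t5 * a ^ 2) +
  D.m2 b * (T.t3 * y ^ 2 - T.t4 * (Q - b ^ 2) - T.t5 * b ^ 2) +
  D.p1 a * (T.t1 * b + T.te * a) + D.p1 b * (T.t1 * a + T.te * b) +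
  D.p2 a * (T.t1 * b ^ 2 - T.te * (Q - a ^ 2)) + D.p2 b * (T.t1 * a ^ 2 - T.te * (Q - b ^ 2)) +
  D.g a (y + a) * (T.tq * b + T.te * (y + a)) + D.g b (y + b) * (T.tq * a + T.te * (y + b)) +
  D.h a (y + b) * (T.tp * b - T.te * (y + b)) + D.h b (y + a) * (T.tp * a - T.te * (y + a))

/-- The coefficients of the parameters in the integrand. -/
noncomputable def coef (Q a b y : ℝ) : Par ℝ where
  te := (y + a) * D.psi (y + a) + (y + b) * D.psi (y + b) + Q * D.hh (y + a) + Q * D.hh (y + b) +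
    D.p1 a * a + D.p1 b * b - D.p2 a * (Q - a ^ 2) - D.p2 b * (Q - b ^ 2) +
    D.g a (y + a) * (y + a) + D.g b (y + b) * (y + b) - D.h a (y + b) * (y + b) -
    D.h b (y + a) * (y + a)
  tpq := -((a - b) * (D.psi (y + a) - D.psi (y + b))) + (a * b) * D.psi3 (y + a) +
    (a * b) * D.psi3 (y + b)
  tee := (y + a) ^ 2 * D.psi3 (y + a) + (y + b) ^ 2 * D.psi3 (y + b)
  tp := -(a ^ 2 * D.hh (y + a)) - b ^ 2 * D.hh (y + b) + D.m a * ge0 (y + a) +
    D.m b * ge0 (y + b) + D.h a (y + b) * b + D.h b (y + a) * a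
  tq := -(b ^ 2 * D.hh (y + a)) - a ^ 2 * D.hh (y + b) + D.m a * ge0 (y + b) +
    D.m b * ge0 (y + a) + D.g a (y + a) * b + D.g b (y + b) * a
  tt := -D.m a - D.m b
  tl := D.lam a * ge0 (y + a) + D.lam b * ge0 (y + b)
  tgp := -(if 0 ≤ a then D.lam a else 0) - (if 0 ≤ b then D.lam b else 0)
  tgn := -(if 0 ≤ a then 0 else D.lam a) - (if 0 ≤ b then 0 else D.lam b)
  t1 := D.m1 a * y + D.m1 b * y + D.p1 a * b + D.p1 b * a + D.p2 a * b ^ 2 + D.p2 b * a ^ 2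
  t2 := D.m1 a * a + D.m1 b * b
  t3 := D.m2 a * y ^ 2 + D.m2 b * y ^ 2
  t4 := -(D.m2 a * (Q - a ^ 2)) - D.m2 b * (Q - b ^ 2)
  t5 := -(D.m2 a * a ^ 2) - D.m2 b * b ^ 2

theorem Ks_eq_dot (Q : ℝ) (T : Par ℝ) (a b y : ℝ) : D.Ks Q T a b y = (D.coef Q a b y).dot T := by
  unfold Ks Par.dot coef tg
  simp only
  split_ifs <;> ring

theorem Ks_scale (Q r : ℝ) (T : Par ℝ) (a b y : ℝ) :
    D.Ks Q (T.map fun t => r * t) a b y = r * D.Ks Q T a b y := by
  rw [Ks_eq_dot, Ks_eq_dot, Par.dot_map_mul]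

/-- The functions of the soundness theorem. Outside the cells `[-A, A)` the multipliers `m` and
`lam` are replaced by `a ^ 2` and `0`. -/
noncomputable def fam (A : ℕ) (N K γp γn : ℝ) : Fam where
  psi := fun u => K / N * (1 - K / N) * A * D.psi (A * u)
  psi3 := fun u => K / N * (1 - K / N) * A ^ 2 * D.psi3 (A * u)
  hh := fun u => A ^ 2 * D.hh (A * u)
  m := fun a => if |a| < 1 then D.m (A * a) else a ^ 2
  lam := fun a => if |a| < 1 then D.lam (A * a) else 0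
  gc := fun a => if 0 ≤ a then γp else γn
  rho := fun _ => 0
  rc := fun _ => 0
  chi := fun _ => 0
  mu1 := fun a => A * (1 - 1 / N) * D.m1 (A * a)
  mu2 := fun a => A ^ 2 * ((1 - 1 / N) * (1 - 2 * (1 / N))) * D.m2 (A * a)
  phi1 := fun a => A * (1 - 1 / N) * D.p1 (A * a)
  phi2 := fun a => A ^ 2 * (1 - 1 / N) * D.p2 (A * a)
  g := fun a u => A * (1 - K / N) * D.g (A * a) (A * u)
  h := fun a v => A * (K / N) * D.h (A * a) (A * v)
  p1 := fun _ _ => 0
  p2 := fun _ _ => 0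

/-- The true parameters. -/
noncomputable def par (N K τ γp γn : ℝ) : Par ℝ where
  te := 1 / N
  tpq := K / N * (1 - K / N)
  tee := (1 / N) ^ 2
  tp := K / N
  tq := 1 - K / N
  tt := τ
  tl := 1
  tgp := γp
  tgn := γn
  t1 := 1 - 1 / N
  t2 := K / N - 1 / N
  t3 := (1 - 1 / N) * (1 - 2 * (1 / N))
  t4 := (K / N - 1 / N) * (1 - K / N)
  t5 := (K / N - 1 / N) * (K / N - 2 * (1 / N))

theorem ge0_mul {c : ℝ} (hc : 0 < c) (u : ℝ) : ge0 (c * u) = ge0 u := by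
  unfold ge0
  simp only [mul_nonneg_iff_of_pos_left hc]

theorem fam_int {A : ℕ} (hA : 0 < A) {N K : ℝ} (hN : 2 < N) (hK : 0 < K) (hKN : K < N)
    (τ γp γn : ℝ) {a b : ℝ} (ha : |a| < 1) (hb : |b| < 1) (y : ℝ) :
    (D.fam A N K γp γn).int N K τ a b y + (D.fam A N K γp γn).int N K τ b a y =
      D.Ks (A ^ 2) (par N K τ γp γn) (A * a) (A * b) (A * y) := by
  have hA' : (0 : ℝ) < A := by exact_mod_cast hA
  have e1 : (A : ℝ) * y + A * a = A * (y + a) := by ring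
  have e2 : (A : ℝ) * y + A * b = A * (y + b) := by ring
  have n0 : N ≠ 0 := by linarith
  have n1 : N - 1 ≠ 0 := by linarith
  have n2 : N - 2 ≠ 0 := by linarith
  have k0 : K ≠ 0 := hK.ne'
  have nk : N - K ≠ 0 := by linarith
  unfold Fam.int Ks
  simp only [fam, par, tg, if_pos ha, if_pos hb, e1, e2, ge0_mul hA',
    mul_nonneg_iff_of_pos_left hA']
  generalize D.psi (A * (y + a)) = x1
  generalize D.psi (A * (y + b)) = x2
  generalize D.psi3 (A * (y + a)) = x3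
  generalize D.psi3 (A * (y + b)) = x4
  generalize D.hh (A * (y + a)) = x5
  generalize D.hh (A * (y + b)) = x6
  generalize D.m (A * a) = x7
  generalize D.m (A * b) = x8
  generalize D.lam (A * a) = x9
  generalize D.lam (A * b) = x10
  generalize D.m1 (A * a) = x11
  generalize D.m1 (A * b) = x12
  generalize D.m2 (A * a) = x13
  generalize D.m2 (A * b) = x14
  generalize D.p1 (A * a) = x15
  generalize D.p1 (A * b) = x16
  generalize D.p2 (A * a) = x17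
  generalize D.p2 (A * b) = x18
  generalize D.g (A * a) (A * (y + a)) = x19
  generalize D.g (A * b) (A * (y + b)) = x20
  generalize D.h (A * a) (A * (y + b)) = x21
  generalize D.h (A * b) (A * (y + a)) = x22
  generalize ge0 (y + a) = x23
  generalize ge0 (y + b) = x24
  generalize (if 0 ≤ a then γp else γn) = x25
  generalize (if 0 ≤ b then γp else γn) = x26
  field_simp
  ring

theorem m_nonneg {A : ℕ} (hM : ∀ i : ℤ, -(A : ℤ) ≤ i → i < A → 1 ≤ D.M i) {a : ℝ}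
    (ha : |a| < A) : a ^ 2 ≤ D.m a := by
  rw [abs_lt] at ha
  have h1 : -(A : ℤ) ≤ ⌊a⌋ := by
    rw [Int.le_floor]; push_cast; linarith
  have h2 : ⌊a⌋ < (A : ℤ) := by
    rw [Int.floor_lt]; push_cast; linarith
  have h3 : (1 : ℝ) ≤ D.M ⌊a⌋ := by exact_mod_cast hM _ h1 h2
  unfold m
  nlinarith [sq_nonneg a]

theorem lam_nonneg {A : ℕ} (hL : ∀ i : ℤ, -(A : ℤ) ≤ i → i < A → 0 ≤ D.L i) {a : ℝ}
    (ha : |a| < A) : 0 ≤ D.lam a := by
  rw [abs_lt] at ha
  have h1 : -(A : ℤ) ≤ ⌊a⌋ := by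
    rw [Int.le_floor]; push_cast; linarith
  have h2 : ⌊a⌋ < (A : ℤ) := by
    rw [Int.floor_lt]; push_cast; linarith
  have h3 : (0 : ℝ) ≤ D.L ⌊a⌋ := by exact_mod_cast hL _ h1 h2
  unfold lam
  positivity

theorem abs_lt_of_dom {N K a b y : ℝ} (hK : 1 < K) (hKN : K + 1 < N) (h : Dom N K a b y) :
    |a| < 1 ∧ |b| < 1 := by
  have hK' : 0 < K - 1 := by linarith
  have hN' : 0 < N - K - 1 := by linarith
  obtain ⟨h1, h2⟩ := h
  have q1 : 0 ≤ y ^ 2 / (K - 1) := by positivity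
  have q2 : 0 ≤ (a + b + y) ^ 2 / (N - K - 1) := by positivity
  have key : ∀ c d : ℝ, (c = a ∧ d = b ∨ c = b ∧ d = a) → |c| < 1 := by
    intro c d hcd
    have hc2 : c ^ 2 + d ^ 2 ≤ 1 := by
      rcases hcd with ⟨rfl, rfl⟩ | ⟨rfl, rfl⟩
      · exact h1
      · linarith
    have hc3 : y ^ 2 / (K - 1) + (a + b + y) ^ 2 / (N - K - 1) + c ^ 2 + d ^ 2 ≤ 1 := by
      rcases hcd with ⟨rfl, rfl⟩ | ⟨rfl, rfl⟩
      · exact h2
      · linarith
    by_contra hcon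
    push Not at hcon
    have hc : 1 ≤ c ^ 2 := by
      rw [← sq_abs]; nlinarith [abs_nonneg c]
    have hd : d ^ 2 = 0 := by nlinarith [sq_nonneg d]
    have hd0 : d = 0 := by simpa using hd
    have hy : y ^ 2 / (K - 1) = 0 := by nlinarith [sq_nonneg d]
    have hy0 : y = 0 := by
      rw [div_eq_zero_iff] at hy
      rcases hy with hy | hy
      · simpa using hy
      · linarith
    have hs : (a + b + y) ^ 2 / (N - K - 1) = 0 := by nlinarith [sq_nonneg d]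
    have hs0 : a + b + y = 0 := by
      rw [div_eq_zero_iff] at hs
      rcases hs with hs | hs
      · simpa using hs
      · linarith
    have hc0 : c = 0 := by
      rcases hcd with ⟨rfl, rfl⟩ | ⟨rfl, rfl⟩ <;> linarith
    rw [hc0] at hc
    norm_num at hc
  exact ⟨key a b (Or.inl ⟨rfl, rfl⟩), key b a (Or.inr ⟨rfl, rfl⟩)⟩

end C3

open C3

variable {α : Type*} [DecidableEq α]

/-- From a certificate in the format C3 and stage A to the lower bound. -/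
theorem lb_of_c3 {k n A : ℕ} (hk1 : 1 ≤ k) (hk : k + 3 ≤ n) (hA : 0 < A) (D : C3)
    {τ γp γn : ℝ} (hτ : τ ≤ 1)
    (hM : ∀ i : ℤ, -(A : ℤ) ≤ i → i < A → 1 ≤ D.M i)
    (hL : ∀ i : ℤ, -(A : ℤ) ≤ i → i < A → 0 ≤ D.L i)
    (hS : ∀ (V : Finset α) (x : α → ℝ), V.card = n → ∑ i ∈ V, x i = 0 →
      ∑ i ∈ V, x i ^ 2 = 1 → av (k + 1) V (nn x) < τ →
        ∀ i ∈ V, D.lam (A * x i) ≠ 0 → gin k V x i ≤ if 0 ≤ x i then γp else γn)
    (hK : ∀ a b y : ℝ, |a| < A → |b| < A → b ≤ a → a ^ 2 + b ^ 2 ≤ A ^ 2 →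
      0 ≤ D.Ks (A ^ 2) (par n (k + 1) τ γp γn) a b y) :
    LB α (k + 1) n τ := by
  have hA' : (0 : ℝ) < A := by exact_mod_cast hA
  have hkR : (1 : ℝ) ≤ k := by exact_mod_cast hk1
  have hnR : (k : ℝ) + 3 ≤ n := by exact_mod_cast hk
  have hAa : ∀ a : ℝ, |a| < 1 → |(A : ℝ) * a| < A := by
    intro a ha
    rw [abs_mul, abs_of_pos hA']
    nlinarith
  refine lb_of_cert (by omega) (by omega) (D.fam A n (k + 1) γp γn) hτ ?_ ?_ ?_ ?_ ?_ ?_
  · intro a
    simp only [fam]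
    split_ifs with h
    · exact (sq_nonneg _).trans (D.m_nonneg hM (hAa a h))
    · exact sq_nonneg _
  · intro a ha
    simp only [fam]
    split_ifs with h
    · have h1 := D.m_nonneg hM (hAa a h)
      have h2 : 0 < ((A : ℝ) * a) ^ 2 := by positivity
      linarith
    · positivity
  · intro a
    simp only [fam]
    split_ifs with h
    · exact D.lam_nonneg hL (hAa a h)
    · exact le_rfl
  · intro a
    simp [fam]
  · intro V x hV hx hQ hlt
    refine ⟨?_, ?_, ?_⟩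
    · intro i hi hne
      simp only [fam] at hne ⊢
      by_cases h : |x i| < 1
      · rw [if_pos h] at hne
        exact hS V x hV hx hQ hlt i hi hne
      · rw [if_neg h] at hne
        exact absurd rfl hne
    · intro i _ hne
      simp [fam] at hne
    · simp [fam]
  · intro a b y hba hdom
    have hN : (2 : ℝ) < n := by linarith
    obtain ⟨ha, hb⟩ := abs_lt_of_dom (by linarith) (by linarith) hdom
    have e := D.fam_int hA (N := n) (K := k + 1) hN (by linarith) (by linarith) τ γp γn ha hb y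
    rw [e]
    refine hK _ _ _ (hAa a ha) (hAa b hb) (by nlinarith) ?_
    have := hdom.1
    nlinarith [sq_nonneg (A : ℝ), mul_le_mul_of_nonneg_left this (sq_nonneg (A : ℝ))]

end Pool.Agent.MMS36
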