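import Pool.Agent.MMS36.TailC4
import Pool.Agent.MMSChk.Real

/-!
The integrand `KsR` of the checker is the integrand of the bridge: tails and lower bounds.
-/

set_option autoImplicit false
set_option linter.unusedSectionVars false

namespace Pool.Agent.MMS36

open Finset Pool.Agent.H59.MMS Pool.Agent.MMSChk

/-- The functions of a certificate of the checker. -/
def toC4 (C : Cert) : C4 where
  ps := psN C
  pc := pcN C
  hl := hlN C
  hr := hrN C
  s3 := s3N C
  M0 := fun i => (rowN C i).M0.v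
  M1 := fun i => (rowN C i).M1.v
  L0 := fun i => (rowN C i).L0.v
  L1 := fun i => (rowN C i).L1.v
  mu1 := fun i => (rowN C i).mu1.v
  mu2 := fun i => (rowN C i).mu2.v
  f1 := fun i => (rowN C i).f1.v
  f2 := fun i => (rowN C i).f2.v
  G := GN C
  Ga := GaN C
  Gs := GsN C
  H := HN C
  Ha := HaN C
  Hs := HsN C

/-- Real parameters. -/
def rp (p : RPar) : MMS39.Par ℝ :=
  ⟨p.te, p.tpq, p.tee, p.tp, p.tq, p.tt, p.tl, p.tgp, p.tgn, p.t1, p.t2, p.t3, p.t4, p.t5⟩

/-- Integer parameters. -/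
def zp (p : MMSChk.Par) : MMS39.Par ℤ :=
  ⟨p.te.v, p.tpq.v, p.tee.v, p.tp.v, p.tq.v, p.tt.v, p.tl.v, p.tgp.v, p.tgn.v, p.t1.v, p.t2.v,
    p.t3.v, p.t4.v, p.t5.v⟩

theorem rp_toR (p : MMSChk.Par) : rp p.toR = (zp p).map fun t : ℤ => (t : ℝ) := rfl

theorem adj_iff (i : ℤ) : C4.Adj i ↔ adjN i := or_comm

theorem psi_toC4 (C : Cert) (u : ℝ) : (toC4 C).psi u = psiR C u := rfl

theorem hh_toC4 (C : Cert) (u : ℝ) : (toC4 C).hh u = hhR C u := rfl

theorem psi3_toC4 (C : Cert) (u : ℝ) : (toC4 C).psi3 u = s3R C u := rfl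

theorem m_toC4 (C : Cert) (a : ℝ) : (toC4 C).m a = mR C a := rfl

theorem lam_toC4 (C : Cert) (a : ℝ) : (toC4 C).lam a = lamR C a := rfl

theorem m1_toC4 (C : Cert) (a : ℝ) : (toC4 C).m1 a = mu1R C a := by
  unfold C4.m1 mu1R
  simp only [adj_iff]
  rfl

theorem m2_toC4 (C : Cert) (a : ℝ) : (toC4 C).m2 a = mu2R C a := by
  unfold C4.m2 mu2R
  simp only [adj_iff]
  rfl

theorem p1_toC4 (C : Cert) (a : ℝ) : (toC4 C).p1 a = phi1R C a := by
  unfold C4.p1 phi1R
  simp only [adj_iff]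
  rfl

theorem p2_toC4 (C : Cert) (a : ℝ) : (toC4 C).p2 a = phi2R C a := by
  unfold C4.p2 phi2R
  simp only [adj_iff]
  rfl

theorem g_toC4 (C : Cert) (a u : ℝ) : (toC4 C).g a u = gR C a u := by
  unfold C4.g gR
  simp only [adj_iff]
  rfl

theorem h_toC4 (C : Cert) (a u : ℝ) : (toC4 C).h a u = hR C a u := by
  unfold C4.h hR
  simp only [adj_iff]
  rfl

theorem one_eq (u : ℝ) : oneR u = ge0 u := rfl

theorem KsR_eq (C : Cert) (p : RPar) (a b y : ℝ) :
    KsR C p a b y = (toC4 C).Ks ((C.A : ℝ) ^ 2) (rp p) a b y := by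
  unfold KsR KhR C4.Ks C4.tg
  simp only [psi_toC4, hh_toC4, psi3_toC4, m_toC4, lam_toC4, m1_toC4, m2_toC4, p1_toC4, p2_toC4,
    g_toC4, h_toC4, one_eq, rp]
  ring

theorem tailPos_toC4 (C : Cert) : (toC4 C).TailPos C.U where
  ps := by
    intro m hm
    simp only [toC4, psN]
    congr 2
    omega
  pc := by
    intro m hm
    simp only [toC4, pcN, cellF]
    rw [if_neg (by omega), if_neg (by omega)]
    ring
  hl := by
    intro m hm
    simp only [toC4, hlN, cellF]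
    rw [if_neg (by omega), if_neg (by omega), if_neg (by omega), if_neg (by omega)]
  hr := by
    intro m hm
    simp only [toC4, hrN, hlN, cellF]
    rw [if_neg (by omega), if_neg (by omega), if_neg (by omega), if_neg (by omega)]
  s3 := by
    intro m hm
    simp only [toC4, s3N, cellF]
    rw [if_neg (by omega), if_neg (by omega)]
    ring
  G := by
    intro i m hm
    simp only [toC4, GN, cellF]
    rw [if_neg (by omega), if_neg (by omega)]
    ring
  Ga := by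
    intro i m hm
    simp only [toC4, GaN, cellF]
    rw [if_neg (by omega), if_neg (by omega)]
    ring
  Gs := by
    intro i m hm
    simp only [toC4, GsN, cellF]
    rw [if_neg (by omega), if_neg (by omega)]
    ring
  H := by
    intro i m hm
    simp only [toC4, HN, cellF]
    rw [if_neg (by omega), if_neg (by omega)]
    ring
  Ha := by
    intro i m hm
    simp only [toC4, HaN, cellF]
    rw [if_neg (by omega), if_neg (by omega)]
    ring
  Hs := by
    intro i m hm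
    simp only [toC4, HsN, cellF]
    rw [if_neg (by omega), if_neg (by omega)]
    ring

theorem tailNeg_toC4 (C : Cert) : (toC4 C).TailNeg C.U where
  ps := by
    intro m hm
    simp only [toC4, psN]
    congr 2
    omega
  pc := by
    intro m hm
    simp only [toC4, pcN, cellF]
    rw [if_pos (by omega)]
    ring
  hl := by
    intro m hm
    simp only [toC4, hlN, cellF]
    rw [if_pos (by omega), if_pos (by omega)]
  hr := by
    intro m hm
    simp only [toC4, hrN, hlN, cellF]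
    rw [if_pos (by omega), if_pos (by omega)]
  s3 := by
    intro m hm
    simp only [toC4, s3N, cellF]
    rw [if_pos (by omega)]
    ring
  G := by
    intro i m hm
    simp only [toC4, GN, cellF]
    rw [if_pos (by omega)]
    ring
  Ga := by
    intro i m hm
    simp only [toC4, GaN, cellF]
    rw [if_pos (by omega)]
    ring
  Gs := by
    intro i m hm
    simp only [toC4, GsN, cellF]
    rw [if_pos (by omega)]
    ring
  H := by
    intro i m hm
    simp only [toC4, HN, cellF]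
    rw [if_pos (by omega)]
    ring
  Ha := by
    intro i m hm
    simp only [toC4, HaN, cellF]
    rw [if_pos (by omega)]
    ring
  Hs := by
    intro i m hm
    simp only [toC4, HsN, cellF]
    rw [if_pos (by omega)]
    ring

theorem adj_eq {A ii : ℕ} {i : ℤ} (h : (ii : ℤ) = i + A) : adj A ii = decide (C4.Adj i) := by
  rw [Bool.eq_iff_iff, decide_eq_true_iff]
  unfold adj
  simp only [Bool.or_eq_true, Nat.beq_eq, Nat.succ_eq_add_one]
  unfold C4.Adj
  omega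

theorem loZ_v (m : Z) (i : ℤ) : (loZ (decide (C4.Adj i)) m).v =
    if C4.Adj i then min 0 m.v else m.v := by
  unfold loZ Z.v
  split_ifs with h
  · simp only [h, decide_true, cond_true, Nat.sub_eq]
    omega
  · simp only [h, decide_false, cond_false]

theorem hiZ_v (m : Z) (i : ℤ) : (hiZ (decide (C4.Adj i)) m).v =
    if C4.Adj i then max 0 m.v else m.v := by
  unfold hiZ Z.v
  split_ifs with h
  · simp only [h, decide_true, cond_true, Nat.sub_eq]
    omega
  · simp only [h, decide_false, cond_false]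

theorem muZ_v (m : Z) (i : ℤ) : (muZ (decide (C4.Adj i)) m).v =
    if C4.Adj i then 0 else m.v := by
  unfold muZ
  split_ifs with h
  · simp [h]
  · simp [h]

theorem psN_U (C : Cert) : psN C C.U =
    (⟨Nat.mod (Nat.shiftRight C.ps (Nat.mul 24 (Nat.mul 2 C.U))) b24, o23⟩ : Z).v := by
  unfold psN dg Z.v
  have : (max 0 (min ((C.U : ℤ) + C.U) (2 * C.U))).toNat = 2 * C.U := by omega
  rw [this]
  rfl

theorem psN_neg_U (C : Cert) : psN C (-C.U) = (⟨Nat.mod C.ps b24, o23⟩ : Z).v := by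
  unfold psN dg Z.v
  have : (max 0 (min (-(C.U : ℤ) + C.U) (2 * C.U))).toNat = 0 := by omega
  rw [this]
  rfl

/-- Tails from the test `tailOk`: it is enough to look at `|y| ≤ U + A`. -/
theorem KsR_nonneg_of_mid {C : Cert} {p : MMSChk.Par} (ht1 : 0 ≤ p.t1.v) {a b : ℝ}
    (ha : |a| < C.A) (hb : |b| < C.A) {r s : RD} (hr : (r.ii : ℤ) = ⌊a⌋ + C.A)
    (hs : (s.ii : ℤ) = ⌊b⌋ + C.A) (hrR : r.R = rowN C ⌊a⌋) (hsR : s.R = rowN C ⌊b⌋)
    (ht : tailOk (mkCtx C p) r s = true)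
    (hmid : ∀ y : ℝ, |y| ≤ (C.U : ℝ) + C.A → 0 ≤ KsR C p.toR a b y) (y : ℝ) :
    0 ≤ KsR C p.toR a b y := by
  have hA : (mkCtx C p).C.A = C.A := rfl
  unfold tailOk at ht
  simp only [Bool.and_eq_true] at ht
  obtain ⟨h1, h2, h3⟩ := ht
  have h1' := Z.of_nonneg h1
  have h2' := Z.of_nonneg h2
  have h3' := Z.of_nonneg h3
  clear h1 h2 h3
  have er := adj_eq (A := (mkCtx C p).C.A) (by rw [hA]; exact hr)
  have es := adj_eq (A := (mkCtx C p).C.A) (by rw [hA]; exact hs)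
  rw [er, es] at h1' h2' h3'
  simp only [Z.v_mul, Z.v_add, Z.v_sub, Z.v_dbl, loZ_v, hiZ_v, muZ_v] at h1' h2' h3'
  have e1 : (⟨Nat.mod (mkCtx C p).C.ps b24, o23⟩ : Z).v = psN C (-C.U) := (psN_neg_U C).symm
  have e2 : (⟨Nat.mod (Nat.shiftRight (mkCtx C p).C.ps
      (Nat.mul 24 (Nat.mul 2 (mkCtx C p).C.U))) b24, o23⟩ : Z).v = psN C C.U := (psN_U C).symm
  have e3 : (⟨Nat.mul 2 (Nat.add (mkCtx C p).C.U (mkCtx C p).C.A), 0⟩ : Z).v =
      2 * ((C.U : ℤ) + C.A) := by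
    unfold Z.v
    simp [mkCtx]
  rw [e2, e3] at h2'
  rw [e1, e3] at h3'
  have e4 : (mkCtx C p).p = p := rfl
  rw [e4] at h1' h2' h3'
  rw [hrR, hsR] at h1' h2' h3'
  have key := C4.Ks_nonneg_of_mid (toC4 C) (A := C.A) (Q := (C.A : ℝ) ^ 2) (U := C.U)
    (T := zp p) (tailPos_toC4 C) (tailNeg_toC4 C) (by omega) ht1 ha hb h1'
    (by
      have := h2'
      simp only [zp, C4.mu2', C4.lo, toC4]
      convert this using 2)
    (by
      have := h3'
      simp only [zp, C4.mu2', C4.hi, toC4]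
      convert this using 2)
    (by
      intro y hy
      have := hmid y hy
      rwa [KsR_eq, rp_toR] at this) y
  rw [KsR_eq, rp_toR]
  exact key

theorem rows_of_signOk : ∀ l : List ARow, signOk l = true → ∀ R ∈ l,
    (1 ≤ R.M0.v ∧ 1 ≤ R.M1.v) ∧ (0 ≤ R.L0.v ∧ 0 ≤ R.L1.v)
  | [], _ => by simp
  | R :: l, h => by
    unfold signOk at h
    simp only [Bool.and_eq_true] at h
    obtain ⟨⟨⟨h1, h1'⟩, h2, h2'⟩, h3⟩ := h
    intro S hS
    rcases List.mem_cons.1 hS with rfl | hS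
    · refine ⟨⟨?_, ?_⟩, Z.of_nonneg h2, Z.of_nonneg h2'⟩
      · have : S.M0.n < S.M0.p := by
          unfold Nat.blt at h1
          exact Nat.le_of_ble_eq_true h1
        unfold Z.v
        omega
      · have : S.M1.n < S.M1.p := by
          unfold Nat.blt at h1'
          exact Nat.le_of_ble_eq_true h1'
        unfold Z.v
        omega
    · exact rows_of_signOk l h3 S hS

theorem signs_of_sizeOk {C : Cert} (h : sizeOk C = true) {i : ℤ} (h1 : -(C.A : ℤ) ≤ i)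
    (h2 : i < C.A) : (1 ≤ (rowN C i).M0.v ∧ 1 ≤ (rowN C i).M1.v) ∧
      (0 ≤ (rowN C i).L0.v ∧ 0 ≤ (rowN C i).L1.v) := by
  unfold sizeOk at h
  simp only [Bool.and_eq_true] at h
  obtain ⟨⟨⟨h3, h4⟩, -⟩, -⟩ := h
  have h5 : C.rows.length = 2 * C.A := Nat.eq_of_beq_eq_true h3
  have h6 : (i + C.A).toNat < C.rows.length := by omega
  unfold rowN
  rw [List.getD_eq_getElem _ _ h6]
  exact rows_of_signOk _ h4 _ (List.getElem_mem h6)

variable {α : Type*} [DecidableEq α]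

/-- Single pair. -/
theorem lb_of_chk_pair {k n : ℕ} (hk1 : 1 ≤ k) (hk : k + 3 ≤ n) (C : Cert)
    (hC : sizeOk C = true) {τ γp γn : ℝ} (hτ : τ ≤ 1)
    (hS : ∀ (V : Finset α) (x : α → ℝ), V.card = n → ∑ i ∈ V, x i = 0 →
      ∑ i ∈ V, x i ^ 2 = 1 → av (k + 1) V (nn x) < τ →
        ∀ i ∈ V, lamR C (C.A * x i) ≠ 0 → gin k V x i ≤ if 0 ≤ x i then γp else γn)
    (p : MMSChk.Par) {c : ℝ} (hc : 0 < c)
    (hT : rp p.toR = (C4.par n (k + 1) τ γp γn).map fun t => c * t)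
    (hK : ∀ a b y : ℝ, |a| < C.A → |b| < C.A → b ≤ a → a ^ 2 + b ^ 2 ≤ (C.A : ℝ) ^ 2 →
      0 ≤ KsR C p.toR a b y) :
    LB α (k + 1) n τ := by
  have hA : 0 < C.A := by
    have h := hC
    unfold sizeOk at h
    simp only [Bool.and_eq_true] at h
    exact Nat.le_of_ble_eq_true h.2.1.1
  refine lb_of_c4_pair hk1 hk hA (toC4 C) hτ (fun i h1 h2 => (signs_of_sizeOk hC h1 h2).1)
    (fun i h1 h2 => (signs_of_sizeOk hC h1 h2).2) hS (zp p) hc (by rw [← rp_toR]; exact hT) ?_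
  intro a b y ha hb hba hab
  have := hK a b y ha hb hba hab
  rwa [KsR_eq, rp_toR] at this

/-- Box. -/
theorem lb_of_chk_box {k n : ℕ} (hk1 : 1 ≤ k) (hk : k + 3 ≤ n) (C : Cert)
    (hC : sizeOk C = true)
    {E F G g : ℤ} (hE : 0 < E) (hF : 0 < F) (hG : 0 < G) (hg : 0 < g) (TA TB TC : MMS39.Aff ℤ)
    {P0 P1 E0 E1 : ℤ}
    (hp0 : (P0 : ℝ) / E ≤ (k + 1 : ℝ) / n) (hp1 : (k + 1 : ℝ) / n ≤ (P1 : ℝ) / E)
    (he0 : (E0 : ℝ) / F ≤ 1 / (n : ℝ)) (he1 : 1 / (n : ℝ) ≤ (E1 : ℝ) / F)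
    (Ts : List MMSChk.Par) (hTs : (Ts.map zp).map (fun T => T.map (fun m => g * m)) =
      MMS39.Par.cornersZ E F G TA TB TC P0 P1 E0 E1)
    {τ γp γn : ℝ}
    (hτe : τ = TA.c0 / G + TA.c1 / G * ((k + 1 : ℝ) / n) + TA.c2 / G * (1 / (n : ℝ)))
    (hγp : γp = TB.c0 / G + TB.c1 / G * ((k + 1 : ℝ) / n) + TB.c2 / G * (1 / (n : ℝ)))
    (hγn : γn = TC.c0 / G + TC.c1 / G * ((k + 1 : ℝ) / n) + TC.c2 / G * (1 / (n : ℝ)))
    (hτ : τ ≤ 1)
    (hS : ∀ (V : Finset α) (x : α → ℝ), V.card = n → ∑ i ∈ V, x i = 0 →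
      ∑ i ∈ V, x i ^ 2 = 1 → av (k + 1) V (nn x) < τ →
        ∀ i ∈ V, lamR C (C.A * x i) ≠ 0 → gin k V x i ≤ if 0 ≤ x i then γp else γn)
    (hK : ∀ p ∈ Ts, ∀ a b y : ℝ, |a| < C.A → |b| < C.A → b ≤ a →
      a ^ 2 + b ^ 2 ≤ (C.A : ℝ) ^ 2 → 0 ≤ KsR C p.toR a b y) :
    LB α (k + 1) n τ := by
  have hA : 0 < C.A := by
    have h := hC
    unfold sizeOk at h
    simp only [Bool.and_eq_true] at h
    exact Nat.le_of_ble_eq_true h.2.1.1
  refine lb_of_c4_box hk1 hk hA (toC4 C) hE hF hG hg TA TB TC hp0 hp1 he0 he1 (Ts.map zp) hTs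
    hτe hγp hγn hτ (fun i h1 h2 => (signs_of_sizeOk hC h1 h2).1)
    (fun i h1 h2 => (signs_of_sizeOk hC h1 h2).2) hS ?_
  intro T hT a b y ha hb hba hab
  rw [List.mem_map] at hT
  obtain ⟨p, hp, rfl⟩ := hT
  have := hK p hp a b y ha hb hba hab
  rwa [KsR_eq, rp_toR] at this

end Pool.Agent.MMS36
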