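import Pool.Agent.MMS36.BridgeChk
import Pool.Agent.MMSChk.Sound

/-!
From `check C p = true` to the lower bounds.
-/

set_option autoImplicit false
set_option linter.unusedSectionVars false

namespace Pool.Agent.MMS36

open Finset Pool.Agent.H59.MMS Pool.Agent.MMSChk

/-- Soundness of the checker. -/
theorem check_sound {C : Cert} {p : MMSChk.Par} (h : check C p = true) {a b : ℝ} (ha : |a| < C.A)
    (hb : |b| < C.A) (hba : b ≤ a) (hab : a ^ 2 + b ^ 2 ≤ (C.A : ℝ) ^ 2) (y : ℝ) :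
    0 ≤ KsR C p.toR a b y := by
  obtain ⟨r, s, hr, hs, hrR, hsR, ht, hmid⟩ := check_mid h ha hb hba hab
  exact KsR_nonneg_of_mid (MMS39.check_pairs h row0).2.1 ha hb hr hs hrR hsR ht hmid y

variable {α : Type*} [DecidableEq α]

/-- Single pair. -/
theorem lb_of_check_pair {k n : ℕ} (hk1 : 1 ≤ k) (hk : k + 3 ≤ n) (C : Cert)
    {τ γp γn : ℝ} (hτ : τ ≤ 1)
    (hS : ∀ (V : Finset α) (x : α → ℝ), V.card = n → ∑ i ∈ V, x i = 0 →
      ∑ i ∈ V, x i ^ 2 = 1 → av (k + 1) V (nn x) < τ →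
        ∀ i ∈ V, lamR C (C.A * x i) ≠ 0 → gin k V x i ≤ if 0 ≤ x i then γp else γn)
    (p : MMSChk.Par) {c : ℝ} (hc : 0 < c)
    (hT : rp p.toR = (C4.par n (k + 1) τ γp γn).map fun t => c * t)
    (h : check C p = true) :
    LB α (k + 1) n τ :=
  lb_of_chk_pair hk1 hk C (MMS39.check_pairs h row0).1 hτ hS p hc hT
    fun _ _ y ha hb hba hab => check_sound h ha hb hba hab y

/-- Box. -/
theorem lb_of_check_box {k n : ℕ} (hk1 : 1 ≤ k) (hk : k + 3 ≤ n) (C : Cert)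
    (hC : sizeOk C = true)
    {E F G g : ℤ} (hE : 0 < E) (hF : 0 < F) (hG : 0 < G) (hg : 0 < g) (TA TB TC : MMS39.Aff ℤ)
    {P0 P1 E0 E1 : ℤ}
    (hp0 : (P0 : ℝ) / E ≤ (k + 1 : ℝ) / n) (hp1 : (k + 1 : ℝ) / n ≤ (P1 : ℝ) / E)
    (he0 : (E0 : ℝ) / F ≤ 1 / (n : ℝ)) (he1 : 1 / (n : ℝ) ≤ (E1 : ℝ) / F)
    (Ts : List MMSChk.Par) (hTs : (Ts.map zp).map (fun T => T.map (fun m => g * m)) =
      MMS39.Par.cornersZ E F G TA TB TC P0 P1 E0 E1)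
    {τ γp γn : ℝ}
    (hτe : τ = TA.c0 / G + TA.c1 / G * ((k + 1 : ℝ) / n) + TA.c2 / G * (1 / (n : ℝ)))
    (hγp : γp = TB.c0 / G + TB.c1 / G * ((k + 1 : ℝ) / n) + TB.c2 / G * (1 / (n : ℝ)))
    (hγn : γn = TC.c0 / G + TC.c1 / G * ((k + 1 : ℝ) / n) + TC.c2 / G * (1 / (n : ℝ)))
    (hτ : τ ≤ 1)
    (hS : ∀ (V : Finset α) (x : α → ℝ), V.card = n → ∑ i ∈ V, x i = 0 →
      ∑ i ∈ V, x i ^ 2 = 1 → av (k + 1) V (nn x) < τ →
        ∀ i ∈ V, lamR C (C.A * x i) ≠ 0 → gin k V x i ≤ if 0 ≤ x i then γp else γn)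
    (h : ∀ p ∈ Ts, check C p = true) :
    LB α (k + 1) n τ :=
  lb_of_chk_box hk1 hk C hC hE hF hG hg TA TB TC hp0 hp1 he0 he1 Ts hTs hτe hγp hγn hτ hS
    fun p hp _ _ y ha hb hba hab => check_sound (h p hp) ha hb hba hab y

end Pool.Agent.MMS36
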