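import Pool.Agent.MMS36.Stage

/-!
All coprime pairs from two lists of certified boxes: a finite test for the small pairs and a grid
test for the large ones.
-/

set_option autoImplicit false
set_option linter.unusedSectionVars false

namespace Pool.Agent.MMS36

open Finset Pool.Agent.H59.MMS Pool.Agent.MMSChk Pool.Agent.MMS77

/-! ### single pairs -/

/-- the spectral lower bound -/
def spec (K n : ℚ) : ℚ :=
  K / (n - K) / (1 - K * (K - 1) / ((n - K) * (n - K - 1)) +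
    (K / (n - K) + K * (K - 1) / ((n - K) * (n - K - 1))) * (2 * (n - 1) / (n - 2)))

/-- lower bound for `(2K + j, K)` -/
def beta2 (K j : ℕ) : ℚ :=
  if j = 1 then ((K : ℚ) + 1) / (2 * (2 * K + 1)) else spec (K : ℚ) (2 * K + j)

theorem lb_beta2 {k j : ℕ} (hk1 : 1 ≤ k) (hj : 1 ≤ j) :
    LB ℝ (k + 1) (2 * (k + 1) + j) ((beta2 (k + 1) j : ℚ) : ℝ) := by
  unfold beta2
  split_ifs with h
  · subst h
    refine (LB_double_succ k).mono (le_of_eq ?_)
    push_cast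
    ring
  · refine (MMSA.lb_spec (α := ℝ) (k := k) (n := 2 * (k + 1) + j) (by omega) (by omega)
      rfl rfl).mono (le_of_eq ?_)
    unfold spec
    push_cast
    ring_nf

/-- test of a lower level box for the pair `(3K + j, K)` -/
def levOk (B : BoxD) (K j : ℕ) : Bool :=
  isL B && inBox B (K : ℤ) ((3 * K + j : ℕ) : ℤ) && decide (tauQ B ≤ 1) &&
    okLx (K : ℚ) ((3 * K + j : ℕ) : ℚ) (tauQ B) (beta2 K j) (gamQ B)

/-- test of a final level box for the pair `(4K + j, K)` -/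
def finOk (B : BoxD) (K j : ℕ) (l : ℚ) : Bool :=
  isF B && inBox B (K : ℤ) ((4 * K + j : ℕ) : ℤ) &&
    okFx (K : ℚ) ((4 * K + j : ℕ) : ℚ) l (gamQ B)

def pairOk' (Fs Ls : List BoxD) (K j : ℕ) : Bool :=
  Ls.any fun L => levOk L K j && Fs.any fun F => finOk F K j (tauQ L)

theorem lev_sound {B : BoxD} (hB : B.Ok) {k j : ℕ} (hk1 : 1 ≤ k) (hj : 1 ≤ j)
    (h : levOk B (k + 1) j = true) :
    LB ℝ (k + 1) (3 * (k + 1) + j) ((tauQ B : ℚ) : ℝ) := by
  unfold levOk at h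
  simp only [Bool.and_eq_true, decide_eq_true_eq] at h
  obtain ⟨⟨⟨h1, h2⟩, h3⟩, h4⟩ := h
  have hbox := inBox_real (B := B) (k := k) (n := 3 * (k + 1) + j) (by exact_mod_cast h2)
  refine level_of_okx hB h1 h4 h3 hk1 (by omega) hbox ?_
  rw [show 3 * (k + 1) + j - (k + 1) = 2 * (k + 1) + j by omega]
  exact lb_beta2 hk1 hj

theorem fin_sound {B : BoxD} (hB : B.Ok) {k j : ℕ} {l : ℚ} (hk1 : 1 ≤ k)
    (h : finOk B (k + 1) j l = true) (hLB : LB ℝ (k + 1) (3 * (k + 1) + j) (l : ℝ)) :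
    Good (4 * (k + 1) + j) (k + 1) := by
  unfold finOk at h
  simp only [Bool.and_eq_true] at h
  obtain ⟨⟨h1, h2⟩, h4⟩ := h
  have hbox := inBox_real (B := B) (k := k) (n := 4 * (k + 1) + j) (by exact_mod_cast h2)
  have := final_of_okx (α := ℝ) hB h1 h4 hk1 (by omega) hbox
    (by rw [show 4 * (k + 1) + j - (k + 1) = 3 * (k + 1) + j by omega]; exact hLB)
  unfold Good
  push_cast at this ⊢
  exact this

theorem pair_sound {Fs Ls : List BoxD} (hF : ∀ B ∈ Fs, B.Ok) (hL : ∀ B ∈ Ls, B.Ok) {K j : ℕ}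
    (hK : 2 ≤ K) (hj : 1 ≤ j) (h : pairOk' Fs Ls K j = true) : Good (4 * K + j) K := by
  obtain ⟨k, rfl⟩ : ∃ k, K = k + 1 := ⟨K - 1, by omega⟩
  unfold pairOk' at h
  rw [List.any_eq_true] at h
  obtain ⟨L, hLm, h⟩ := h
  rw [Bool.and_eq_true, List.any_eq_true] at h
  obtain ⟨h1, F, hFm, h2⟩ := h
  exact fin_sound (hF F hFm) (by omega) h2 (lev_sound (hL L hLm) (by omega) hj h1)

/-- all coprime pairs with `K < m` and `4K + j < N` -/
def finiteOk (Fs Ls : List BoxD) (m N : ℕ) : Bool :=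
  (List.range m).all fun K => (List.range K).all fun j =>
    decide (j = 0) || decide (K < 2) || decide (N ≤ 4 * K + j) || !decide (Nat.gcd j K = 1) ||
      pairOk' Fs Ls K j

theorem finite_sound {Fs Ls : List BoxD} (hF : ∀ B ∈ Fs, B.Ok) (hL : ∀ B ∈ Ls, B.Ok) {m N : ℕ}
    (h : finiteOk Fs Ls m N = true) {K j : ℕ} (hj : 0 < j) (hjK : j < K)
    (hc : Nat.Coprime j K) (hKm : K < m) (hN : 4 * K + j < N) : Good (4 * K + j) K := by
  unfold finiteOk at h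
  rw [List.all_eq_true] at h
  have h1 := h K (List.mem_range.2 hKm)
  rw [List.all_eq_true] at h1
  have h2 := h1 j (List.mem_range.2 hjK)
  simp only [Bool.or_eq_true, decide_eq_true_eq, Bool.not_eq_true', decide_eq_false_iff_not] at h2
  rcases h2 with (((h2 | h2) | h2) | h2) | h2
  · omega
  · omega
  · omega
  · exact absurd hc h2
  · exact pair_sound hF hL (by omega) hj h2

/-! ### regions -/

/-- upper bound of `K / (4K + j)` for `t0 K ≤ j`, `1 ≤ j`, and `4K + j ≤ N1` if `N1 ≠ 0` -/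
def upP (t0 N1 : ℚ) : ℚ := if N1 = 0 then 1 / (4 + t0) else min (1 / (4 + t0)) ((1 - 1 / N1) / 4)

/-- test of a region `t0 K ≤ j ≤ t1 K`, `N0 ≤ 4K + j` (`≤ N1` if `N1 ≠ 0`) -/
def regOk (F L : BoxD) (t0 t1 N0 N1 : ℚ) : Bool :=
  isF F && isL L && decide (tauQ L ≤ 1) && decide (0 ≤ t0) && decide (t0 ≤ t1) &&
  decide (8 < N0) && decide (0 ≤ N1) &&
  decide ((F.P0 : ℚ) * (4 + t1) ≤ F.E) && decide ((F.E : ℚ) * upP t0 N1 ≤ F.P1) &&
  decide (F.E0 = 0) && decide ((F.F : ℚ) ≤ F.E1 * N0) &&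
  decide ((L.P0 : ℚ) * (3 + t1) ≤ L.E) && decide ((L.E : ℚ) ≤ L.P1 * (3 + t0)) &&
  decide (L.E0 = 0) && decide ((L.F : ℚ) * (4 + t0) ≤ L.E1 * (N0 * (3 + t0))) &&
  decide (4 < N0 * (2 + t0) / (4 + t0)) && decide (0 ≤ F.E1) && decide (0 ≤ L.E1) &&
  decide (0 ≤ F.P0) && decide (0 ≤ L.P0) && decide (0 ≤ L.P1) &&
  okF (upP t0 N1) (1 / N0) (tauQ L) (gamQ F) &&
  (let b := (1 / (2 + t1)) * (1 - 1 / (2 + t1)) / (1 + 1 / (N0 * (2 + t0) / (4 + t0) - 2))
   okB (1 / (2 + t1)) (N0 * (2 + t0) / (4 + t0)) b &&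
   okL (1 / (3 + t1)) (1 / (3 + t0)) ((4 + t0) / (N0 * (3 + t0))) (tauQ L) b (gamQ L))

theorem upP_le {t0 N1 : ℚ} (ht0 : 0 ≤ t0) (hN1 : 0 ≤ N1) {K j : ℝ} (hK : 0 < K) (hj : 1 ≤ j)
    (h0 : (t0 : ℝ) * K ≤ j) (h1 : N1 = 0 ∨ 4 * K + j ≤ (N1 : ℝ)) :
    K ≤ ((upP t0 N1 : ℚ) : ℝ) * (4 * K + j) := by
  have ht : (0 : ℝ) ≤ t0 := by exact_mod_cast ht0
  have e1 : K ≤ (1 / (4 + (t0 : ℝ))) * (4 * K + j) := by
    rw [div_mul_eq_mul_div, le_div_iff₀ (by linarith)]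
    nlinarith
  unfold upP
  split_ifs with h
  · push_cast; exact e1
  · rcases h1 with h1 | h1
    · exact absurd h1 h
    · have hN : (0 : ℝ) < N1 := by
        have : (0 : ℚ) < N1 := lt_of_le_of_ne hN1 (Ne.symm h)
        exact_mod_cast this
      have e2 : K ≤ ((1 - 1 / (N1 : ℝ)) / 4) * (4 * K + j) := by
        have h3 : (1 / (N1 : ℝ)) * (4 * K + j) ≤ 1 := by
          rw [div_mul_eq_mul_div, div_le_one hN, one_mul]; exact h1
        have h4 : ((1 - 1 / (N1 : ℝ)) / 4) * (4 * K + j) =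
            ((4 * K + j) - (1 / (N1 : ℝ)) * (4 * K + j)) / 4 := by ring
        rw [h4]
        linarith
      push_cast
      rcases min_choice (1 / (4 + (t0 : ℝ))) ((1 - 1 / (N1 : ℝ)) / 4) with hm | hm
      · rw [hm]; exact e1
      · rw [hm]; exact e2

theorem mem_lower {P0 E c t1 x j : ℝ} (h : P0 * (c + t1) ≤ E) (hP : 0 ≤ P0) (hx : 0 ≤ x)
    (hj : j ≤ t1 * x) : P0 * (c * x + j) ≤ E * x := by
  have h1 : P0 * (c * x + j) ≤ P0 * (c * x + t1 * x) :=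
    mul_le_mul_of_nonneg_left (by linarith) hP
  have h2 : P0 * (c + t1) * x ≤ E * x := mul_le_mul_of_nonneg_right h hx
  have h3 : P0 * (c * x + t1 * x) = P0 * (c + t1) * x := by ring
  linarith

theorem mem_upper {P1 E c t0 x j : ℝ} (h : E ≤ P1 * (c + t0)) (hP : 0 ≤ P1) (hx : 0 ≤ x)
    (hj : t0 * x ≤ j) : E * x ≤ P1 * (c * x + j) := by
  have h1 : P1 * (c * x + t0 * x) ≤ P1 * (c * x + j) :=
    mul_le_mul_of_nonneg_left (by linarith) hP
  have h2 : E * x ≤ P1 * (c + t0) * x := mul_le_mul_of_nonneg_right h hx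
  have h3 : P1 * (c * x + t0 * x) = P1 * (c + t0) * x := by ring
  linarith

theorem mem_cross {c t0 x j N0 : ℝ} (hc : 0 ≤ c) (hc4 : c ≤ 4) (ht : 0 ≤ t0)
    (hj : t0 * x ≤ j) (hN : N0 ≤ 4 * x + j) : N0 * (c + t0) ≤ (c * x + j) * (4 + t0) := by
  have h1 : N0 * (c + t0) ≤ (4 * x + j) * (c + t0) :=
    mul_le_mul_of_nonneg_right hN (by linarith)
  have h2 : (4 - c) * (t0 * x) ≤ (4 - c) * j := mul_le_mul_of_nonneg_left hj (by linarith)
  have h3 : (c * x + j) * (4 + t0) - (4 * x + j) * (c + t0) = (4 - c) * j - (4 - c) * (t0 * x) := by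
    ring
  linarith

theorem reg_sound {F L : BoxD} (hF : F.Ok) (hL : L.Ok) {t0 t1 N0 N1 : ℚ}
    (h : regOk F L t0 t1 N0 N1 = true) {K j : ℕ} (hK : 2 ≤ K) (hj : 1 ≤ j)
    (h0 : (t0 : ℝ) * K ≤ j) (h1 : (j : ℝ) ≤ t1 * K) (hN0 : (N0 : ℝ) ≤ 4 * K + j)
    (hN1 : N1 = 0 ∨ (4 * K + j : ℝ) ≤ N1) : Good (4 * K + j) K := by
  obtain ⟨k, rfl⟩ : ∃ k, K = k + 1 := ⟨K - 1, by omega⟩
  unfold regOk at h
  simp only [Bool.and_eq_true, decide_eq_true_eq] at h
  obtain ⟨⟨⟨⟨⟨⟨⟨⟨⟨⟨⟨⟨⟨⟨⟨⟨⟨⟨⟨⟨⟨⟨c1, c2⟩, c3⟩, c4⟩, c5⟩, c6⟩, c7⟩, c8⟩, c9⟩, c10⟩, c11⟩, c12⟩, c13⟩,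
    c14⟩, c15⟩, c16⟩, c17⟩, c18⟩, c19⟩, c20⟩, c21⟩, c22⟩, c23, c24⟩ := h
  have hkR : (1 : ℝ) ≤ k := by
    have : 1 ≤ k := by omega
    exact_mod_cast this
  have hjR : (1 : ℝ) ≤ j := by exact_mod_cast hj
  push_cast at h0 h1 hN0 hN1
  set x : ℝ := (k : ℝ) + 1 with hx
  have hx2 : 2 ≤ x := by rw [hx]; linarith
  have ht0 : (0 : ℝ) ≤ t0 := by exact_mod_cast c4
  have ht1 : (t0 : ℝ) ≤ t1 := by exact_mod_cast c5
  have hN8 : (8 : ℝ) < N0 := by exact_mod_cast c6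
  have r8 : (F.P0 : ℝ) * (4 + t1) ≤ F.E := by exact_mod_cast c8
  have r9 : (F.E : ℝ) * ((upP t0 N1 : ℚ) : ℝ) ≤ F.P1 := by exact_mod_cast c9
  have r11 : (F.F : ℝ) ≤ F.E1 * N0 := by exact_mod_cast c11
  have r12 : (L.P0 : ℝ) * (3 + t1) ≤ L.E := by exact_mod_cast c12
  have r13 : (L.E : ℝ) ≤ L.P1 * (3 + t0) := by exact_mod_cast c13
  have r15 : (L.F : ℝ) * (4 + t0) ≤ L.E1 * (N0 * (3 + t0)) := by exact_mod_cast c15
  have r17 : (0 : ℝ) ≤ F.E1 := by exact_mod_cast c17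
  have r18 : (0 : ℝ) ≤ L.E1 := by exact_mod_cast c18
  have r19 : (0 : ℝ) ≤ F.P0 := by exact_mod_cast c19
  have r20 : (0 : ℝ) ≤ L.P0 := by exact_mod_cast c20
  have r21 : (0 : ℝ) ≤ L.P1 := by exact_mod_cast c21
  have rE : (0 : ℝ) < F.E := by exact_mod_cast hF.good.1
  have rE' : (0 : ℝ) < L.E := by exact_mod_cast hL.good.1
  have up := upP_le (t0 := t0) (N1 := N1) c4 c7 (K := x) (j := j) (by linarith) hjR h0 hN1
  -- level 2
  have hx0 : 0 ≤ x := by linarith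
  have m2 : ((N0 * (2 + t0) / (4 + t0) : ℚ) : ℝ) ≤ 2 * x + j := by
    push_cast
    rw [div_le_iff₀ (by linarith)]
    exact mem_cross (by norm_num) (by norm_num) ht0 h0 hN0
  have p2 : ((1 / (2 + t1) : ℚ) : ℝ) * (2 * x + j) ≤ x := by
    have hp : 0 < 2 + (t1 : ℝ) := by linarith
    have := mem_lower (P0 := 1 / (2 + (t1 : ℝ))) (E := 1) (c := 2) (t1 := t1) (x := x) (j := j)
      (by rw [one_div, inv_mul_cancel₀ (by linarith)]) (by positivity) hx0 h1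
    push_cast
    linarith
  have lb2 : LB ℝ (k + 1) (2 * (k + 1) + j) _ := lb_of_okB c23 (by omega) (by omega)
    (by push_cast at p2 ⊢; exact p2) (by push_cast at m2 ⊢; exact m2)
  -- level 1
  have m1 : (1 : ℝ) ≤ (((4 + t0) / (N0 * (3 + t0)) : ℚ) : ℝ) * (3 * x + j) := by
    have := mem_cross (c := 3) (by norm_num) (by norm_num) ht0 h0 hN0
    push_cast
    rw [div_mul_eq_mul_div, le_div_iff₀ (by positivity)]
    linarith
  have p1 : ((1 / (3 + t1) : ℚ) : ℝ) * (3 * x + j) ≤ x := by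
    have hp : 0 < 3 + (t1 : ℝ) := by linarith
    have := mem_lower (P0 := 1 / (3 + (t1 : ℝ))) (E := 1) (c := 3) (t1 := t1) (x := x) (j := j)
      (by rw [one_div, inv_mul_cancel₀ (by linarith)]) (by positivity) hx0 h1
    push_cast
    linarith
  have P1 : x ≤ ((1 / (3 + t0) : ℚ) : ℝ) * (3 * x + j) := by
    have := mem_upper (P1 := 1 / (3 + (t0 : ℝ))) (E := 1) (c := 3) (t0 := t0) (x := x) (j := j)
      (by rw [one_div, inv_mul_cancel₀ (by linarith)]) (by positivity) hx0 h0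
    push_cast
    linarith
  have lb1 : LB ℝ (k + 1) (3 * (k + 1) + j) ((tauQ L : ℚ) : ℝ) := by
    refine level_of_ok hL c2 c24 c3 (by omega) (by omega) ?_ ?_ ?_ ?_ ?_
    · push_cast
      refine ⟨?_, ?_, ?_, ?_⟩
      · exact mem_lower r12 r20 hx0 h1
      · exact mem_upper r13 r21 hx0 h0
      · rw [c14]; push_cast
        have : (0 : ℝ) < L.F := by exact_mod_cast hL.good.2.1
        linarith
      · have h5 : N0 * (3 + (t0 : ℝ)) ≤ (4 + t0) * (3 * x + j) := by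
          have := mem_cross (c := 3) (by norm_num) (by norm_num) ht0 h0 hN0
          linarith
        have h6 : (L.F : ℝ) * (4 + t0) ≤ L.E1 * ((4 + t0) * (3 * x + j)) :=
          r15.trans (mul_le_mul_of_nonneg_left h5 r18)
        have h7 : (L.F : ℝ) * (4 + t0) ≤ (L.E1 * (3 * x + j)) * (4 + t0) := by linarith
        exact le_of_mul_le_mul_right h7 (by linarith)
    · push_cast at p1 ⊢; exact p1
    · push_cast at P1 ⊢; exact P1
    · push_cast at m1 ⊢; exact m1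
    · rw [show 3 * (k + 1) + j - (k + 1) = 2 * (k + 1) + j by omega]
      exact lb2
  have := final_of_ok (α := ℝ) hF c1 c22 (k := k) (n := 4 * (k + 1) + j) (by omega) (by omega)
    (by
      push_cast
      refine ⟨?_, ?_, ?_, ?_⟩
      · exact mem_lower r8 r19 hx0 h1
      · have h5 : (F.E : ℝ) * x ≤ F.E * (((upP t0 N1 : ℚ) : ℝ) * (4 * x + j)) :=
          mul_le_mul_of_nonneg_left up rE.le
        have h6 : (F.E : ℝ) * ((upP t0 N1 : ℚ) : ℝ) * (4 * x + j) ≤ F.P1 * (4 * x + j) :=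
          mul_le_mul_of_nonneg_right r9 (by linarith)
        linarith
      · rw [c10]; push_cast
        have : (0 : ℝ) < F.F := by exact_mod_cast hF.good.2.1
        linarith
      · exact r11.trans (mul_le_mul_of_nonneg_left hN0 r17))
    (by push_cast at up ⊢; exact up)
    (by
      push_cast
      rw [div_mul_eq_mul_div, one_mul, le_div_iff₀ (by linarith)]
      linarith)
    (by rw [show 4 * (k + 1) + j - (k + 1) = 3 * (k + 1) + j by omega]; exact lb1)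
  unfold Good
  push_cast at this ⊢
  exact this

/-! ### the grid -/

/-- `f` at all pairs of consecutive entries -/
def consec (f : ℚ → ℚ → Bool) : List ℚ → Bool
  | [] => true
  | [_] => true
  | a :: b :: l => f a b && consec f (b :: l)

theorem consec_mem {f : ℚ → ℚ → Bool} : ∀ (l : List ℚ) (a : ℚ), consec f (a :: l) = true →
    l ≠ [] → ∀ x : ℝ, (a : ℝ) ≤ x → x ≤ (((a :: l).getLast (by simp) : ℚ) : ℝ) →
      ∃ b c : ℚ, f b c = true ∧ (b : ℝ) ≤ x ∧ x ≤ c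
  | [], _, _, hne, _, _, _ => absurd rfl hne
  | [b], a, h, _, x, h1, h2 => by
    unfold consec at h
    rw [Bool.and_eq_true] at h
    exact ⟨a, b, h.1, h1, by simpa using h2⟩
  | b :: c :: l, a, h, _, x, h1, h2 => by
    unfold consec at h
    rw [Bool.and_eq_true] at h
    rcases le_total x (b : ℝ) with hx | hx
    · exact ⟨a, b, h.1, h1, hx⟩
    · refine consec_mem (c :: l) b h.2 (by simp) x hx ?_
      simpa using h2

/-- a region that is covered by some pair of boxes -/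
def cellOk (Fs Ls : List BoxD) (t0 t1 N0 N1 : ℚ) : Bool :=
  Fs.any fun F => Ls.any fun L => regOk F L t0 t1 N0 N1

/-- all regions with `t0 ≤ θ ≤ t1` of the grid `Ns`, the last one without upper bound -/
def stripOk (Fs Ls : List BoxD) (Ns : List ℚ) (Nl : ℚ) (t0 t1 : ℚ) : Bool :=
  consec (fun N0 N1 => !decide (N1 = 0) && cellOk Fs Ls t0 t1 N0 N1) (Ns ++ [Nl]) &&
    cellOk Fs Ls t0 t1 Nl 0

/-- the whole grid -/
def gridOk (Fs Ls : List BoxD) (ts : List ℚ) (N0 : ℚ) (Ns : List ℚ) (Nl : ℚ) : Bool :=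
  consec (stripOk Fs Ls (N0 :: Ns) Nl) (0 :: ts ++ [1])

theorem cell_sound {Fs Ls : List BoxD} (hF : ∀ B ∈ Fs, B.Ok) (hL : ∀ B ∈ Ls, B.Ok)
    {t0 t1 N0 N1 : ℚ} (h : cellOk Fs Ls t0 t1 N0 N1 = true) {K j : ℕ} (hK : 2 ≤ K) (hj : 1 ≤ j)
    (h0 : (t0 : ℝ) * K ≤ j) (h1 : (j : ℝ) ≤ t1 * K) (hN0 : (N0 : ℝ) ≤ 4 * K + j)
    (hN1 : N1 = 0 ∨ (4 * K + j : ℝ) ≤ N1) : Good (4 * K + j) K := by
  unfold cellOk at h
  rw [List.any_eq_true] at h
  obtain ⟨F, hFm, h⟩ := h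
  rw [List.any_eq_true] at h
  obtain ⟨L, hLm, h⟩ := h
  exact reg_sound (hF F hFm) (hL L hLm) h hK hj h0 h1 hN0 hN1

theorem grid_sound {Fs Ls : List BoxD} (hF : ∀ B ∈ Fs, B.Ok) (hL : ∀ B ∈ Ls, B.Ok)
    {ts : List ℚ} {N0 : ℚ} {Ns : List ℚ} {Nl : ℚ} (h : gridOk Fs Ls ts N0 Ns Nl = true)
    {K j : ℕ} (hj : 0 < j) (hjK : j < K) (hN : (N0 : ℝ) ≤ 4 * K + j) : Good (4 * K + j) K := by
  have hK0 : (0 : ℝ) < K := by
    have : 0 < K := by omega
    exact_mod_cast this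
  have hj0 : (0 : ℝ) < j := by exact_mod_cast hj
  have hjK' : (j : ℝ) < K := by exact_mod_cast hjK
  unfold gridOk at h
  have e : (0 :: ts ++ [1] : List ℚ) = 0 :: (ts ++ [1]) := rfl
  rw [e] at h
  obtain ⟨t0, t1, h1, h2, h3⟩ := consec_mem (ts ++ [1]) 0 h (by simp) ((j : ℝ) / K)
    (by push_cast; positivity)
    (by
      have : ((0 :: (ts ++ [1]) : List ℚ).getLast (by simp)) = 1 := by simp
      rw [this]
      push_cast
      rw [div_le_one hK0]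
      exact hjK'.le)
  rw [le_div_iff₀ hK0] at h2
  rw [div_le_iff₀ hK0] at h3
  unfold stripOk at h1
  rw [Bool.and_eq_true] at h1
  rcases le_total ((4 : ℝ) * K + j) (Nl : ℝ) with hNl | hNl
  · have e2 : (N0 :: Ns ++ [Nl] : List ℚ) = N0 :: (Ns ++ [Nl]) := rfl
    have h4 := h1.1
    rw [e2] at h4
    obtain ⟨a, b, h5, h6, h7⟩ := consec_mem (Ns ++ [Nl]) N0 h4 (by simp) ((4 : ℝ) * K + j) hN
      (by
        have : ((N0 :: (Ns ++ [Nl]) : List ℚ).getLast (by simp)) = Nl := by simp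
        rw [this]
        exact hNl)
    rw [Bool.and_eq_true] at h5
    exact cell_sound hF hL h5.2 (by omega) hj h2 h3 h6 (Or.inr h7)
  · exact cell_sound hF hL h1.2 (by omega) hj h2 h3 hNl (Or.inl rfl)

/-- Everything. -/
theorem mms_of_lists {Fs Ls : List BoxD} (hF : ∀ B ∈ Fs, B.Ok) (hL : ∀ B ∈ Ls, B.Ok)
    {ts : List ℚ} {Ns : List ℚ} {Nl : ℚ} {N : ℕ} (hfin : finiteOk Fs Ls N N = true)
    (hgrid : gridOk Fs Ls ts (N : ℚ) Ns Nl = true) :
    ∀ n k : ℕ, 0 < k → 4 * k ≤ n → Good n k := by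
  refine good_all fun K j hj hjK hc => ?_
  rcases lt_or_ge (4 * K + j) N with h | h
  · exact finite_sound hF hL hfin hj hjK hc (by omega) h
  · refine grid_sound hF hL hgrid hj hjK ?_
    have : (N : ℝ) ≤ ((4 * K + j : ℕ) : ℝ) := by exact_mod_cast h
    push_cast at this ⊢
    exact this

end Pool.Agent.MMS36
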