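import Pool.Agent.MMS36.Cover
import Pool.Agent.MMSX.F1
import Pool.Agent.MMSX.F2
import Pool.Agent.MMSX.F3
import Pool.Agent.MMSX.F4
import Pool.Agent.MMSX.F17_4
import Pool.Agent.MMSX.F19_4
import Pool.Agent.MMSX.F13_3
import Pool.Agent.MMSX.F14_3
import Pool.Agent.MMSX.F9_2
import Pool.Agent.MMSX.A1
import Pool.Agent.MMSX.A2
import Pool.Agent.MMSX.A3
import Pool.Agent.MMSX.B1
import Pool.Agent.MMSX.B2
import Pool.Agent.MMSX.B3
import Pool.Agent.MMSX.B4
import Pool.Agent.MMSX.C1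
import Pool.Agent.MMSX.C2
import Pool.Agent.MMSX.C3
import Pool.Agent.MMSX.D1
import Pool.Agent.MMSX.D2
import Pool.Agent.MMSX.L13_4
import Pool.Agent.MMSX.L15_4
import Pool.Agent.MMSX.L10_3
import Pool.Agent.MMSX.L11_3
import Pool.Agent.MMSX.L7_2

/-!
The bound of Manickam, Miklos and Singhi for all `n ≥ 4k`, from the certified boxes.
-/

set_option autoImplicit false

namespace Pool.Agent.MMS36

open Pool.Agent.H59.MMS Pool.Agent.MMSChk Pool.Agent.MMS77

/-- the boxes of the final level -/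
def Fs : List BoxD := [MMSX.F1.box, MMSX.F2.box, MMSX.F3.box, MMSX.F4.box, MMSX.F17_4.box,
    MMSX.F19_4.box, MMSX.F13_3.box, MMSX.F14_3.box, MMSX.F9_2.box]

theorem okFs : ∀ B ∈ Fs, B.Ok := by
  intro B hB
  simp only [Fs, List.mem_cons, List.not_mem_nil, or_false] at hB
  rcases hB with rfl | rfl | rfl | rfl | rfl | rfl | rfl | rfl | rfl
  · exact MMSX.F1.ok
  · exact MMSX.F2.ok
  · exact MMSX.F3.ok
  · exact MMSX.F4.ok
  · exact MMSX.F17_4.ok
  · exact MMSX.F19_4.ok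
  · exact MMSX.F13_3.ok
  · exact MMSX.F14_3.ok
  · exact MMSX.F9_2.ok

/-- the boxes of the lower level -/
def Ls : List BoxD := [MMSX.A1.box, MMSX.A2.box, MMSX.A3.box, MMSX.B1.box, MMSX.B2.box,
    MMSX.B3.box, MMSX.B4.box, MMSX.C1.box, MMSX.C2.box, MMSX.C3.box, MMSX.D1.box, MMSX.D2.box,
    MMSX.L13_4.box, MMSX.L15_4.box, MMSX.L10_3.box, MMSX.L11_3.box, MMSX.L7_2.box]

theorem okLs : ∀ B ∈ Ls, B.Ok := by
  intro B hB
  simp only [Ls, List.mem_cons, List.not_mem_nil, or_false] at hB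
  rcases hB with rfl | rfl | rfl | rfl | rfl | rfl | rfl | rfl | rfl | rfl | rfl | rfl | rfl | rfl | rfl | rfl | rfl
  · exact MMSX.A1.ok
  · exact MMSX.A2.ok
  · exact MMSX.A3.ok
  · exact MMSX.B1.ok
  · exact MMSX.B2.ok
  · exact MMSX.B3.ok
  · exact MMSX.B4.ok
  · exact MMSX.C1.ok
  · exact MMSX.C2.ok
  · exact MMSX.C3.ok
  · exact MMSX.D1.ok
  · exact MMSX.D2.ok
  · exact MMSX.L13_4.ok
  · exact MMSX.L15_4.ok
  · exact MMSX.L10_3.ok
  · exact MMSX.L11_3.ok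
  · exact MMSX.L7_2.ok

theorem finite_test : finiteOk Fs Ls 100 100 = true := by decide +kernel

theorem grid_test :
    gridOk Fs Ls [1 / 20, 1 / 10, 1 / 5, 1 / 4, 3 / 10, 9 / 20, 3 / 5, 4 / 5] ((100 : ℕ) : ℚ) []
      200 = true := by
  decide +kernel

/-- The bound for all pairs. -/
theorem mms_all : ∀ n k : ℕ, 0 < k → 4 * k ≤ n → Good n k :=
  mms_of_lists okFs okLs finite_test grid_test

/-- For all families of real numbers with nonnegative sum. -/
theorem mms_family (n k : ℕ) (hk : 0 < k) (hn : 4 * k ≤ n) (ι : Type) (V : Finset ι) (x : ι → ℝ)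
    (hV : V.card = n) (hx : 0 ≤ ∑ i ∈ V, x i) :
    (n - 1).choose (k - 1) ≤
      ((V.powersetCard k).filter (fun B => 0 ≤ ∑ i ∈ B, x i)).card := by
  classical
  exact count_of_lb hk (by omega) (mms_all n k hk hn).lb V x hV hx

end Pool.Agent.MMS36
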