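import Pool.Agent.MMS36.Chk
import Pool.Agent.MMS77.Box

/-!
One box of a certificate, with stage A: the final level and the lower level.
-/

set_option autoImplicit false
set_option linter.unusedSectionVars false

namespace Pool.Agent.MMS36

open Finset Pool.Agent.H59.MMS Pool.Agent.MMSChk Pool.Agent.MMS77

variable {α : Type*} [DecidableEq α]

/-- The data of a box: `p = (k+1)/n` in `[P0/E, P1/E]`, `1/n` in `[E0/F, E1/F]`, threshold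
`τ = (T0 + T1 p) / G`, conditional fraction at most `γ = g0 / G`. -/
structure BoxD where
  C : Cert
  E : ℤ
  F : ℤ
  G : ℤ
  g : ℤ
  P0 : ℤ
  P1 : ℤ
  E0 : ℤ
  E1 : ℤ
  T0 : ℤ
  T1 : ℤ
  g0 : ℤ
  Ts : List MMSChk.Par

/-- The arithmetic conditions on the data of a box. -/
def BoxD.Good (B : BoxD) : Prop :=
  0 < B.E ∧ 0 < B.F ∧ 0 < B.G ∧ 0 < B.g ∧
  (B.Ts.map zp).map (fun T => T.map (fun m => B.g * m)) =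
      MMS39.Par.cornersZ B.E B.F B.G ⟨B.T0, B.T1, 0⟩ ⟨B.g0, 0, 0⟩ ⟨B.g0, 0, 0⟩ B.P0 B.P1 B.E0 B.E1

instance (B : BoxD) : Decidable B.Good := by unfold BoxD.Good; infer_instance

theorem lb_of_boxD {k n : ℕ} (hk1 : 1 ≤ k) (hk : k + 3 ≤ n) (B : BoxD) (hC : sizeOk B.C = true)
    (hB : B.Good) (h : ∀ p ∈ B.Ts, check B.C p = true)
    (hp0 : (B.P0 : ℝ) * n ≤ B.E * (k + 1)) (hp1 : (B.E : ℝ) * (k + 1) ≤ B.P1 * n)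
    (he0 : (B.E0 : ℝ) * n ≤ B.F) (he1 : (B.F : ℝ) ≤ B.E1 * n)
    {τ γ : ℝ} (hτe : τ = B.T0 / B.G + B.T1 / B.G * ((k + 1 : ℝ) / n)) (hγe : γ = B.g0 / B.G)
    (hτ : τ ≤ 1)
    (hS : ∀ (V : Finset α) (x : α → ℝ), V.card = n → ∑ i ∈ V, x i = 0 →
      ∑ i ∈ V, x i ^ 2 = 1 → av (k + 1) V (nn x) < τ → ∀ i ∈ V, gin k V x i ≤ γ) :
    LB α (k + 1) n τ := by
  obtain ⟨hE, hF, hG, hg, hT⟩ := hB
  have hE' : (0 : ℝ) < B.E := by exact_mod_cast hE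
  have hF' : (0 : ℝ) < B.F := by exact_mod_cast hF
  have hn : (0 : ℝ) < n := by
    have : 0 < n := by omega
    exact_mod_cast this
  refine lb_of_check_box (γp := γ) (γn := γ) hk1 hk B.C hC hE hF hG hg ⟨B.T0, B.T1, 0⟩
    ⟨B.g0, 0, 0⟩ ⟨B.g0, 0, 0⟩ (P0 := B.P0) (P1 := B.P1) (E0 := B.E0) (E1 := B.E1)
    ?_ ?_ ?_ ?_ B.Ts hT ?_ ?_ ?_ hτ ?_ h
  · rw [div_le_div_iff₀ hE' hn]; linarith
  · rw [div_le_div_iff₀ hn hE']; linarith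
  · rw [div_le_div_iff₀ hF' hn]; linarith
  · rw [div_le_div_iff₀ hn hF']; linarith
  · rw [hτe]; push_cast; ring
  · rw [hγe]; push_cast; ring
  · rw [hγe]; push_cast; ring
  · intro V x hV hx hQ hlt i hi _
    have := hS V x hV hx hQ hlt i hi
    split_ifs <;> exact this

/-- Final level: `τ = (k+1)/n`. -/
theorem final_box {k n : ℕ} (hk1 : 1 ≤ k) (h3n : 3 * (k + 1) ≤ n) (B : BoxD)
    (hC : sizeOk B.C = true) (hB : B.Good) (h : ∀ p ∈ B.Ts, check B.C p = true)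
    (hT0 : B.T0 = 0) (hT1 : B.T1 = B.G)
    (hp0 : (B.P0 : ℝ) * n ≤ B.E * (k + 1)) (hp1 : (B.E : ℝ) * (k + 1) ≤ B.P1 * n)
    (he0 : (B.E0 : ℝ) * n ≤ B.F) (he1 : (B.F : ℝ) ≤ B.E1 * n)
    (P E R c κ1 κ2 s ℓ γ q0 : ℝ) (hγe : γ = B.g0 / B.G)
    (hLB : LB α (k + 1) (n - (k + 1)) ℓ)
    (hPn : (k + 1 : ℝ) ≤ P * n) (hEn : 1 ≤ E * n)
    (hP1 : P < 1) (hE2 : 2 * E + P < 1) (hR : P ≤ R * (1 - E - P))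
    (hc : c = 1 / 4 ∨ (R ≤ 1 / 2 ∧ c = R * (1 - R)))
    (hκ1 : 1 + (c + R * (E / (1 - 2 * E - P))) / 2 ≤ κ1)
    (hκ2 : 1 / 4 * (P / (1 - P)) ^ 2 * (1 / (1 - P)) ^ 2 ≤ κ2)
    (hs0 : 0 < s) (hs : s * P ≤ 1 - P)
    (hκ : 0 < κ1) (hq0 : κ1 * (1 - γ) ≤ ℓ * s) (hq : 0 < q0) (hqb : 1 - γ ≤ s * q0)
    (h1 : 0 ≤ (s * ℓ ^ 2 - κ2) * q0)
    (h2 : 0 ≤ 2 * (s * ℓ ^ 2 - κ2) * q0 + (-(2 * s * ℓ * κ1) + κ2 * (1 + s)) * q0 ^ 2)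
    (h3' : 0 ≤ (s * ℓ ^ 2 - κ2) * q0 + (-(2 * s * ℓ * κ1) + κ2 * (1 + s)) * q0 ^ 2 +
      (s * κ1 ^ 2 - κ2 * s) * q0 ^ 3) :
    LB α (k + 1) n ((k + 1 : ℝ) / n) := by
  have hG : (B.G : ℝ) ≠ 0 := by exact_mod_cast hB.2.2.1.ne'
  have hn : (0 : ℝ) < n := by
    have : 0 < n := by omega
    exact_mod_cast this
  have h3R : 3 * ((k : ℝ) + 1) ≤ n := by exact_mod_cast h3n
  refine lb_of_boxD (γ := γ) hk1 (by omega) B hC hB h hp0 hp1 he0 he1 ?_ hγe ?_ ?_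
  · rw [hT0, hT1]; field_simp; push_cast; ring
  · rw [div_le_one hn]; linarith [(Nat.cast_nonneg k : (0 : ℝ) ≤ k)]
  · intro V x hV hx _ hlt
    exact gin_box_final hV hx.ge h3n hk1 hlt P E R c κ1 κ2 s ℓ γ q0 hLB hPn hEn hP1 hE2 hR hc hκ1
      hκ2 hs0 hs hκ hq0 hq hqb h1 h2 h3'

/-- Lower level: `τ` constant. -/
theorem level_box {k n : ℕ} (hk1 : 1 ≤ k) (h3n : 3 * (k + 1) ≤ n) (B : BoxD)
    (hC : sizeOk B.C = true) (hB : B.Good) (h : ∀ p ∈ B.Ts, check B.C p = true)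
    (hT1 : B.T1 = 0)
    (hp0 : (B.P0 : ℝ) * n ≤ B.E * (k + 1)) (hp1 : (B.E : ℝ) * (k + 1) ≤ B.P1 * n)
    (he0 : (B.E0 : ℝ) * n ≤ B.F) (he1 : (B.F : ℝ) ≤ B.E1 * n)
    (τ p P E R c κ1 κ2 a b ℓ γ q0 : ℝ) (hτe : τ = B.T0 / B.G) (hτ1 : τ ≤ 1)
    (hγe : γ = B.g0 / B.G)
    (hLB : LB α (k + 1) (n - (k + 1)) ℓ)
    (hpn : p * n ≤ k + 1) (hp : 0 < p) (hτp : τ ≤ p)
    (hPn : (k + 1 : ℝ) ≤ P * n) (hEn : 1 ≤ E * n)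
    (hP1 : P < 1) (hE2 : 2 * E + P < 1) (hR : P ≤ R * (1 - E - P))
    (hc : c = 1 / 4 ∨ (R ≤ 1 / 2 ∧ c = R * (1 - R)))
    (hκ1 : 1 + (c + R * (E / (1 - 2 * E - P))) / 2 ≤ κ1)
    (hκ2 : 1 / 4 * (P / (1 - P)) ^ 2 * (1 / (1 - P)) ^ 2 ≤ κ2)
    (ha : a = 1 - τ / p) (hb : b = (1 - p) / p) (hb0 : 0 < b)
    (hκ : 0 < κ1) (hq0 : κ1 * (1 - γ - a) ≤ ℓ * b) (hq : 0 < q0) (hqb : 1 - γ - a ≤ b * q0)
    (h1 : 0 ≤ 3 * (a * ℓ ^ 2) + (b * ℓ ^ 2 - 2 * a * ℓ * κ1 - κ2 * (1 - a)) * q0)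
    (h2 : 0 ≤ 3 * (a * ℓ ^ 2) + 2 * (b * ℓ ^ 2 - 2 * a * ℓ * κ1 - κ2 * (1 - a)) * q0 +
      (a * κ1 ^ 2 - 2 * b * ℓ * κ1 + κ2 * (1 - a + b)) * q0 ^ 2)
    (h3' : 0 ≤ a * ℓ ^ 2 + (b * ℓ ^ 2 - 2 * a * ℓ * κ1 - κ2 * (1 - a)) * q0 +
      (a * κ1 ^ 2 - 2 * b * ℓ * κ1 + κ2 * (1 - a + b)) * q0 ^ 2 +
      (b * κ1 ^ 2 - κ2 * b) * q0 ^ 3) :
    LB α (k + 1) n τ := by
  refine lb_of_boxD (γ := γ) hk1 (by omega) B hC hB h hp0 hp1 he0 he1 ?_ hγe hτ1 ?_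
  · rw [hτe, hT1]; push_cast; ring
  · intro V x hV hx _ hlt
    exact gin_box_level hV hx.ge h3n hk1 hlt p P E R c κ1 κ2 a b ℓ γ q0 hLB hpn hp hτp hPn hEn hP1
      hE2 hR hc hκ1 hκ2 ha hb hb0 hκ hq0 hq hqb h1 h2 h3'

end Pool.Agent.MMS36
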