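import Pool.Agent.MMS36.Rows

/-!
Removing one element that is not larger than the total: `LB K (N - 1) ℓ` gives
`LB K N (ℓ (N - K) / N)`.
-/

set_option autoImplicit false
set_option linter.unusedSectionVars false

namespace Pool.Agent.MMS36

open Finset Pool.Agent.H59.MMS

variable {α : Type*} [DecidableEq α]

theorem exists_le_sum {V : Finset α} (hV : V.Nonempty) (x : α → ℝ) (hx : 0 ≤ ∑ i ∈ V, x i) :
    ∃ i ∈ V, x i ≤ ∑ i ∈ V, x i := by
  by_contra hcon
  push Not at hcon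
  have h1 : (V.card : ℝ) * (∑ i ∈ V, x i) < ∑ i ∈ V, x i := by
    have h2 : ∑ _i ∈ V, (∑ i ∈ V, x i) < ∑ i ∈ V, x i :=
      Finset.sum_lt_sum_of_nonempty hV fun i hi => hcon i hi
    rwa [Finset.sum_const, nsmul_eq_mul] at h2
  have h3 : (1 : ℝ) ≤ V.card := by exact_mod_cast Finset.card_pos.2 hV
  nlinarith

theorem LB_remove {k n : ℕ} {ℓ : ℝ} (hn : k + 2 ≤ n) (h : LB α (k + 1) (n - 1) ℓ) :
    LB α (k + 1) n (((n : ℝ) - (k + 1)) / n * ℓ) := by
  intro V x hV hx
  have hn' : (k : ℝ) + 2 ≤ n := by exact_mod_cast hn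
  have hk0 : (0 : ℝ) ≤ k := Nat.cast_nonneg k
  have hne : V.Nonempty := by rw [← Finset.card_pos]; omega
  obtain ⟨i, hi, hle⟩ := exists_le_sum hne x hx
  have h1 : ℓ ≤ gout k V x i := by
    refine h (V.erase i) x (by rw [Finset.card_erase_of_mem hi, hV]) ?_
    rw [sum_erase_one hi]; linarith
  have h2 : 0 ≤ gin k V x i := av_nonneg fun T _ _ => nn_nonneg x _
  rw [tot_eq hi (by omega), hV]
  have hp : 0 ≤ ((n : ℝ) - (k + 1)) / n := div_nonneg (by linarith) (by linarith)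
  have hq : 0 ≤ ((k : ℝ) + 1) / n := div_nonneg (by linarith) (by linarith)
  nlinarith [mul_le_mul_of_nonneg_left h1 hp, mul_nonneg hq h2]

end Pool.Agent.MMS36
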