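import Pool.Agent.MMS36.Win

/-!
Rows of the certificate that use the failing hypothesis: single windows, the total fraction of
nonnegative sets, and the conditional fractions.
-/

set_option autoImplicit false
set_option linter.unusedSectionVars false

namespace Pool.Agent.MMS36

open Finset Pool.Agent.H59.MMS

variable {α : Type*} [DecidableEq α]

/-- The indicator of the nonnegative reals. -/
noncomputable def ge0 (u : ℝ) : ℝ := if 0 ≤ u then 1 else 0

theorem ge0_nonneg (u : ℝ) : 0 ≤ ge0 u := by unfold ge0; split_ifs <;> norm_num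

theorem ge0_le_one (u : ℝ) : ge0 u ≤ 1 := by unfold ge0; split_ifs <;> norm_num

theorem nn_eq_ge0 (x : α → ℝ) (S : Finset α) : nn x S = ge0 (∑ i ∈ S, x i) := rfl

/-- The conditional fraction of nonnegative sets among the sets containing `i`. -/
noncomputable def gin (k : ℕ) (V : Finset α) (x : α → ℝ) (i : α) : ℝ :=
  av k (V.erase i) (fun T => nn x (insert i T))

/-- The conditional fraction of nonnegative sets among the sets avoiding `i`. -/
noncomputable def gout (k : ℕ) (V : Finset α) (x : α → ℝ) (i : α) : ℝ :=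
  av (k + 1) (V.erase i) (nn x)

section

variable {k : ℕ} {V : Finset α} {x : α → ℝ}

theorem av_erase_sum {b : ℕ} {M : Finset α} (hb : b + 1 ≤ M.card) (g : Finset α → ℝ) :
    ∑ s ∈ M, av b (M.erase s) g = M.card * av b M g := by
  have hM : (M.card : ℝ) ≠ 0 := by
    have : 0 < M.card := by omega
    positivity
  have h := av_erase_avg hb g
  rw [div_eq_iff hM] at h
  rw [h]; ring

/-- A function of the first element and of the rest sum: single window, the element inside. -/
theorem win_in (hk : k + 2 ≤ V.card) (F : ℝ → ℝ → ℝ) :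
    win k V x (fun a _ y => F a y) =
      ((V.card : ℝ) - 1) * ∑ i ∈ V, av k (V.erase i) (fun T => F (x i) (∑ t ∈ T, x t)) := by
  unfold win
  rw [Finset.mul_sum]
  refine Finset.sum_congr rfl fun i hi => ?_
  rw [av_erase_sum (M := V.erase i) (b := k)
    (by rw [Finset.card_erase_of_mem hi]; omega) (fun T => F (x i) (∑ t ∈ T, x t)),
    card_erase_cast hi]

/-- A function of the first element and of the rest sum: single window, the element outside. -/
theorem win_out (hk : k + 2 ≤ V.card) (F : ℝ → ℝ → ℝ) :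
    win k V x (fun a b y => F a (y + b)) =
      ((V.card : ℝ) - 1) * ∑ i ∈ V, av (k + 1) (V.erase i) (fun T => F (x i) (∑ t ∈ T, x t)) := by
  unfold win
  rw [Finset.mul_sum]
  refine Finset.sum_congr rfl fun i hi => ?_
  have hc : (V.erase i).card = V.card - 1 := Finset.card_erase_of_mem hi
  have h := av_peel' (k := k) (V := V.erase i) (by omega) (fun T => F (x i) (∑ t ∈ T, x t))
  have hN : ((V.erase i).card : ℝ) ≠ 0 := by
    have : 0 < (V.erase i).card := by omega
    positivity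
  rw [eq_div_iff hN, card_erase_cast hi] at h
  rw [mul_comm, h]
  refine Finset.sum_congr rfl fun j _ => ?_
  refine av_congr fun T hT _ => ?_
  rw [sum_insert_of_sub hT, add_comm]

/-- A function of `x(S)` only. -/
theorem win_tot (hk : k + 2 ≤ V.card) (F : ℝ → ℝ) :
    win k V x (fun a _ y => F (y + a)) =
      (V.card : ℝ) * ((V.card : ℝ) - 1) * av (k + 1) V (fun S => F (∑ t ∈ S, x t)) := by
  have hN : (k : ℝ) + 2 ≤ V.card := by exact_mod_cast hk
  have hk0 : (0 : ℝ) ≤ k := Nat.cast_nonneg k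
  rw [win_in hk (fun a y => F (y + a))]
  have h := av_peel' (k := k) (V := V) (by omega) (fun S => F (∑ t ∈ S, x t))
  have hN0 : (V.card : ℝ) ≠ 0 := by linarith
  rw [eq_div_iff hN0] at h
  rw [mul_comm (V.card : ℝ), mul_assoc, mul_comm (V.card : ℝ), h]
  congr 1
  refine Finset.sum_congr rfl fun i _ => ?_
  refine av_congr fun T hT _ => ?_
  rw [sum_insert_of_sub hT]
  congr 1; ring

/-- A function of the first element only. -/
theorem win_elem (hk : k + 2 ≤ V.card) (F : ℝ → ℝ) :
    win k V x (fun a _ _ => F a) = ((V.card : ℝ) - 1) * ∑ i ∈ V, F (x i) := by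
  rw [win_in hk (fun a _ => F a)]
  congr 1
  refine Finset.sum_congr rfl fun i hi => ?_
  rw [av_const]
  rw [Finset.card_erase_of_mem hi]; omega

theorem gin_eq (i : α) : gin k V x i =
    av k (V.erase i) (fun T => ge0 (x i + ∑ t ∈ T, x t)) := by
  unfold gin
  refine av_congr fun T hT _ => ?_
  rw [nn_eq_ge0, sum_insert_of_sub hT]

theorem gout_eq (i : α) : gout k V x i =
    av (k + 1) (V.erase i) (fun T => ge0 (∑ t ∈ T, x t)) := rfl

/-- The total fraction as a mixture. -/
theorem tot_eq {i : α} (hi : i ∈ V) (hk : k + 1 ≤ V.card) :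
    av (k + 1) V (nn x) = (((V.card : ℝ) - (k + 1)) / V.card) * gout k V x i +
      ((k + 1 : ℝ) / V.card) * gin k V x i := av_split hi hk (nn x)

/-- Weighted indicator of the sets containing the first element, variable threshold. -/
theorem win_lamc (hk : k + 2 ≤ V.card) (lam c : ℝ → ℝ) :
    win k V x (fun a _ y => lam a * (ge0 (y + a) - c a)) =
      ((V.card : ℝ) - 1) * ∑ i ∈ V, lam (x i) * (gin k V x i - c (x i)) := by
  rw [win_in hk (fun a y => lam a * (ge0 (y + a) - c a))]
  congr 1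
  refine Finset.sum_congr rfl fun i hi => ?_
  rw [av_mul, av_sub, av_const (by rw [Finset.card_erase_of_mem hi]; omega), gin_eq]
  congr 3
  funext T
  congr 1; ring

/-- Weighted indicator of the sets avoiding the first element, variable threshold. -/
theorem win_rhoc (hk : k + 2 ≤ V.card) (rho c : ℝ → ℝ) :
    win k V x (fun a b y => rho a * (ge0 (y + b) - c a)) =
      ((V.card : ℝ) - 1) * ∑ i ∈ V, rho (x i) * (gout k V x i - c (x i)) := by
  rw [win_out hk (fun a v => rho a * (ge0 v - c a))]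
  congr 1
  refine Finset.sum_congr rfl fun i hi => ?_
  rw [av_mul, av_sub, av_const (by rw [Finset.card_erase_of_mem hi]; omega), gout_eq]

/-- Weighted indicator of the sets containing the first element. -/
theorem win_lam (hk : k + 2 ≤ V.card) (lam : ℝ → ℝ) (c : ℝ) :
    win k V x (fun a _ y => lam a * (ge0 (y + a) - c)) =
      ((V.card : ℝ) - 1) * ∑ i ∈ V, lam (x i) * (gin k V x i - c) := by
  rw [win_in hk (fun a y => lam a * (ge0 (y + a) - c))]
  congr 1
  refine Finset.sum_congr rfl fun i hi => ?_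
  rw [av_mul, av_sub, av_const (by rw [Finset.card_erase_of_mem hi]; omega), gin_eq]
  congr 3
  funext T
  congr 1; ring

/-- Weighted indicator of the sets avoiding the first element. -/
theorem win_rho (hk : k + 2 ≤ V.card) (rho : ℝ → ℝ) (c : ℝ) :
    win k V x (fun a b y => rho a * (ge0 (y + b) - c)) =
      ((V.card : ℝ) - 1) * ∑ i ∈ V, rho (x i) * (gout k V x i - c) := by
  rw [win_out hk (fun a v => rho a * (ge0 v - c))]
  congr 1
  refine Finset.sum_congr rfl fun i hi => ?_
  rw [av_mul, av_sub, av_const (by rw [Finset.card_erase_of_mem hi]; omega), gout_eq]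

theorem win_lam_nonpos (hk : k + 2 ≤ V.card) {lam : ℝ → ℝ} {c : ℝ}
    (hl : ∀ i ∈ V, 0 ≤ lam (x i)) (hg : ∀ i ∈ V, lam (x i) ≠ 0 → gin k V x i ≤ c) :
    win k V x (fun a _ y => lam a * (ge0 (y + a) - c)) ≤ 0 := by
  have hN : (k : ℝ) + 2 ≤ V.card := by exact_mod_cast hk
  have hk0 : (0 : ℝ) ≤ k := Nat.cast_nonneg k
  rw [win_lam hk]
  refine mul_nonpos_of_nonneg_of_nonpos (by linarith) ?_
  refine Finset.sum_nonpos fun i hi => ?_
  by_cases h0 : lam (x i) = 0
  · rw [h0, zero_mul]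
  · exact mul_nonpos_of_nonneg_of_nonpos (hl i hi) (by linarith [hg i hi h0])

theorem win_rho_nonneg (hk : k + 2 ≤ V.card) {rho : ℝ → ℝ} {c : ℝ}
    (hl : ∀ i ∈ V, 0 ≤ rho (x i)) (hg : ∀ i ∈ V, rho (x i) ≠ 0 → c ≤ gout k V x i) :
    0 ≤ win k V x (fun a b y => rho a * (ge0 (y + b) - c)) := by
  have hN : (k : ℝ) + 2 ≤ V.card := by exact_mod_cast hk
  have hk0 : (0 : ℝ) ≤ k := Nat.cast_nonneg k
  rw [win_rho hk]
  refine mul_nonneg (by linarith) ?_
  refine Finset.sum_nonneg fun i hi => ?_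
  by_cases h0 : rho (x i) = 0
  · rw [h0, zero_mul]
  · exact mul_nonneg (hl i hi) (by linarith [hg i hi h0])

/-- The multiplier of `P = p g + q g'`. -/
theorem win_m (hk : k + 2 ≤ V.card) (m : ℝ → ℝ) (c : ℝ) :
    win k V x (fun a b y => m a * ((k + 1 : ℝ) * ge0 (y + a) +
      ((V.card : ℝ) - (k + 1)) * ge0 (y + b) - V.card * c)) =
      ((V.card : ℝ) - 1) * V.card * (∑ i ∈ V, m (x i)) * (av (k + 1) V (nn x) - c) := by
  have hN : (k : ℝ) + 2 ≤ V.card := by exact_mod_cast hk
  have hk0 : (0 : ℝ) ≤ k := Nat.cast_nonneg k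
  have hN0 : (V.card : ℝ) ≠ 0 := by linarith
  have e : (fun a b y => m a * ((k + 1 : ℝ) * ge0 (y + a) +
      ((V.card : ℝ) - (k + 1)) * ge0 (y + b) - V.card * c)) =
      fun a b y => (k + 1 : ℝ) * (m a * (ge0 (y + a) - c)) +
        ((V.card : ℝ) - (k + 1)) * (m a * (ge0 (y + b) - c)) := by
    funext a b y; ring
  rw [e, win_add, win_mul, win_mul, win_lam hk, win_rho hk]
  have hR : ((V.card : ℝ) - 1) * V.card * (∑ i ∈ V, m (x i)) * (av (k + 1) V (nn x) - c) =
      ∑ i ∈ V, ((V.card : ℝ) - 1) * V.card * m (x i) * (av (k + 1) V (nn x) - c) := by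
    rw [Finset.mul_sum, Finset.sum_mul]
  have hL : (k + 1 : ℝ) * (((V.card : ℝ) - 1) * ∑ i ∈ V, m (x i) * (gin k V x i - c)) +
      ((V.card : ℝ) - (k + 1)) * (((V.card : ℝ) - 1) * ∑ i ∈ V, m (x i) * (gout k V x i - c)) =
      ∑ i ∈ V, ((k + 1 : ℝ) * (((V.card : ℝ) - 1) * (m (x i) * (gin k V x i - c))) +
        ((V.card : ℝ) - (k + 1)) * (((V.card : ℝ) - 1) * (m (x i) * (gout k V x i - c)))) := by
    rw [Finset.sum_add_distrib, Finset.mul_sum, Finset.mul_sum, Finset.mul_sum, Finset.mul_sum]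
  rw [hL, hR]
  refine Finset.sum_congr rfl fun i hi => ?_
  have h := tot_eq (k := k) (x := x) hi (by omega)
  have h2 : (V.card : ℝ) * av (k + 1) V (nn x) =
      ((V.card : ℝ) - (k + 1)) * gout k V x i + (k + 1 : ℝ) * gin k V x i := by
    rw [h]; field_simp
  linear_combination (-((V.card : ℝ) - 1) * m (x i)) * h2

theorem win_m_nonpos (hk : k + 2 ≤ V.card) {m : ℝ → ℝ} {c : ℝ}
    (hm : ∀ i ∈ V, 0 ≤ m (x i)) (hP : av (k + 1) V (nn x) ≤ c) :
    win k V x (fun a b y => m a * ((k + 1 : ℝ) * ge0 (y + a) +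
      ((V.card : ℝ) - (k + 1)) * ge0 (y + b) - V.card * c)) ≤ 0 := by
  have hN : (k : ℝ) + 2 ≤ V.card := by exact_mod_cast hk
  have hk0 : (0 : ℝ) ≤ k := Nat.cast_nonneg k
  rw [win_m hk]
  refine mul_nonpos_of_nonneg_of_nonpos ?_ (by linarith)
  exact mul_nonneg (mul_nonneg (by linarith) (by linarith)) (Finset.sum_nonneg hm)

/-- Single windows, the element inside: first moment of the rest. -/
theorem win_nu1 (hk : k + 2 ≤ V.card) (hx : ∑ i ∈ V, x i = 0) (μ : ℝ → ℝ) :
    win k V x (fun a _ y => μ a * (((V.card : ℝ) - 1) * y + k * a)) = 0 := by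
  have hN : (k : ℝ) + 2 ≤ V.card := by exact_mod_cast hk
  have hk0 : (0 : ℝ) ≤ k := Nat.cast_nonneg k
  rw [win_in hk (fun a y => μ a * (((V.card : ℝ) - 1) * y + k * a))]
  refine mul_eq_zero_of_right _ (Finset.sum_eq_zero fun i hi => ?_)
  have hc : (V.erase i).card = V.card - 1 := Finset.card_erase_of_mem hi
  have hm := mom1 (k := k) (V := V.erase i) (by omega) (by omega) x
  rw [card_erase_cast hi, sum_erase_one hi, hx] at hm
  rw [av_mul, av_add, av_mul, av_const (by omega), hm]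
  have : (V.card : ℝ) - 1 ≠ 0 := by linarith
  field_simp
  ring

/-- Single windows, the element inside: second moment of the rest. -/
theorem win_nu2 (hk : k + 2 ≤ V.card) (hN3 : 3 ≤ V.card) (hx : ∑ i ∈ V, x i = 0) (μ : ℝ → ℝ) :
    win k V x (fun a _ y => μ a * (((V.card : ℝ) - 1) * ((V.card : ℝ) - 2) * y ^ 2 -
      (k * ((V.card : ℝ) - 1 - k) * (∑ i ∈ V, x i ^ 2 - a ^ 2) + k * (k - 1) * a ^ 2))) = 0 := by
  have hN : (3 : ℝ) ≤ V.card := by exact_mod_cast hN3
  rw [win_in hk (fun a y => μ a * (((V.card : ℝ) - 1) * ((V.card : ℝ) - 2) * y ^ 2 -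
      (k * ((V.card : ℝ) - 1 - k) * (∑ i ∈ V, x i ^ 2 - a ^ 2) + k * (k - 1) * a ^ 2)))]
  refine mul_eq_zero_of_right _ (Finset.sum_eq_zero fun i hi => ?_)
  have hc : (V.erase i).card = V.card - 1 := Finset.card_erase_of_mem hi
  have hm := mom2 (k := k) (V := V.erase i) (by omega) (by omega) x
  have hs1 : ∑ j ∈ V.erase i, x j = - x i := by rw [sum_erase_one hi, hx]; ring
  rw [card_erase_cast hi, hs1, sum_erase_pow hi] at hm
  rw [av_mul, av_sub, av_mul, av_const (by omega), hm]
  have h1 : (V.card : ℝ) - 1 ≠ 0 := by linarith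
  have h2 : (V.card : ℝ) - 2 ≠ 0 := by linarith
  have e : (V.card : ℝ) - 1 - 1 = V.card - 2 := by ring
  rw [e]
  field_simp
  ring

/-- Single windows, the element outside: first moment. -/
theorem win_nu1' (hk : k + 2 ≤ V.card) (hx : ∑ i ∈ V, x i = 0) (μ : ℝ → ℝ) :
    win k V x (fun a b y => μ a * (((V.card : ℝ) - 1) * (y + b) + (k + 1) * a)) = 0 := by
  have hN : (k : ℝ) + 2 ≤ V.card := by exact_mod_cast hk
  have hk0 : (0 : ℝ) ≤ k := Nat.cast_nonneg k
  rw [win_out hk (fun a v => μ a * (((V.card : ℝ) - 1) * v + (k + 1) * a))]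
  refine mul_eq_zero_of_right _ (Finset.sum_eq_zero fun i hi => ?_)
  have hc : (V.erase i).card = V.card - 1 := Finset.card_erase_of_mem hi
  have hm := mom1 (k := k + 1) (V := V.erase i) (by omega) (by omega) x
  rw [card_erase_cast hi, sum_erase_one hi, hx] at hm
  rw [av_mul, av_add, av_mul, av_const (by omega), hm]
  have : (V.card : ℝ) - 1 ≠ 0 := by linarith
  push_cast
  field_simp
  ring

/-- Single windows, the element outside: second moment. -/
theorem win_nu2' (hk : k + 2 ≤ V.card) (hN3 : 3 ≤ V.card) (hx : ∑ i ∈ V, x i = 0) (μ : ℝ → ℝ) :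
    win k V x (fun a b y => μ a * (((V.card : ℝ) - 1) * ((V.card : ℝ) - 2) * (y + b) ^ 2 -
      ((k + 1) * ((V.card : ℝ) - 2 - k) * (∑ i ∈ V, x i ^ 2 - a ^ 2) + (k + 1) * k * a ^ 2))) =
      0 := by
  have hN : (3 : ℝ) ≤ V.card := by exact_mod_cast hN3
  rw [win_out hk (fun a v => μ a * (((V.card : ℝ) - 1) * ((V.card : ℝ) - 2) * v ^ 2 -
      ((k + 1) * ((V.card : ℝ) - 2 - k) * (∑ i ∈ V, x i ^ 2 - a ^ 2) + (k + 1) * k * a ^ 2)))]
  refine mul_eq_zero_of_right _ (Finset.sum_eq_zero fun i hi => ?_)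
  have hc : (V.erase i).card = V.card - 1 := Finset.card_erase_of_mem hi
  have hm := mom2 (k := k + 1) (V := V.erase i) (by omega) (by omega) x
  have hs1 : ∑ j ∈ V.erase i, x j = - x i := by rw [sum_erase_one hi, hx]; ring
  rw [card_erase_cast hi, hs1, sum_erase_pow hi] at hm
  rw [av_mul, av_sub, av_mul, av_const (by omega), hm]
  have h1 : (V.card : ℝ) - 1 ≠ 0 := by linarith
  have h2 : (V.card : ℝ) - 2 ≠ 0 := by linarith
  have e : (V.card : ℝ) - 1 - 1 = V.card - 2 := by ring
  rw [e]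
  push_cast
  field_simp
  ring

/-- The sum of squares in single windows: a function of `x(S)`. -/
theorem win_h (hk : k + 2 ≤ V.card) (h : ℝ → ℝ) :
    win k V x (fun a b y => a ^ 2 * ((k + 1 : ℝ) * h (y + a) +
      ((V.card : ℝ) - (k + 1)) * h (y + b)) - (∑ i ∈ V, x i ^ 2) * h (y + a)) = 0 := by
  have e : (fun a b y => a ^ 2 * ((k + 1 : ℝ) * h (y + a) +
      ((V.card : ℝ) - (k + 1)) * h (y + b)) - (∑ i ∈ V, x i ^ 2) * h (y + a)) =
      fun a b y => (((k + 1 : ℝ) * a ^ 2 + ((V.card : ℝ) - (k + 1)) * b ^ 2 -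
        ∑ i ∈ V, x i ^ 2) * h (y + a)) +
        (((V.card : ℝ) - (k + 1)) * (a ^ 2 * h (y + b)) -
        ((V.card : ℝ) - (k + 1)) * (b ^ 2 * h (y + a))) := by
    funext a b y; ring
  rw [e, win_add, win_sub, win_sq hk, win_mul, win_mul,
    ← win_swap k V x (fun a b y => b ^ 2 * h (y + a))]
  ring

end

end Pool.Agent.MMS36
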