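import Pool.Agent.MMS36.Rows

/-!
Soundness of the pair window certificates: if the integrand `K` is nonnegative on all windows and
the multiplier `m` of the failing hypothesis is positive away from `0`, then no failing system
exists.
-/

set_option autoImplicit false
set_option linter.unusedSectionVars false

namespace Pool.Agent.MMS36

open Finset Pool.Agent.H59.MMS

variable {α : Type*} [DecidableEq α]

/-- The functions of a certificate. -/
structure Fam where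
  psi : ℝ → ℝ
  psi3 : ℝ → ℝ
  hh : ℝ → ℝ
  m : ℝ → ℝ
  lam : ℝ → ℝ
  gc : ℝ → ℝ
  rho : ℝ → ℝ
  rc : ℝ → ℝ
  chi : ℝ → ℝ
  mu1 : ℝ → ℝ
  mu2 : ℝ → ℝ
  phi1 : ℝ → ℝ
  phi2 : ℝ → ℝ
  g : ℝ → ℝ → ℝ
  h : ℝ → ℝ → ℝ
  p1 : ℝ → ℝ → ℝ
  p2 : ℝ → ℝ → ℝ

/-- The integrand. `N` is the number of elements, `K` the size of the sets, the sum of squares is
`1`, `τ` bounds the total fraction, `F.gc` the conditional fractions `gin`, `F.rc` the
conditional fractions `gout`. -/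
noncomputable def Fam.int (F : Fam) (N K τ a b y : ℝ) : ℝ :=
  ((1 / (N - K) + 1 / K) / 2 * ((y + a) * F.psi (y + a) + (y + b) * F.psi (y + b)) -
    1 / 2 * ((a - b) * (F.psi (y + a) - F.psi (y + b)))) +
  (a * b + 1 / (N - K) * (1 / K) * (y + a) ^ 2) * F.psi3 (y + a) +
  (1 / N * F.hh (y + a) - a ^ 2 * (K / N * F.hh (y + a) + (1 - K / N) * F.hh (y + b))) +
  F.m a * (K / N * ge0 (y + a) + (1 - K / N) * ge0 (y + b) - τ) +
  F.lam a * (ge0 (y + a) - F.gc a) +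
  F.rho a * (ge0 (y + b) - F.rc a) +
  F.chi a +
  F.mu1 a * (y + (K - 1) / (N - 1) * a) +
  F.mu2 a * (y ^ 2 - ((K - 1) * (N - K) * (1 - a ^ 2) + (K - 1) * (K - 2) * a ^ 2) /
    ((N - 1) * (N - 2))) +
  F.phi1 a * (b + 1 / (N - 1) * a) +
  F.phi2 a * (b ^ 2 - 1 / (N - 1) * (1 - a ^ 2)) +
  (b + 1 / (N - K) * (y + a)) * F.g a (y + a) +
  (b - 1 / K * (y + b)) * F.h a (y + b) +
  F.p1 a b * (y + (K - 1) / (N - 2) * (a + b)) +
  F.p2 a b * (y ^ 2 - ((K - 1) * (N - K - 1) * (1 - a ^ 2 - b ^ 2) +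
    (K - 1) * (K - 2) * (a + b) ^ 2) / ((N - 2) * (N - 3)))

section

variable {k : ℕ} {V : Finset α} {x : α → ℝ}

/-- The window sum of the integrand reduces to the rows that use the hypotheses. -/
theorem win_int (hk : k + 2 ≤ V.card) (hN : 4 ≤ V.card) (hx : ∑ i ∈ V, x i = 0)
    (hQ : ∑ i ∈ V, x i ^ 2 = 1) (F : Fam) (τ : ℝ) :
    win k V x (fun a b y => F.int V.card (k + 1) τ a b y) =
      ((V.card : ℝ) - 1) * (∑ i ∈ V, F.m (x i)) * (av (k + 1) V (nn x) - τ) +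
      ((V.card : ℝ) - 1) * ∑ i ∈ V, F.lam (x i) * (gin k V x i - F.gc (x i)) +
      ((V.card : ℝ) - 1) * ∑ i ∈ V, F.rho (x i) * (gout k V x i - F.rc (x i)) +
      ((V.card : ℝ) - 1) * ∑ i ∈ V, F.chi (x i) := by
  have hN4 : (4 : ℝ) ≤ V.card := by exact_mod_cast hN
  have hkN : (k : ℝ) + 2 ≤ V.card := by exact_mod_cast hk
  have hk0 : (0 : ℝ) ≤ k := Nat.cast_nonneg k
  have n0 : (V.card : ℝ) ≠ 0 := by linarith
  have n1 : (V.card : ℝ) - 1 ≠ 0 := by linarith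
  have n2 : (V.card : ℝ) - 2 ≠ 0 := by linarith
  have n3 : (V.card : ℝ) - 3 ≠ 0 := by linarith
  have nk : (V.card : ℝ) - (k + 1) ≠ 0 := by linarith
  have k1 : (k : ℝ) + 1 ≠ 0 := by linarith
  have e : (fun a b y => F.int V.card (k + 1) τ a b y) = fun a b y =>
      (-(1 / (2 * (((k : ℝ) + 1) * ((V.card : ℝ) - (k + 1)))))) *
        (((k + 1 : ℝ) * ((V.card : ℝ) - (k + 1)) * (a - b) - (V.card : ℝ) * (y + a)) *
          F.psi (y + a)) +
      (-(1 / (2 * (((k : ℝ) + 1) * ((V.card : ℝ) - (k + 1)))))) *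
        (((k + 1 : ℝ) * ((V.card : ℝ) - (k + 1)) * (b - a) - (V.card : ℝ) * (y + b)) *
          F.psi (y + b)) +
      (1 / (((k : ℝ) + 1) * ((V.card : ℝ) - (k + 1)))) *
        (((k + 1 : ℝ) * ((V.card : ℝ) - (k + 1)) * (a * b) + (y + a) ^ 2) * F.psi3 (y + a)) +
      (-(1 / (V.card : ℝ))) * (a ^ 2 * ((k + 1 : ℝ) * F.hh (y + a) +
        ((V.card : ℝ) - (k + 1)) * F.hh (y + b)) - (∑ i ∈ V, x i ^ 2) * F.hh (y + a)) +
      (1 / (V.card : ℝ)) * (F.m a * ((k + 1 : ℝ) * ge0 (y + a) +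
        ((V.card : ℝ) - (k + 1)) * ge0 (y + b) - V.card * τ)) +
      F.lam a * (ge0 (y + a) - F.gc a) +
      F.rho a * (ge0 (y + b) - F.rc a) +
      F.chi a +
      (1 / ((V.card : ℝ) - 1)) * (F.mu1 a * (((V.card : ℝ) - 1) * y + k * a)) +
      (1 / (((V.card : ℝ) - 1) * ((V.card : ℝ) - 2))) * (F.mu2 a * (((V.card : ℝ) - 1) *
        ((V.card : ℝ) - 2) * y ^ 2 - (k * ((V.card : ℝ) - 1 - k) *
          (∑ i ∈ V, x i ^ 2 - a ^ 2) + k * (k - 1) * a ^ 2))) +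
      (1 / ((V.card : ℝ) - 1)) * (F.phi1 a * (((V.card : ℝ) - 1) * b + a)) +
      (1 / ((V.card : ℝ) - 1)) * (F.phi2 a * (((V.card : ℝ) - 1) * b ^ 2 -
        (∑ i ∈ V, x i ^ 2 - a ^ 2))) +
      (1 / ((V.card : ℝ) - (k + 1))) * ((((V.card : ℝ) - (k + 1)) * b + (y + a)) *
        F.g a (y + a)) +
      (1 / ((k : ℝ) + 1)) * (((k + 1 : ℝ) * b - (y + b)) * F.h a (y + b)) +
      (1 / ((V.card : ℝ) - 2)) * (F.p1 a b * (((V.card : ℝ) - 2) * y + k * (a + b))) +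
      (1 / (((V.card : ℝ) - 2) * ((V.card : ℝ) - 3))) * (F.p2 a b * (((V.card : ℝ) - 2) *
        ((V.card : ℝ) - 3) * y ^ 2 - (k * ((V.card : ℝ) - 2 - k) *
          (∑ i ∈ V, x i ^ 2 - a ^ 2 - b ^ 2) + k * (k - 1) * (a + b) ^ 2))) := by
    funext a b y
    unfold Fam.int
    rw [hQ]
    field_simp
    ring
  rw [e]
  simp only [win_add, win_mul]
  rw [win_stein hk hx, win_prod hk hx, win_h hk, win_m hk, win_lamc hk, win_rhoc hk, win_elem hk, win_nu1 hk hx,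
    win_nu2 hk (by omega) hx, win_phi1 hk hx, win_phi2 hk, win_G hk hx, win_H hk,
    win_mu1 hk (by omega) hx, win_mu2 hk hN hx]
  have hs := win_swap k V x (fun a b y => ((k + 1 : ℝ) * ((V.card : ℝ) - (k + 1)) * (a - b) -
      (V.card : ℝ) * (y + a)) * F.psi (y + a))
  rw [win_stein hk hx] at hs
  rw [hs]
  field_simp
  ring

/-- The domain of the windows: bounds that hold for every window that occurs. -/
def Dom (N K a b y : ℝ) : Prop :=
  a ^ 2 + b ^ 2 ≤ 1 ∧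
    y ^ 2 / (K - 1) + (a + b + y) ^ 2 / (N - K - 1) + a ^ 2 + b ^ 2 ≤ 1

theorem sq_sum_le (T : Finset α) (x : α → ℝ) :
    (∑ t ∈ T, x t) ^ 2 ≤ T.card * ∑ t ∈ T, x t ^ 2 := sq_sum_le_card_mul_sum_sq

theorem dom_of_window (hx : ∑ i ∈ V, x i = 0) (hQ : ∑ i ∈ V, x i ^ 2 = 1) {i j : α}
    (hi : i ∈ V) (hj : j ∈ V.erase i) {T : Finset α} (hT : T ⊆ (V.erase i).erase j)
    (hc : T.card = k) (hkN : k + 2 ≤ V.card) :
    Dom V.card (k + 1) (x i) (x j) (∑ t ∈ T, x t) := by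
  set U := ((V.erase i).erase j) \ T with hU
  have hcU : (U.card : ℝ) = V.card - 2 - k := by
    rw [hU, Finset.card_sdiff_of_subset hT, Finset.card_erase_of_mem hj,
      Finset.card_erase_of_mem hi, hc, Nat.cast_sub (by omega), Nat.cast_sub (by omega),
      Nat.cast_sub (by omega)]
    push_cast; ring
  have h1 : ∑ t ∈ U, x t = -(x i + x j + ∑ t ∈ T, x t) := by
    have a1 := Finset.sum_sdiff (f := x) hT
    rw [sum_erase_one hj, sum_erase_one hi, hx] at a1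
    rw [hU]; linarith
  have h2 : ∑ t ∈ U, x t ^ 2 + ∑ t ∈ T, x t ^ 2 = 1 - x i ^ 2 - x j ^ 2 := by
    have a1 := Finset.sum_sdiff (f := fun t => x t ^ 2) hT
    rw [sum_erase_pow hj, sum_erase_pow hi, hQ] at a1
    rw [hU]; linarith
  have h3 := sq_sum_le T x
  have h4 := sq_sum_le U x
  have hTn : 0 ≤ ∑ t ∈ T, x t ^ 2 := Finset.sum_nonneg fun _ _ => sq_nonneg _
  have hUn : 0 ≤ ∑ t ∈ U, x t ^ 2 := Finset.sum_nonneg fun _ _ => sq_nonneg _
  rw [hc] at h3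
  rw [hcU, h1] at h4
  have e1 : ((k : ℝ) + 1) - 1 = k := by ring
  have e2 : (V.card : ℝ) - (k + 1) - 1 = V.card - 2 - k := by ring
  refine ⟨by linarith, ?_⟩
  rw [e1, e2]
  have hk0 : (0 : ℝ) ≤ k := Nat.cast_nonneg k
  have hN0 : (0 : ℝ) ≤ (V.card : ℝ) - 2 - k := by
    have : (k : ℝ) + 2 ≤ V.card := by exact_mod_cast hkN
    linarith
  have b1 : (∑ t ∈ T, x t) ^ 2 / (k : ℝ) ≤ ∑ t ∈ T, x t ^ 2 := by
    rcases hk0.eq_or_lt with h0 | h0
    · rw [← h0, div_zero]; exact hTn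
    · rw [div_le_iff₀ h0]; linarith
  have b2 : (x i + x j + ∑ t ∈ T, x t) ^ 2 / ((V.card : ℝ) - 2 - k) ≤ ∑ t ∈ U, x t ^ 2 := by
    rcases hN0.eq_or_lt with h0 | h0
    · rw [← h0, div_zero]; exact hUn
    · rw [div_le_iff₀ h0]
      have : (-(x i + x j + ∑ t ∈ T, x t)) ^ 2 = (x i + x j + ∑ t ∈ T, x t) ^ 2 := by ring
      linarith
  linarith

/-- Soundness, the form with the failing multiplier. -/
theorem sound (hk : k + 2 ≤ V.card) (hN : 4 ≤ V.card) (hx : ∑ i ∈ V, x i = 0)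
    (hQ : ∑ i ∈ V, x i ^ 2 = 1) (F : Fam) {τ : ℝ}
    (hm : ∀ a, 0 ≤ F.m a) (hm' : ∀ a, a ≠ 0 → 0 < F.m a)
    (hl : ∀ a, 0 ≤ F.lam a) (hg : ∀ i ∈ V, F.lam (x i) ≠ 0 → gin k V x i ≤ F.gc (x i))
    (hr : ∀ a, 0 ≤ F.rho a) (hr' : ∀ i ∈ V, F.rho (x i) ≠ 0 → gout k V x i ≤ F.rc (x i))
    (hc : ∑ i ∈ V, F.chi (x i) ≤ 0)
    (hK : ∀ a b y, Dom V.card (k + 1) a b y → 0 ≤ F.int V.card (k + 1) τ a b y) :
    τ ≤ av (k + 1) V (nn x) := by
  by_contra hlt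
  push Not at hlt
  have hN4 : (4 : ℝ) ≤ V.card := by exact_mod_cast hN
  have h1 : 0 ≤ win k V x (fun a b y => F.int V.card (k + 1) τ a b y) := by
    rw [← win_zero k V x]
    exact win_mono fun i hi j hj T hT hcT =>
      hK _ _ _ (dom_of_window hx hQ hi hj hT hcT hk)
  rw [win_int hk hN hx hQ] at h1
  have h2 : ∑ i ∈ V, F.lam (x i) * (gin k V x i - F.gc (x i)) ≤ 0 := by
    refine Finset.sum_nonpos fun i hi => ?_
    by_cases h0 : F.lam (x i) = 0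
    · rw [h0, zero_mul]
    · exact mul_nonpos_of_nonneg_of_nonpos (hl _) (by linarith [hg i hi h0])
  have h2' : ∑ i ∈ V, F.rho (x i) * (gout k V x i - F.rc (x i)) ≤ 0 := by
    refine Finset.sum_nonpos fun i hi => ?_
    by_cases h0 : F.rho (x i) = 0
    · rw [h0, zero_mul]
    · exact mul_nonpos_of_nonneg_of_nonpos (hr _) (by linarith [hr' i hi h0])
  have h3 : 0 < ∑ i ∈ V, F.m (x i) := by
    refine Finset.sum_pos' (fun i _ => hm _) ?_
    by_contra hcon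
    push Not at hcon
    have : ∑ i ∈ V, x i ^ 2 = 0 := by
      refine Finset.sum_eq_zero fun i hi => ?_
      by_contra h0
      have hxi : x i ≠ 0 := fun h => h0 (by rw [h]; ring)
      exact absurd (hm' _ hxi) (not_lt.2 (hcon i hi))
    rw [this] at hQ
    norm_num at hQ
  have h4 : ((V.card : ℝ) - 1) * (∑ i ∈ V, F.m (x i)) * (av (k + 1) V (nn x) - τ) < 0 := by
    refine mul_neg_of_pos_of_neg (mul_pos (by linarith) h3) (by linarith)
  have h5 : ((V.card : ℝ) - 1) * ∑ i ∈ V, F.lam (x i) * (gin k V x i - F.gc (x i)) ≤ 0 :=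
    mul_nonpos_of_nonneg_of_nonpos (by linarith) h2
  have h6 : ((V.card : ℝ) - 1) * ∑ i ∈ V, F.rho (x i) * (gout k V x i - F.rc (x i)) ≤ 0 :=
    mul_nonpos_of_nonneg_of_nonpos (by linarith) h2'
  have h7 : ((V.card : ℝ) - 1) * ∑ i ∈ V, F.chi (x i) ≤ 0 :=
    mul_nonpos_of_nonneg_of_nonpos (by linarith) hc
  linarith

/-- Soundness, symmetrised: only the sum over the two orders of the window has to be
nonnegative. -/
theorem sound_sym (hk : k + 2 ≤ V.card) (hN : 4 ≤ V.card) (hx : ∑ i ∈ V, x i = 0)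
    (hQ : ∑ i ∈ V, x i ^ 2 = 1) (F : Fam) {τ : ℝ}
    (hm : ∀ a, 0 ≤ F.m a) (hm' : ∀ a, a ≠ 0 → 0 < F.m a)
    (hl : ∀ a, 0 ≤ F.lam a) (hg : ∀ i ∈ V, F.lam (x i) ≠ 0 → gin k V x i ≤ F.gc (x i))
    (hr : ∀ a, 0 ≤ F.rho a) (hr' : ∀ i ∈ V, F.rho (x i) ≠ 0 → gout k V x i ≤ F.rc (x i))
    (hc : ∑ i ∈ V, F.chi (x i) ≤ 0)
    (hK : ∀ a b y, b ≤ a → Dom V.card (k + 1) a b y →
      0 ≤ F.int V.card (k + 1) τ a b y + F.int V.card (k + 1) τ b a y) :
    τ ≤ av (k + 1) V (nn x) := by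
  by_contra hlt
  push Not at hlt
  have hN4 : (4 : ℝ) ≤ V.card := by exact_mod_cast hN
  have hD : ∀ a b y, Dom V.card (k + 1) a b y → Dom V.card (k + 1) b a y := by
    intro a b y h
    refine ⟨by linarith [h.1], ?_⟩
    have e : (b + a + y) = (a + b + y) := by ring
    rw [e]; linarith [h.2]
  have h1 : 0 ≤ win k V x (fun a b y => F.int V.card (k + 1) τ a b y +
      F.int V.card (k + 1) τ b a y) := by
    rw [← win_zero k V x]
    refine win_mono fun i hi j hj T hT hcT => ?_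
    have hd := dom_of_window hx hQ hi hj hT hcT hk
    rcases le_total (x j) (x i) with h | h
    · exact hK _ _ _ h hd
    · have := hK _ _ _ h (hD _ _ _ hd)
      linarith
  rw [win_add, win_swap k V x (fun a b y => F.int V.card (k + 1) τ a b y),
    win_int hk hN hx hQ] at h1
  have h2 : ∑ i ∈ V, F.lam (x i) * (gin k V x i - F.gc (x i)) ≤ 0 := by
    refine Finset.sum_nonpos fun i hi => ?_
    by_cases h0 : F.lam (x i) = 0
    · rw [h0, zero_mul]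
    · exact mul_nonpos_of_nonneg_of_nonpos (hl _) (by linarith [hg i hi h0])
  have h2' : ∑ i ∈ V, F.rho (x i) * (gout k V x i - F.rc (x i)) ≤ 0 := by
    refine Finset.sum_nonpos fun i hi => ?_
    by_cases h0 : F.rho (x i) = 0
    · rw [h0, zero_mul]
    · exact mul_nonpos_of_nonneg_of_nonpos (hr _) (by linarith [hr' i hi h0])
  have h3 : 0 < ∑ i ∈ V, F.m (x i) := by
    refine Finset.sum_pos' (fun i _ => hm _) ?_
    by_contra hcon
    push Not at hcon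
    have : ∑ i ∈ V, x i ^ 2 = 0 := by
      refine Finset.sum_eq_zero fun i hi => ?_
      by_contra h0
      have hxi : x i ≠ 0 := fun h => h0 (by rw [h]; ring)
      exact absurd (hm' _ hxi) (not_lt.2 (hcon i hi))
    rw [this] at hQ
    norm_num at hQ
  have h4 : ((V.card : ℝ) - 1) * (∑ i ∈ V, F.m (x i)) * (av (k + 1) V (nn x) - τ) < 0 := by
    refine mul_neg_of_pos_of_neg (mul_pos (by linarith) h3) (by linarith)
  have h5 : ((V.card : ℝ) - 1) * ∑ i ∈ V, F.lam (x i) * (gin k V x i - F.gc (x i)) ≤ 0 :=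
    mul_nonpos_of_nonneg_of_nonpos (by linarith) h2
  have h6 : ((V.card : ℝ) - 1) * ∑ i ∈ V, F.rho (x i) * (gout k V x i - F.rc (x i)) ≤ 0 :=
    mul_nonpos_of_nonneg_of_nonpos (by linarith) h2'
  have h7 : ((V.card : ℝ) - 1) * ∑ i ∈ V, F.chi (x i) ≤ 0 :=
    mul_nonpos_of_nonneg_of_nonpos (by linarith) hc
  linarith

end

/-- From a certificate and stage A to the lower bound for all systems. -/
theorem lb_of_cert {k n : ℕ} (hk : k + 2 ≤ n) (hN : 4 ≤ n) (F : Fam) {τ : ℝ} (hτ : τ ≤ 1)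
    (hm : ∀ a, 0 ≤ F.m a) (hm' : ∀ a, a ≠ 0 → 0 < F.m a) (hl : ∀ a, 0 ≤ F.lam a)
    (hr : ∀ a, 0 ≤ F.rho a)
    (hA : ∀ (V : Finset α) (x : α → ℝ), V.card = n → ∑ i ∈ V, x i = 0 →
      ∑ i ∈ V, x i ^ 2 = 1 → av (k + 1) V (nn x) < τ →
        (∀ i ∈ V, F.lam (x i) ≠ 0 → gin k V x i ≤ F.gc (x i)) ∧
        (∀ i ∈ V, F.rho (x i) ≠ 0 → gout k V x i ≤ F.rc (x i)) ∧
        ∑ i ∈ V, F.chi (x i) ≤ 0)
    (hK : ∀ a b y, b ≤ a → Dom n (k + 1) a b y →
      0 ≤ F.int n (k + 1) τ a b y + F.int n (k + 1) τ b a y) :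
    LB α (k + 1) n τ := by
  refine LB.of_normalized (by omega) (by omega) hτ fun V x hV hx hQ => ?_
  by_contra hlt
  push Not at hlt
  obtain ⟨h1, h2, h3⟩ := hA V x hV hx hQ hlt
  refine absurd (sound_sym (by omega) (by omega) hx hQ F hm hm' hl h1 hr h2 h3 ?_)
    (not_le.2 hlt)
  rw [hV]
  exact hK

end Pool.Agent.MMS36
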