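import Pool.Agent.MMS36.Levels
import Pool.Agent.MMS36.Remove
import Pool.Agent.MMS77.Reduce

/-!
Stage A, the spectral bound and the boxes with computable tests over the rational numbers.
-/

set_option autoImplicit false
set_option linter.unusedSectionVars false

namespace Pool.Agent.MMS36

open Finset Pool.Agent.H59.MMS Pool.Agent.MMSChk Pool.Agent.MMS77

variable {α : Type*} [DecidableEq α]

def qR (P E : ℚ) : ℚ := P / (1 - E - P)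

def qc (P E : ℚ) : ℚ := if qR P E ≤ 1 / 2 then qR P E * (1 - qR P E) else 1 / 4

def qk1 (P E : ℚ) : ℚ := 1 + (qc P E + qR P E * (E / (1 - 2 * E - P))) / 2

def qk2 (P : ℚ) : ℚ := 1 / 4 * (P / (1 - P)) ^ 2 * (1 / (1 - P)) ^ 2

/-- the inequalities of stage A, final level -/
def okF' (P E l g k1 k2 s q0 : ℚ) : Bool :=
  decide (0 < P) && decide (P < 1) && decide (2 * E + P < 1) && decide (0 ≤ E) &&
  decide (0 < s) && decide (0 < k1) && decide (0 < q0) &&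
  decide (k1 * (1 - g) ≤ l * s) && decide (1 - g ≤ s * q0) &&
  decide (0 ≤ (s * l ^ 2 - k2) * q0) &&
  decide (0 ≤ 2 * (s * l ^ 2 - k2) * q0 + (-(2 * s * l * k1) + k2 * (1 + s)) * q0 ^ 2) &&
  decide (0 ≤ (s * l ^ 2 - k2) * q0 + (-(2 * s * l * k1) + k2 * (1 + s)) * q0 ^ 2 +
    (s * k1 ^ 2 - k2 * s) * q0 ^ 3)

/-- the test for stage A, final level -/
def okF (P E l g : ℚ) : Bool :=
  okF' P E l g (qk1 P E) (qk2 P) ((1 - P) / P) ((1 - g) / ((1 - P) / P))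

/-- the inequalities of stage A, lower level -/
def okL' (p P E t l g k1 k2 a b q0 : ℚ) : Bool :=
  decide (0 < p) && decide (t ≤ p) && decide (P < 1) && decide (2 * E + P < 1) &&
  decide (0 ≤ E) && decide (0 < b) && decide (0 < k1) && decide (0 < q0) &&
  decide (k1 * (1 - g - a) ≤ l * b) && decide (1 - g - a ≤ b * q0) &&
  decide (0 ≤ 3 * (a * l ^ 2) + (b * l ^ 2 - 2 * a * l * k1 - k2 * (1 - a)) * q0) &&
  decide (0 ≤ 3 * (a * l ^ 2) + 2 * (b * l ^ 2 - 2 * a * l * k1 - k2 * (1 - a)) * q0 +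
      (a * k1 ^ 2 - 2 * b * l * k1 + k2 * (1 - a + b)) * q0 ^ 2) &&
  decide (0 ≤ a * l ^ 2 + (b * l ^ 2 - 2 * a * l * k1 - k2 * (1 - a)) * q0 +
      (a * k1 ^ 2 - 2 * b * l * k1 + k2 * (1 - a + b)) * q0 ^ 2 +
      (b * k1 ^ 2 - k2 * b) * q0 ^ 3)

/-- the test for stage A, lower level -/
def okL (p P E t l g : ℚ) : Bool :=
  okL' p P E t l g (qk1 P E) (qk2 P) (1 - t / p) ((1 - p) / p)
    (if 1 - g - (1 - t / p) ≤ 0 then 1 / 1000 else (1 - g - (1 - t / p)) / ((1 - p) / p))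

/-- the test for the spectral bound: `p ≤ (k+1)/n`, `m ≤ n` -/
def okB (p m β : ℚ) : Bool :=
  decide (0 ≤ β) && decide (p ≤ 1 / 2) && decide (2 < m) &&
  decide (β * (1 + 1 / (m - 2)) ≤ p * (1 - p))

/-! ### soundness -/

theorem cast_qc (P E : ℚ) : ((qc P E : ℚ) : ℝ) = 1 / 4 ∨
    (((qR P E : ℚ) : ℝ) ≤ 1 / 2 ∧ ((qc P E : ℚ) : ℝ) = (qR P E : ℝ) * (1 - (qR P E : ℝ))) := by
  unfold qc
  split_ifs with h
  · right
    refine ⟨?_, by push_cast; ring⟩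
    have : ((qR P E : ℚ) : ℝ) ≤ ((1 / 2 : ℚ) : ℝ) := by exact_mod_cast h
    simpa using this
  · left
    push_cast
    norm_num

theorem qR_le {P E : ℚ} (h : 2 * E + P < 1) (hE : 0 ≤ E) :
    (P : ℝ) ≤ ((qR P E : ℚ) : ℝ) * (1 - (E : ℝ) - (P : ℝ)) := by
  have h1 : (0 : ℚ) < 1 - E - P := by linarith
  have h2 : qR P E * (1 - E - P) = P := by
    unfold qR; field_simp
  have h3 : ((qR P E * (1 - E - P) : ℚ) : ℝ) = (P : ℝ) := by rw [h2]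
  push_cast at h3
  rw [h3]

section

variable {k n : ℕ} {V : Finset α} {x : α → ℝ}

theorem gin_of_okF {P E l g : ℚ} (hok : okF P E l g = true) (hV : V.card = n)
    (hx : 0 ≤ ∑ i ∈ V, x i) (h3 : 3 * (k + 1) ≤ n) (hk1 : 1 ≤ k)
    (hP : av (k + 1) V (nn x) < (k + 1 : ℝ) / n)
    (hLB : LB α (k + 1) (n - (k + 1)) (l : ℝ))
    (hPn : (k + 1 : ℝ) ≤ P * n) (hEn : 1 ≤ (E : ℝ) * n) :
    ∀ j ∈ V, gin k V x j ≤ (g : ℝ) := by
  unfold okF okF' at hok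
  simp only [Bool.and_eq_true, decide_eq_true_eq] at hok
  obtain ⟨⟨⟨⟨⟨⟨⟨⟨⟨⟨⟨c1, c2⟩, c3⟩, c4⟩, c5⟩, c6⟩, c7⟩, c8⟩, c9⟩, c10⟩, c11⟩, c12⟩ := hok
  set k1 := qk1 P E with hk1'
  set k2 := qk2 P with hk2'
  set s : ℚ := (1 - P) / P with hs'
  set q0 : ℚ := (1 - g) / s with hq0'
  have hs : s * P ≤ 1 - P := by
    rw [hs']; field_simp; exact le_rfl
  refine gin_box_final hV hx h3 hk1 hP (P : ℝ) (E : ℝ) ((qR P E : ℚ) : ℝ) ((qc P E : ℚ) : ℝ)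
    ((k1 : ℚ) : ℝ) ((k2 : ℚ) : ℝ) ((s : ℚ) : ℝ) (l : ℝ) (g : ℝ) ((q0 : ℚ) : ℝ) hLB hPn hEn
    ?_ ?_ (qR_le c3 c4) (cast_qc P E) ?_ ?_ ?_ ?_ ?_ ?_ ?_ ?_ ?_ ?_ ?_
  · exact_mod_cast c2
  · exact_mod_cast c3
  · rw [hk1']; unfold qk1; push_cast; exact le_rfl
  · rw [hk2']; unfold qk2; push_cast; exact le_rfl
  · exact_mod_cast c5
  · exact_mod_cast hs
  · exact_mod_cast c6
  · exact_mod_cast c8
  · exact_mod_cast c7
  · exact_mod_cast c9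
  · exact_mod_cast c10
  · exact_mod_cast c11
  · exact_mod_cast c12

theorem gin_of_okL {p P E t l g : ℚ} (hok : okL p P E t l g = true) (hV : V.card = n)
    (hx : 0 ≤ ∑ i ∈ V, x i) (h3 : 3 * (k + 1) ≤ n) (hk1 : 1 ≤ k)
    (hP : av (k + 1) V (nn x) < (t : ℝ))
    (hLB : LB α (k + 1) (n - (k + 1)) (l : ℝ)) (hpn : (p : ℝ) * n ≤ k + 1)
    (hPn : (k + 1 : ℝ) ≤ P * n) (hEn : 1 ≤ (E : ℝ) * n) :
    ∀ j ∈ V, gin k V x j ≤ (g : ℝ) := by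
  unfold okL okL' at hok
  simp only [Bool.and_eq_true, decide_eq_true_eq] at hok
  obtain ⟨⟨⟨⟨⟨⟨⟨⟨⟨⟨⟨⟨c1, c2⟩, c3⟩, c4⟩, c5⟩, c6⟩, c7⟩, c8⟩, c9⟩, c10⟩, c11⟩, c12⟩, c13⟩ := hok
  set k1 := qk1 P E with hk1'
  set k2 := qk2 P with hk2'
  set a : ℚ := 1 - t / p with ha'
  set b : ℚ := (1 - p) / p with hb'
  set q0 : ℚ := (if 1 - g - a ≤ 0 then 1 / 1000 else (1 - g - a) / b) with hq0'
  refine gin_box_level hV hx h3 hk1 hP (p : ℝ) (P : ℝ) (E : ℝ) ((qR P E : ℚ) : ℝ)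
    ((qc P E : ℚ) : ℝ) ((k1 : ℚ) : ℝ) ((k2 : ℚ) : ℝ) ((a : ℚ) : ℝ) ((b : ℚ) : ℝ) (l : ℝ) (g : ℝ)
    ((q0 : ℚ) : ℝ) hLB hpn ?_ ?_ hPn hEn
    ?_ ?_ (qR_le c4 c5) (cast_qc P E) ?_ ?_ ?_ ?_ ?_ ?_ ?_ ?_ ?_ ?_ ?_ ?_
  · exact_mod_cast c1
  · exact_mod_cast c2
  · exact_mod_cast c3
  · exact_mod_cast c4
  · rw [hk1']; unfold qk1; push_cast; exact le_rfl
  · rw [hk2']; unfold qk2; push_cast; exact le_rfl
  · rw [ha']; push_cast; rfl
  · rw [hb']; push_cast; rfl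
  · exact_mod_cast c6
  · exact_mod_cast c7
  · exact_mod_cast c9
  · exact_mod_cast c8
  · exact_mod_cast c10
  · exact_mod_cast c11
  · exact_mod_cast c12
  · exact_mod_cast c13

end

theorem lb_of_okB {p m β : ℚ} (hok : okB p m β = true) {k n : ℕ} (hk3 : k + 3 ≤ n)
    (hn : 2 * (k + 1) ≤ n) (hpn : (p : ℝ) * n ≤ k + 1) (hm : (m : ℝ) ≤ n) :
    LB α (k + 1) n (β : ℝ) := by
  unfold okB at hok
  simp only [Bool.and_eq_true, decide_eq_true_eq] at hok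
  obtain ⟨⟨⟨c1, c2⟩, c3⟩, c4⟩ := hok
  have c1' : (0 : ℝ) ≤ β := by exact_mod_cast c1
  have c3' : (2 : ℝ) < m := by exact_mod_cast c3
  have c4' : (β : ℝ) * (1 + 1 / ((m : ℝ) - 2)) ≤ p * (1 - p) := by exact_mod_cast c4
  have c2' : (p : ℝ) ≤ 1 / 2 := by
    have : ((p : ℚ) : ℝ) ≤ ((1 / 2 : ℚ) : ℝ) := by exact_mod_cast c2
    simpa using this
  refine lb_spec_simple hk3 hn hpn c2' ?_ c1'
  refine le_trans ?_ c4'
  refine mul_le_mul_of_nonneg_left ?_ c1'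
  have : 1 / ((n : ℝ) - 2) ≤ 1 / ((m : ℝ) - 2) :=
    one_div_le_one_div_of_le (by linarith) (by linarith)
  linarith

/-- `LB` for `n = K`. -/
theorem LB_self (K : ℕ) : LB α K K 1 := by
  intro V x hV hx
  unfold av
  rw [← hV, powersetCard_self, sum_singleton, Nat.choose_self]
  have : nn x V = 1 := by unfold nn; rw [if_pos hx]
  rw [this]; norm_num

/-- `LB` for `n = 2K`. -/
theorem LB_double (K : ℕ) : LB α K (2 * K) (1 / 2) := by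
  have h := LB.step (α := α) (k := K) (n := 2 * K) (ℓ := 1) le_rfl zero_le_one
    (by rw [show 2 * K - K = K by omega]; exact LB_self K)
  norm_num at h
  norm_num
  exact h

/-- `LB` for `n = 2K + 1`. -/
theorem LB_double_succ (k : ℕ) :
    LB α (k + 1) (2 * (k + 1) + 1) (((k : ℝ) + 2) / (2 * (2 * (k + 1) + 1))) := by
  have h := LB_remove (α := α) (k := k) (n := 2 * (k + 1) + 1) (ℓ := 1 / 2) (by omega)
    (by rw [show 2 * (k + 1) + 1 - 1 = 2 * (k + 1) by omega]; exact LB_double (k + 1))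
  refine h.mono (le_of_eq ?_)
  push_cast
  field_simp
  ring

/-- A certified box. -/
structure BoxD.Ok (B : BoxD) : Prop where
  size : sizeOk B.C = true
  good : B.Good
  chk : ∀ p ∈ B.Ts, check B.C p = true

/-- membership in a box -/
def inBox (B : BoxD) (K n : ℤ) : Bool :=
  decide (B.P0 * n ≤ B.E * K) && decide (B.E * K ≤ B.P1 * n) && decide (B.E0 * n ≤ B.F) &&
    decide (B.F ≤ B.E1 * n)

/-- the box is for the final level -/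
def isF (B : BoxD) : Bool := decide (B.T0 = 0) && decide (B.T1 = B.G)

/-- the box is for a constant threshold -/
def isL (B : BoxD) : Bool := decide (B.T1 = 0)

def tauQ (B : BoxD) : ℚ := B.T0 / B.G

def gamQ (B : BoxD) : ℚ := B.g0 / B.G

theorem inBox_real {B : BoxD} {k n : ℕ} (h : inBox B ((k : ℤ) + 1) n = true) :
    (B.P0 : ℝ) * n ≤ B.E * (k + 1) ∧ (B.E : ℝ) * (k + 1) ≤ B.P1 * n ∧
      (B.E0 : ℝ) * n ≤ B.F ∧ (B.F : ℝ) ≤ B.E1 * n := by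
  unfold inBox at h
  simp only [Bool.and_eq_true, decide_eq_true_eq] at h
  obtain ⟨⟨⟨h1, h2⟩, h3⟩, h4⟩ := h
  exact ⟨by exact_mod_cast h1, by exact_mod_cast h2, by exact_mod_cast h3, by exact_mod_cast h4⟩

/-- One step at the final level: real form of the membership. -/
theorem final_of_ok {B : BoxD} (hB : B.Ok) (hF : isF B = true) {P E l : ℚ}
    (hok : okF P E l (gamQ B) = true) {k n : ℕ} (hk1 : 1 ≤ k) (h3n : 3 * (k + 1) ≤ n)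
    (hbox : (B.P0 : ℝ) * n ≤ B.E * (k + 1) ∧ (B.E : ℝ) * (k + 1) ≤ B.P1 * n ∧
      (B.E0 : ℝ) * n ≤ B.F ∧ (B.F : ℝ) ≤ B.E1 * n)
    (hPn : (k + 1 : ℝ) ≤ P * n) (hEn : 1 ≤ (E : ℝ) * n)
    (hLB : LB α (k + 1) (n - (k + 1)) (l : ℝ)) :
    LB α (k + 1) n ((k + 1 : ℝ) / n) := by
  unfold isF at hF
  simp only [Bool.and_eq_true, decide_eq_true_eq] at hF
  have hG : (B.G : ℝ) ≠ 0 := by exact_mod_cast hB.good.2.2.1.ne'
  have hn : (0 : ℝ) < n := by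
    have : 0 < n := by omega
    exact_mod_cast this
  have h3R : 3 * ((k : ℝ) + 1) ≤ n := by exact_mod_cast h3n
  refine lb_of_boxD (γ := (gamQ B : ℝ)) hk1 (by omega) B hB.size hB.good hB.chk hbox.1 hbox.2.1
    hbox.2.2.1 hbox.2.2.2 ?_ ?_ ?_ ?_
  · rw [hF.1, hF.2]; field_simp; push_cast; ring
  · unfold gamQ; push_cast; rfl
  · rw [div_le_one hn]; linarith [(Nat.cast_nonneg k : (0 : ℝ) ≤ k)]
  · intro V x hV hx _ hlt
    exact gin_of_okF hok hV hx.ge h3n hk1 hlt hLB hPn hEn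

/-- One step at a lower level: real form of the membership. -/
theorem level_of_ok {B : BoxD} (hB : B.Ok) (hL : isL B = true) {p P E l : ℚ}
    (hok : okL p P E (tauQ B) l (gamQ B) = true) (ht : tauQ B ≤ 1) {k n : ℕ} (hk1 : 1 ≤ k)
    (h3n : 3 * (k + 1) ≤ n)
    (hbox : (B.P0 : ℝ) * n ≤ B.E * (k + 1) ∧ (B.E : ℝ) * (k + 1) ≤ B.P1 * n ∧
      (B.E0 : ℝ) * n ≤ B.F ∧ (B.F : ℝ) ≤ B.E1 * n)
    (hpn : (p : ℝ) * n ≤ k + 1) (hPn : (k + 1 : ℝ) ≤ P * n) (hEn : 1 ≤ (E : ℝ) * n)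
    (hLB : LB α (k + 1) (n - (k + 1)) (l : ℝ)) :
    LB α (k + 1) n ((tauQ B : ℚ) : ℝ) := by
  unfold isL at hL
  simp only [decide_eq_true_eq] at hL
  refine lb_of_boxD (γ := (gamQ B : ℝ)) hk1 (by omega) B hB.size hB.good hB.chk hbox.1 hbox.2.1
    hbox.2.2.1 hbox.2.2.2 ?_ ?_ (by exact_mod_cast ht) ?_
  · rw [hL]; unfold tauQ; push_cast; ring
  · unfold gamQ; push_cast; rfl
  · intro V x hV hx _ hlt
    exact gin_of_okL hok hV hx.ge h3n hk1 hlt hLB hpn hPn hEn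

/-! ### exact constants for single pairs -/

def xr (K N : ℚ) : ℚ := K / (N - K)

def xrho (K N : ℚ) : ℚ := K * (K - 1) / ((N - K) * (N - K - 1))

def xlam (K N : ℚ) : ℚ := (K - 1) * (N - K) / (K * (N - K + 1))

def xk1 (K N : ℚ) : ℚ := 1 + (xr K N - xrho K N) / 2

def xk2 (K N : ℚ) : ℚ := ((xr K N + xrho K N) / 2) ^ 2 * xlam K N

/-- the inequalities of stage A -/
def okX (a b k1 k2 l g q0 : ℚ) : Bool :=
  decide (0 ≤ a) && decide (0 < b) && decide (0 < k1) && decide (0 < q0) &&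
  decide (k1 * (1 - g - a) ≤ l * b) && decide (1 - g - a ≤ b * q0) &&
  decide (0 ≤ 3 * (a * l ^ 2) + (b * l ^ 2 - 2 * a * l * k1 - k2 * (1 - a)) * q0) &&
  decide (0 ≤ 3 * (a * l ^ 2) + 2 * (b * l ^ 2 - 2 * a * l * k1 - k2 * (1 - a)) * q0 +
      (a * k1 ^ 2 - 2 * b * l * k1 + k2 * (1 - a + b)) * q0 ^ 2) &&
  decide (0 ≤ a * l ^ 2 + (b * l ^ 2 - 2 * a * l * k1 - k2 * (1 - a)) * q0 +
      (a * k1 ^ 2 - 2 * b * l * k1 + k2 * (1 - a + b)) * q0 ^ 2 +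
      (b * k1 ^ 2 - k2 * b) * q0 ^ 3)

/-- stage A for the pair `(n, K)`, final level -/
def okFx (K n : ℚ) (l g : ℚ) : Bool :=
  okX 0 ((n - K) / K) (xk1 K (n - 1)) (xk2 K (n - 1)) l g ((1 - g) / ((n - K) / K))

/-- stage A for the pair `(n, K)`, lower level -/
def okLx (K n : ℚ) (t l g : ℚ) : Bool :=
  decide (t * n ≤ K) &&
  okX (1 - t / (K / n)) ((1 - K / n) / (K / n)) (xk1 K (n - 1)) (xk2 K (n - 1)) l g
    (if 1 - g - (1 - t / (K / n)) ≤ 0 then 1 / 1000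
      else (1 - g - (1 - t / (K / n))) / ((1 - K / n) / (K / n)))

theorem cast_xk1 (K N : ℚ) :
    ((xk1 K N : ℚ) : ℝ) = 1 + (cr (K : ℝ) (N : ℝ) - crho (K : ℝ) (N : ℝ)) / 2 := by
  unfold xk1 xr xrho cr crho
  push_cast
  rfl

theorem cast_xk2 (K N : ℚ) : ((xk2 K N : ℚ) : ℝ) =
    ((cr (K : ℝ) (N : ℝ) + crho (K : ℝ) (N : ℝ)) / 2) ^ 2 * clam (K : ℝ) (N : ℝ) := by
  unfold xk2 xr xrho xlam cr crho clam
  push_cast
  rfl

section

variable {k n : ℕ} {V : Finset α} {x : α → ℝ}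

theorem gin_of_okX {a b k1 k2 l g q0 : ℚ} (hok : okX a b k1 k2 l g q0 = true) {τ : ℝ}
    (hV : V.card = n) (hx : 0 ≤ ∑ i ∈ V, x i) (hn : 2 * (k + 1) + 1 ≤ n) (hk4 : k + 4 ≤ n)
    (hLB : LB α (k + 1) (n - (k + 1)) (l : ℝ)) (hP : av (k + 1) V (nn x) < τ)
    (h1 : 1 + (cr (k + 1) (n - 1) - crho (k + 1) (n - 1)) / 2 ≤ (k1 : ℝ))
    (h2 : ((cr (k + 1) (n - 1) + crho (k + 1) (n - 1)) / 2) ^ 2 * clam (k + 1) (n - 1) ≤ (k2 : ℝ))
    (hab : ∀ w q : ℝ, 0 ≤ q → q ≤ 1 - w → w ≤ 1 →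
      ((n : ℝ) - (k + 1)) / n * q + (k + 1) / n * (1 - w) < τ → (a : ℝ) + b * q < w) :
    ∀ j ∈ V, gin k V x j ≤ (g : ℝ) := by
  unfold okX at hok
  simp only [Bool.and_eq_true, decide_eq_true_eq] at hok
  obtain ⟨⟨⟨⟨⟨⟨⟨⟨c1, c2⟩, c3⟩, c4⟩, c5⟩, c6⟩, c7⟩, c8⟩, c9⟩ := hok
  have c1' : (0 : ℝ) ≤ a := by exact_mod_cast c1
  have c2' : (0 : ℝ) < b := by exact_mod_cast c2
  refine gin_le hV hx hn hk4 hLB hP h1 h2 hab c1' c2' (by exact_mod_cast c3)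
    (by exact_mod_cast c5) ?_
  refine hpoly_of (γ := (g : ℝ)) (c := (q0 : ℝ)) c2' (by exact_mod_cast c4)
    (by exact_mod_cast c6) (mul_nonneg c1' (sq_nonneg _)) ?_ ?_ ?_
  · exact_mod_cast c7
  · exact_mod_cast c8
  · exact_mod_cast c9

theorem gin_of_okFx {l g : ℚ} (hok : okFx ((k + 1 : ℕ) : ℚ) (n : ℚ) l g = true)
    (hV : V.card = n) (hx : 0 ≤ ∑ i ∈ V, x i) (hn : 2 * (k + 1) + 1 ≤ n) (hk4 : k + 4 ≤ n)
    (hLB : LB α (k + 1) (n - (k + 1)) (l : ℝ))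
    (hP : av (k + 1) V (nn x) < (k + 1 : ℝ) / n) :
    ∀ j ∈ V, gin k V x j ≤ (g : ℝ) := by
  have hk0 : (0 : ℝ) < (k : ℝ) + 1 := by positivity
  refine gin_of_okX hok hV hx hn hk4 hLB hP ?_ ?_ ?_
  · rw [cast_xk1]; push_cast; exact le_rfl
  · rw [cast_xk2]; push_cast; exact le_rfl
  · have := hab_final (k := k) (n := n) (by omega) (s := ((n : ℝ) - (k + 1)) / (k + 1))
      (by rw [div_mul_cancel₀ _ hk0.ne'])
    push_cast
    exact this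

theorem gin_of_okLx {t l g : ℚ} (hok : okLx ((k + 1 : ℕ) : ℚ) (n : ℚ) t l g = true)
    (hV : V.card = n) (hx : 0 ≤ ∑ i ∈ V, x i) (hn : 2 * (k + 1) + 1 ≤ n) (hk4 : k + 4 ≤ n)
    (hLB : LB α (k + 1) (n - (k + 1)) (l : ℝ)) (hP : av (k + 1) V (nn x) < (t : ℝ)) :
    ∀ j ∈ V, gin k V x j ≤ (g : ℝ) := by
  unfold okLx at hok
  rw [Bool.and_eq_true] at hok
  have hn0 : (0 : ℝ) < n := by
    have : 0 < n := by omega
    exact_mod_cast this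
  have hk0 : (0 : ℝ) < (k : ℝ) + 1 := by positivity
  refine gin_of_okX hok.2 hV hx hn hk4 hLB hP ?_ ?_ ?_
  · rw [cast_xk1]; push_cast; exact le_rfl
  · rw [cast_xk2]; push_cast; exact le_rfl
  · have := hab_level (k := k) (n := n) (by omega) (p := ((k : ℝ) + 1) / n) (τ := (t : ℝ))
      (by positivity) (by rw [div_mul_cancel₀ _ hn0.ne'])
    push_cast
    exact this

end

/-- One step at the final level, single pair. -/
theorem final_of_okx {B : BoxD} (hB : B.Ok) (hF : isF B = true) {l : ℚ} {k n : ℕ}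
    (hok : okFx ((k + 1 : ℕ) : ℚ) (n : ℚ) l (gamQ B) = true) (hk1 : 1 ≤ k)
    (h3n : 3 * (k + 1) ≤ n)
    (hbox : (B.P0 : ℝ) * n ≤ B.E * (k + 1) ∧ (B.E : ℝ) * (k + 1) ≤ B.P1 * n ∧
      (B.E0 : ℝ) * n ≤ B.F ∧ (B.F : ℝ) ≤ B.E1 * n)
    (hLB : LB α (k + 1) (n - (k + 1)) (l : ℝ)) :
    LB α (k + 1) n ((k + 1 : ℝ) / n) := by
  unfold isF at hF
  simp only [Bool.and_eq_true, decide_eq_true_eq] at hF
  have hG : (B.G : ℝ) ≠ 0 := by exact_mod_cast hB.good.2.2.1.ne'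
  have hn : (0 : ℝ) < n := by
    have : 0 < n := by omega
    exact_mod_cast this
  have h3R : 3 * ((k : ℝ) + 1) ≤ n := by exact_mod_cast h3n
  refine lb_of_boxD (γ := (gamQ B : ℝ)) hk1 (by omega) B hB.size hB.good hB.chk hbox.1 hbox.2.1
    hbox.2.2.1 hbox.2.2.2 ?_ ?_ ?_ ?_
  · rw [hF.1, hF.2]; field_simp; push_cast; ring
  · unfold gamQ; push_cast; rfl
  · rw [div_le_one hn]; linarith [(Nat.cast_nonneg k : (0 : ℝ) ≤ k)]
  · intro V x hV hx _ hlt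
    exact gin_of_okFx hok hV hx.ge (by omega) (by omega) hLB hlt

/-- One step at a lower level, single pair. -/
theorem level_of_okx {B : BoxD} (hB : B.Ok) (hL : isL B = true) {l : ℚ} {k n : ℕ}
    (hok : okLx ((k + 1 : ℕ) : ℚ) (n : ℚ) (tauQ B) l (gamQ B) = true) (ht : tauQ B ≤ 1)
    (hk1 : 1 ≤ k) (h3n : 3 * (k + 1) ≤ n)
    (hbox : (B.P0 : ℝ) * n ≤ B.E * (k + 1) ∧ (B.E : ℝ) * (k + 1) ≤ B.P1 * n ∧
      (B.E0 : ℝ) * n ≤ B.F ∧ (B.F : ℝ) ≤ B.E1 * n)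
    (hLB : LB α (k + 1) (n - (k + 1)) (l : ℝ)) :
    LB α (k + 1) n ((tauQ B : ℚ) : ℝ) := by
  unfold isL at hL
  simp only [decide_eq_true_eq] at hL
  refine lb_of_boxD (γ := (gamQ B : ℝ)) hk1 (by omega) B hB.size hB.good hB.chk hbox.1 hbox.2.1
    hbox.2.2.1 hbox.2.2.2 ?_ ?_ (by exact_mod_cast ht) ?_
  · rw [hL]; unfold tauQ; push_cast; ring
  · unfold gamQ; push_cast; rfl
  · intro V x hV hx _ hlt
    exact gin_of_okLx hok hV hx.ge (by omega) (by omega) hLB hlt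

end Pool.Agent.MMS36
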