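import Pool.Agent.MMS36.BridgeC4

/-!
Tails of the integrand of the format C4: for `|y| ≥ U + A` the integrand is at least its value at
`|y| = U + A`, by scalar conditions.  Also the passage from integer parameters to the true ones.
-/

set_option autoImplicit false
set_option linter.unusedSectionVars false

namespace Pool.Agent.MMS36

open Finset Pool.Agent.H59.MMS Pool.Agent.MMS39

namespace C4

variable (D : C4)

/-- Constant tail on the right. -/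
structure TailPos (U : ℤ) : Prop where
  ps : ∀ m, U ≤ m → D.ps m = D.ps U
  pc : ∀ m, U ≤ m → D.pc m = 0
  hl : ∀ m, U ≤ m → D.hl m = D.hl U
  hr : ∀ m, U ≤ m → D.hr m = D.hl U
  s3 : ∀ m, U ≤ m → D.s3 m = 0
  G : ∀ i m, U ≤ m → D.G i m = 0
  Ga : ∀ i m, U ≤ m → D.Ga i m = 0
  Gs : ∀ i m, U ≤ m → D.Gs i m = 0
  H : ∀ i m, U ≤ m → D.H i m = 0
  Ha : ∀ i m, U ≤ m → D.Ha i m = 0
  Hs : ∀ i m, U ≤ m → D.Hs i m = 0

/-- Constant tail on the left. -/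
structure TailNeg (U : ℤ) : Prop where
  ps : ∀ m, m ≤ -U → D.ps m = D.ps (-U)
  pc : ∀ m, m < -U → D.pc m = 0
  hl : ∀ m, m < -U → D.hl m = D.hl (-U - 1)
  hr : ∀ m, m < -U → D.hr m = D.hl (-U - 1)
  s3 : ∀ m, m < -U → D.s3 m = 0
  G : ∀ i m, m < -U → D.G i m = 0
  Ga : ∀ i m, m < -U → D.Ga i m = 0
  Gs : ∀ i m, m < -U → D.Gs i m = 0
  H : ∀ i m, m < -U → D.H i m = 0
  Ha : ∀ i m, m < -U → D.Ha i m = 0
  Hs : ∀ i m, m < -U → D.Hs i m = 0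

/-- lower bound of `m1` on the cell `i` -/
def lo (i : ℤ) : ℤ := if Adj i then min 0 (D.mu1 i) else D.mu1 i

/-- upper bound of `m1` on the cell `i` -/
def hi (i : ℤ) : ℤ := if Adj i then max 0 (D.mu1 i) else D.mu1 i

/-- value of `m2` on the cell `i` -/
def mu2' (i : ℤ) : ℤ := if Adj i then 0 else D.mu2 i

theorem m2_eq (a : ℝ) : D.m2 a = D.mu2' ⌊a⌋ := by
  unfold m2 mu2'
  split_ifs <;> simp

theorem sq_le_one_of_adj {a : ℝ} (h : Adj ⌊a⌋) : a ^ 2 ≤ 1 := by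
  have h1 := Int.floor_le a
  have h2 := Int.lt_floor_add_one a
  rcases h with h | h <;> rw [h] at h1 h2 <;> push_cast at h1 h2 <;> nlinarith

theorem lo_le (a : ℝ) : (D.lo ⌊a⌋ : ℝ) ≤ D.m1 a := by
  unfold lo m1
  split_ifs with h
  · have h1 := sq_le_one_of_adj h
    have h2 := sq_nonneg a
    push_cast
    rcases le_total 0 (D.mu1 ⌊a⌋ : ℝ) with h0 | h0
    · rw [min_eq_left h0]; positivity
    · rw [min_eq_right h0]; nlinarith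
  · simp

theorem le_hi (a : ℝ) : D.m1 a ≤ (D.hi ⌊a⌋ : ℝ) := by
  unfold hi m1
  split_ifs with h
  · have h1 := sq_le_one_of_adj h
    have h2 := sq_nonneg a
    push_cast
    rcases le_total 0 (D.mu1 ⌊a⌋ : ℝ) with h0 | h0
    · rw [max_eq_right h0]; nlinarith
    · rw [max_eq_left h0]; nlinarith
  · simp

section pos

variable {D} {U : ℤ} (hD : D.TailPos U)

include hD

theorem TailPos.psi {u : ℝ} (hu : (U : ℝ) ≤ u) : D.psi u = D.ps U := by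
  have h : U ≤ ⌊u⌋ := Int.le_floor.2 hu
  unfold C4.psi
  rw [hD.ps _ h, hD.ps (⌊u⌋ + 1) (by omega), hD.pc _ h]
  push_cast
  ring

theorem TailPos.hh {u : ℝ} (hu : (U : ℝ) ≤ u) : D.hh u = D.hl U := by
  have h : U ≤ ⌊u⌋ := Int.le_floor.2 hu
  unfold C4.hh
  rw [hD.hl _ h, hD.hr _ h]
  ring

theorem TailPos.psi3 {u : ℝ} (hu : (U : ℝ) ≤ u) : D.psi3 u = 0 := by
  have h : U ≤ ⌊u⌋ := Int.le_floor.2 hu
  unfold C4.psi3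
  rw [hD.s3 _ h]; simp

theorem TailPos.g {a u : ℝ} (hu : (U : ℝ) ≤ u) : D.g a u = 0 := by
  have h : U ≤ ⌊u⌋ := Int.le_floor.2 hu
  unfold C4.g
  rw [hD.G _ _ h, hD.Ga _ _ h, hD.Gs _ _ h]; simp

theorem TailPos.h {a u : ℝ} (hu : (U : ℝ) ≤ u) : D.h a u = 0 := by
  have h : U ≤ ⌊u⌋ := Int.le_floor.2 hu
  unfold C4.h
  rw [hD.H _ _ h, hD.Ha _ _ h, hD.Hs _ _ h]; simp

/-- The tail on the right. -/
theorem TailPos.Ks_le {A : ℕ} {Q : ℝ} {T : Par ℤ} (hU : 0 ≤ U) (ht1 : 0 ≤ T.t1)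
    {a b y : ℝ} (ha : |a| < A) (hb : |b| < A)
    (c1 : 0 ≤ T.t3 * (D.mu2' ⌊a⌋ + D.mu2' ⌊b⌋))
    (c2 : 0 ≤ T.t3 * (D.mu2' ⌊a⌋ + D.mu2' ⌊b⌋) * (2 * (U + A)) + 2 * (T.te * D.ps U) +
        T.t1 * (D.lo ⌊a⌋ + D.lo ⌊b⌋))
    (hy : (U : ℝ) + A ≤ y) :
    D.Ks Q (T.map fun t : ℤ => (t : ℝ)) a b (U + A) ≤
      D.Ks Q (T.map fun t : ℤ => (t : ℝ)) a b y := by
  have hU' : (0 : ℝ) ≤ U := by exact_mod_cast hU
  have hA0 : (0 : ℝ) ≤ A := Nat.cast_nonneg A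
  have ha' := abs_lt.1 ha
  have hb' := abs_lt.1 hb
  have u1 : (U : ℝ) ≤ y + a := by linarith
  have u2 : (U : ℝ) ≤ y + b := by linarith
  have u3 : (U : ℝ) ≤ (U : ℝ) + A + a := by linarith
  have u4 : (U : ℝ) ≤ (U : ℝ) + A + b := by linarith
  have g1 : ge0 (y + a) = 1 := by unfold ge0; rw [if_pos (by linarith)]
  have g2 : ge0 (y + b) = 1 := by unfold ge0; rw [if_pos (by linarith)]
  have g3 : ge0 ((U : ℝ) + A + a) = 1 := by unfold ge0; rw [if_pos (by linarith)]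
  have g4 : ge0 ((U : ℝ) + A + b) = 1 := by unfold ge0; rw [if_pos (by linarith)]
  have c1' : (0 : ℝ) ≤ T.t3 * (D.m2 a + D.m2 b) := by
    rw [m2_eq, m2_eq]; exact_mod_cast c1
  have c2' : (0 : ℝ) ≤ T.t3 * (D.mu2' ⌊a⌋ + D.mu2' ⌊b⌋) * (2 * (U + A)) +
      2 * (T.te * D.ps U) + T.t1 * (D.lo ⌊a⌋ + D.lo ⌊b⌋) := by exact_mod_cast c2
  rw [← m2_eq, ← m2_eq] at c2'
  have ht1' : (0 : ℝ) ≤ T.t1 := by exact_mod_cast ht1
  have l1 : (T.t1 : ℝ) * (D.lo ⌊a⌋ + D.lo ⌊b⌋) ≤ T.t1 * (D.m1 a + D.m1 b) :=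
    mul_le_mul_of_nonneg_left (add_le_add (D.lo_le a) (D.lo_le b)) ht1'
  have key : D.Ks Q (T.map fun t : ℤ => (t : ℝ)) a b y -
      D.Ks Q (T.map fun t : ℤ => (t : ℝ)) a b (U + A) =
      (y - (U + A)) * (T.t3 * (D.m2 a + D.m2 b) * (y + (U + A)) + 2 * (T.te * D.ps U) +
        T.t1 * (D.m1 a + D.m1 b)) := by
    unfold Ks
    simp only [Par.map, hD.psi u1, hD.psi u2, hD.psi u3, hD.psi u4, hD.hh u1, hD.hh u2, hD.hh u3,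
      hD.hh u4, hD.psi3 u1, hD.psi3 u2, hD.psi3 u3, hD.psi3 u4, hD.g u1, hD.g u2, hD.g u3,
      hD.g u4, hD.h u1, hD.h u2, hD.h u3, hD.h u4, g1, g2, g3, g4]
    ring
  have k2 : 0 ≤ T.t3 * (D.m2 a + D.m2 b) * (y + (U + A)) + 2 * (T.te * D.ps U) +
        T.t1 * (D.m1 a + D.m1 b) := by
    have h1 : (T.t3 : ℝ) * (D.m2 a + D.m2 b) * (2 * (U + A)) ≤
        T.t3 * (D.m2 a + D.m2 b) * (y + (U + A)) := mul_le_mul_of_nonneg_left (by linarith) c1'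
    linarith
  have k3 := mul_nonneg (sub_nonneg.2 hy) k2
  linarith

end pos

section neg

variable {D} {U : ℤ} (hD : D.TailNeg U)

include hD

theorem TailNeg.psi {u : ℝ} (hu : u < -U) : D.psi u = D.ps (-U) := by
  have h : ⌊u⌋ < -U := by rw [Int.floor_lt]; push_cast; exact hu
  unfold C4.psi
  rw [hD.ps _ h.le, hD.ps (⌊u⌋ + 1) (by omega), hD.pc _ h]
  push_cast
  ring

theorem TailNeg.hh {u : ℝ} (hu : u < -U) : D.hh u = D.hl (-U - 1) := by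
  have h : ⌊u⌋ < -U := by rw [Int.floor_lt]; push_cast; exact hu
  unfold C4.hh
  rw [hD.hl _ h, hD.hr _ h]
  ring

theorem TailNeg.psi3 {u : ℝ} (hu : u < -U) : D.psi3 u = 0 := by
  have h : ⌊u⌋ < -U := by rw [Int.floor_lt]; push_cast; exact hu
  unfold C4.psi3
  rw [hD.s3 _ h]; simp

theorem TailNeg.g {a u : ℝ} (hu : u < -U) : D.g a u = 0 := by
  have h : ⌊u⌋ < -U := by rw [Int.floor_lt]; push_cast; exact hu
  unfold C4.g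
  rw [hD.G _ _ h, hD.Ga _ _ h, hD.Gs _ _ h]; simp

theorem TailNeg.h {a u : ℝ} (hu : u < -U) : D.h a u = 0 := by
  have h : ⌊u⌋ < -U := by rw [Int.floor_lt]; push_cast; exact hu
  unfold C4.h
  rw [hD.H _ _ h, hD.Ha _ _ h, hD.Hs _ _ h]; simp

/-- The tail on the left. -/
theorem TailNeg.Ks_le {A : ℕ} {Q : ℝ} {T : Par ℤ} (hU : 0 ≤ U) (ht1 : 0 ≤ T.t1)
    {a b y : ℝ} (ha : |a| < A) (hb : |b| < A)
    (c1 : 0 ≤ T.t3 * (D.mu2' ⌊a⌋ + D.mu2' ⌊b⌋))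
    (c2 : 0 ≤ T.t3 * (D.mu2' ⌊a⌋ + D.mu2' ⌊b⌋) * (2 * (U + A)) - 2 * (T.te * D.ps (-U)) -
        T.t1 * (D.hi ⌊a⌋ + D.hi ⌊b⌋))
    (hy : y ≤ -((U : ℝ) + A)) :
    D.Ks Q (T.map fun t : ℤ => (t : ℝ)) a b (-((U : ℝ) + A)) ≤
      D.Ks Q (T.map fun t : ℤ => (t : ℝ)) a b y := by
  have hU' : (0 : ℝ) ≤ U := by exact_mod_cast hU
  have hA0 : (0 : ℝ) ≤ A := Nat.cast_nonneg A
  have ha' := abs_lt.1 ha
  have hb' := abs_lt.1 hb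
  have u1 : y + a < -(U : ℝ) := by linarith
  have u2 : y + b < -(U : ℝ) := by linarith
  have u3 : -((U : ℝ) + A) + a < -(U : ℝ) := by linarith
  have u4 : -((U : ℝ) + A) + b < -(U : ℝ) := by linarith
  have g1 : ge0 (y + a) = 0 := by unfold ge0; rw [if_neg (by linarith)]
  have g2 : ge0 (y + b) = 0 := by unfold ge0; rw [if_neg (by linarith)]
  have g3 : ge0 (-((U : ℝ) + A) + a) = 0 := by unfold ge0; rw [if_neg (by linarith)]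
  have g4 : ge0 (-((U : ℝ) + A) + b) = 0 := by unfold ge0; rw [if_neg (by linarith)]
  have c1' : (0 : ℝ) ≤ T.t3 * (D.m2 a + D.m2 b) := by
    rw [m2_eq, m2_eq]; exact_mod_cast c1
  have c2' : (0 : ℝ) ≤ (T.t3 : ℝ) * (D.mu2' ⌊a⌋ + D.mu2' ⌊b⌋) * (2 * (U + A)) -
      2 * (T.te * D.ps (-U)) - T.t1 * (D.hi ⌊a⌋ + D.hi ⌊b⌋) := by exact_mod_cast c2
  rw [← m2_eq, ← m2_eq] at c2'
  have ht1' : (0 : ℝ) ≤ T.t1 := by exact_mod_cast ht1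
  have l1 : (T.t1 : ℝ) * (D.m1 a + D.m1 b) ≤ T.t1 * (D.hi ⌊a⌋ + D.hi ⌊b⌋) :=
    mul_le_mul_of_nonneg_left (add_le_add (D.le_hi a) (D.le_hi b)) ht1'
  have key : D.Ks Q (T.map fun t : ℤ => (t : ℝ)) a b y -
      D.Ks Q (T.map fun t : ℤ => (t : ℝ)) a b (-((U : ℝ) + A)) =
      (-((U : ℝ) + A) - y) * (T.t3 * (D.m2 a + D.m2 b) * ((U + A) - y) -
        2 * (T.te * D.ps (-U)) - T.t1 * (D.m1 a + D.m1 b)) := by
    unfold Ks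
    simp only [Par.map, hD.psi u1, hD.psi u2, hD.psi u3, hD.psi u4, hD.hh u1, hD.hh u2, hD.hh u3,
      hD.hh u4, hD.psi3 u1, hD.psi3 u2, hD.psi3 u3, hD.psi3 u4, hD.g u1, hD.g u2, hD.g u3,
      hD.g u4, hD.h u1, hD.h u2, hD.h u3, hD.h u4, g1, g2, g3, g4]
    ring
  have k2 : 0 ≤ T.t3 * (D.m2 a + D.m2 b) * ((U + A) - y) - 2 * (T.te * D.ps (-U)) -
        T.t1 * (D.m1 a + D.m1 b) := by
    have h1 : (T.t3 : ℝ) * (D.m2 a + D.m2 b) * (2 * (U + A)) ≤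
        T.t3 * (D.m2 a + D.m2 b) * ((U + A) - y) := mul_le_mul_of_nonneg_left (by linarith) c1'
    linarith
  have k3 := mul_nonneg (sub_nonneg.2 hy) k2
  linarith

end neg

/-- Nonnegativity for `|y| ≤ U + A` is enough. -/
theorem Ks_nonneg_of_mid {A : ℕ} {Q : ℝ} {U : ℤ} {T : Par ℤ} (hP : D.TailPos U)
    (hN : D.TailNeg U) (hU : 0 ≤ U) (ht1 : 0 ≤ T.t1) {a b : ℝ} (ha : |a| < A) (hb : |b| < A)
    (c1 : 0 ≤ T.t3 * (D.mu2' ⌊a⌋ + D.mu2' ⌊b⌋))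
    (c2 : 0 ≤ T.t3 * (D.mu2' ⌊a⌋ + D.mu2' ⌊b⌋) * (2 * (U + A)) + 2 * (T.te * D.ps U) +
        T.t1 * (D.lo ⌊a⌋ + D.lo ⌊b⌋))
    (c3 : 0 ≤ T.t3 * (D.mu2' ⌊a⌋ + D.mu2' ⌊b⌋) * (2 * (U + A)) - 2 * (T.te * D.ps (-U)) -
        T.t1 * (D.hi ⌊a⌋ + D.hi ⌊b⌋))
    (hmid : ∀ y : ℝ, |y| ≤ (U : ℝ) + A → 0 ≤ D.Ks Q (T.map fun t : ℤ => (t : ℝ)) a b y)
    (y : ℝ) : 0 ≤ D.Ks Q (T.map fun t : ℤ => (t : ℝ)) a b y := by
  have hU' : (0 : ℝ) ≤ U := by exact_mod_cast hU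
  have hA0 : (0 : ℝ) ≤ A := Nat.cast_nonneg A
  rcases le_total ((U : ℝ) + A) y with h | h
  · refine (hmid (U + A) ?_).trans (hP.Ks_le hU ht1 ha hb c1 c2 h)
    rw [abs_of_nonneg (by linarith)]
  · rcases le_total y (-((U : ℝ) + A)) with h' | h'
    · refine (hmid (-((U : ℝ) + A)) ?_).trans (hN.Ks_le hU ht1 ha hb c1 c3 h')
      rw [abs_neg, abs_of_nonneg (by linarith)]
    · exact hmid y (abs_le.2 ⟨h', h⟩)

/-- The true parameters in helper39's parametrisation. -/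
theorem par_eq_tr (N K : ℝ) (A B C : Aff ℝ) :
    par N K (A.c0 + A.c1 * (K / N) + A.c2 * (1 / N)) (B.c0 + B.c1 * (K / N) + B.c2 * (1 / N))
      (C.c0 + C.c1 * (K / N) + C.c2 * (1 / N)) = Par.tr (K / N) (1 / N) A B C := by
  simp [par, Par.tr]

end C4

open C4

variable {α : Type*} [DecidableEq α]

/-- Single pair: integer parameters `T = c * par`. -/
theorem lb_of_c4_pair {k n A : ℕ} (hk1 : 1 ≤ k) (hk : k + 3 ≤ n) (hA : 0 < A) (D : C4)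
    {τ γp γn : ℝ} (hτ : τ ≤ 1)
    (hM : ∀ i : ℤ, -(A : ℤ) ≤ i → i < A → 1 ≤ D.M0 i ∧ 1 ≤ D.M1 i)
    (hL : ∀ i : ℤ, -(A : ℤ) ≤ i → i < A → 0 ≤ D.L0 i ∧ 0 ≤ D.L1 i)
    (hS : ∀ (V : Finset α) (x : α → ℝ), V.card = n → ∑ i ∈ V, x i = 0 →
      ∑ i ∈ V, x i ^ 2 = 1 → av (k + 1) V (nn x) < τ →
        ∀ i ∈ V, D.lam (A * x i) ≠ 0 → gin k V x i ≤ if 0 ≤ x i then γp else γn)
    (T : Par ℤ) {c : ℝ} (hc : 0 < c)
    (hT : (T.map fun t : ℤ => (t : ℝ)) = (par n (k + 1) τ γp γn).map fun t => c * t)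
    (hK : ∀ a b y : ℝ, |a| < A → |b| < A → b ≤ a → a ^ 2 + b ^ 2 ≤ A ^ 2 →
      0 ≤ D.Ks (A ^ 2) (T.map fun t : ℤ => (t : ℝ)) a b y) :
    LB α (k + 1) n τ := by
  refine lb_of_c4 hk1 hk hA D hτ hM hL hS fun a b y ha hb hba hab => ?_
  have h := hK a b y ha hb hba hab
  rw [hT, Ks_scale] at h
  exact nonneg_of_mul_nonneg_right h hc

/-- Box: the nine integer corner vectors. -/
theorem lb_of_c4_box {k n A : ℕ} (hk1 : 1 ≤ k) (hk : k + 3 ≤ n) (hA : 0 < A) (D : C4)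
    {E F G g : ℤ} (hE : 0 < E) (hF : 0 < F) (hG : 0 < G) (hg : 0 < g) (TA TB TC : Aff ℤ)
    {P0 P1 E0 E1 : ℤ}
    (hp0 : (P0 : ℝ) / E ≤ (k + 1 : ℝ) / n) (hp1 : (k + 1 : ℝ) / n ≤ (P1 : ℝ) / E)
    (he0 : (E0 : ℝ) / F ≤ 1 / (n : ℝ)) (he1 : 1 / (n : ℝ) ≤ (E1 : ℝ) / F)
    (Ts : List (Par ℤ)) (hTs : Ts.map (fun T => T.map (fun m => g * m)) =
      Par.cornersZ E F G TA TB TC P0 P1 E0 E1)
    {τ γp γn : ℝ}
    (hτe : τ = TA.c0 / G + TA.c1 / G * ((k + 1 : ℝ) / n) + TA.c2 / G * (1 / (n : ℝ)))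
    (hγp : γp = TB.c0 / G + TB.c1 / G * ((k + 1 : ℝ) / n) + TB.c2 / G * (1 / (n : ℝ)))
    (hγn : γn = TC.c0 / G + TC.c1 / G * ((k + 1 : ℝ) / n) + TC.c2 / G * (1 / (n : ℝ)))
    (hτ : τ ≤ 1)
    (hM : ∀ i : ℤ, -(A : ℤ) ≤ i → i < A → 1 ≤ D.M0 i ∧ 1 ≤ D.M1 i)
    (hL : ∀ i : ℤ, -(A : ℤ) ≤ i → i < A → 0 ≤ D.L0 i ∧ 0 ≤ D.L1 i)
    (hS : ∀ (V : Finset α) (x : α → ℝ), V.card = n → ∑ i ∈ V, x i = 0 →
      ∑ i ∈ V, x i ^ 2 = 1 → av (k + 1) V (nn x) < τ →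
        ∀ i ∈ V, D.lam (A * x i) ≠ 0 → gin k V x i ≤ if 0 ≤ x i then γp else γn)
    (hK : ∀ T ∈ Ts, ∀ a b y : ℝ, |a| < A → |b| < A → b ≤ a → a ^ 2 + b ^ 2 ≤ A ^ 2 →
      0 ≤ D.Ks (A ^ 2) (T.map fun t : ℤ => (t : ℝ)) a b y) :
    LB α (k + 1) n τ := by
  refine lb_of_c4 hk1 hk hA D hτ hM hL hS fun a b y ha hb hba hab => ?_
  have h := Par.dot_nonneg_of_cornersZ (D.coef (A ^ 2) a b y) hE hF hG hg TA TB TC hp0 hp1 he0 he1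
    Ts hTs (fun T hT => by rw [← Ks_eq_dot]; exact hK T hT a b y ha hb hba hab)
  rw [← par_eq_tr] at h
  simp only [Par.affR] at h
  rw [← hτe, ← hγp, ← hγn] at h
  rw [Ks_eq_dot]
  exact h

end Pool.Agent.MMS36
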