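import Pool.Agent.H59.MMS.Mixing
import Pool.Agent.H59.MMS.Moments
import Pool.Agent.H59.MMS.Basic

/-!
Pair windows on the slice (Manickam-Miklos-Singhi, certificate method): for a real weight system
`x` on a finite set `V` and `k + 1` element subsets `S`, the window sum of a function `Φ(a, b, y)`
runs over ordered pairs `i ≠ j` and averages over the `k`-element sets `T` avoiding `i` and `j`,
`a = x i`, `b = x j`, `y = x(T)`.  All identities hold for arbitrary functions.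
-/

set_option autoImplicit false
set_option linter.unusedSectionVars false

namespace Pool.Agent.MMS36

open Finset Pool.Agent.H59.MMS

variable {α : Type*} [DecidableEq α]

/-- The window sum. -/
noncomputable def win (k : ℕ) (V : Finset α) (x : α → ℝ) (Φ : ℝ → ℝ → ℝ → ℝ) : ℝ :=
  ∑ i ∈ V, ∑ j ∈ V.erase i,
    av k ((V.erase i).erase j) (fun T => Φ (x i) (x j) (∑ t ∈ T, x t))

theorem win_add (k : ℕ) (V : Finset α) (x : α → ℝ) (Φ Ψ : ℝ → ℝ → ℝ → ℝ) :
    win k V x (fun a b y => Φ a b y + Ψ a b y) = win k V x Φ + win k V x Ψ := by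
  unfold win
  rw [← Finset.sum_add_distrib]
  refine Finset.sum_congr rfl fun i _ => ?_
  rw [← Finset.sum_add_distrib]
  refine Finset.sum_congr rfl fun j _ => ?_
  rw [av_add]

theorem win_sub (k : ℕ) (V : Finset α) (x : α → ℝ) (Φ Ψ : ℝ → ℝ → ℝ → ℝ) :
    win k V x (fun a b y => Φ a b y - Ψ a b y) = win k V x Φ - win k V x Ψ := by
  unfold win
  rw [← Finset.sum_sub_distrib]
  refine Finset.sum_congr rfl fun i _ => ?_
  rw [← Finset.sum_sub_distrib]
  refine Finset.sum_congr rfl fun j _ => ?_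
  rw [av_sub]

theorem win_mul (k : ℕ) (V : Finset α) (x : α → ℝ) (c : ℝ) (Φ : ℝ → ℝ → ℝ → ℝ) :
    win k V x (fun a b y => c * Φ a b y) = c * win k V x Φ := by
  unfold win
  rw [Finset.mul_sum]
  refine Finset.sum_congr rfl fun i _ => ?_
  rw [Finset.mul_sum]
  refine Finset.sum_congr rfl fun j _ => ?_
  rw [av_mul]

/-- Exchanging the two elements of the window. -/
theorem win_swap (k : ℕ) (V : Finset α) (x : α → ℝ) (Φ : ℝ → ℝ → ℝ → ℝ) :
    win k V x (fun a b y => Φ b a y) = win k V x Φ := by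
  unfold win
  rw [Finset.sum_sigma', Finset.sum_sigma']
  refine Finset.sum_bij' (fun p _ => ⟨p.2, p.1⟩) (fun p _ => ⟨p.2, p.1⟩) ?_ ?_ ?_ ?_ ?_
  · rintro ⟨i, j⟩ h
    simp only [Finset.mem_sigma, Finset.mem_erase] at h ⊢
    exact ⟨h.2.2, h.2.1.symm, h.1⟩
  · rintro ⟨i, j⟩ h
    simp only [Finset.mem_sigma, Finset.mem_erase] at h ⊢
    exact ⟨h.2.2, h.2.1.symm, h.1⟩
  · rintro ⟨i, j⟩ _; rfl
  · rintro ⟨i, j⟩ _; rfl
  · rintro ⟨i, j⟩ _
    simp only
    rw [Finset.erase_right_comm]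

/-- Pointwise comparison, on the windows that really occur. -/
theorem win_mono {k : ℕ} {V : Finset α} {x : α → ℝ} {Φ Ψ : ℝ → ℝ → ℝ → ℝ}
    (h : ∀ i ∈ V, ∀ j ∈ V.erase i, ∀ T, T ⊆ (V.erase i).erase j → T.card = k →
      Φ (x i) (x j) (∑ t ∈ T, x t) ≤ Ψ (x i) (x j) (∑ t ∈ T, x t)) :
    win k V x Φ ≤ win k V x Ψ := by
  unfold win
  refine Finset.sum_le_sum fun i hi => Finset.sum_le_sum fun j hj => ?_
  exact av_mono fun T hT hc => h i hi j hj T hT hc

theorem win_congr {k : ℕ} {V : Finset α} {x : α → ℝ} {Φ Ψ : ℝ → ℝ → ℝ → ℝ}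
    (h : ∀ i ∈ V, ∀ j ∈ V.erase i, ∀ T, T ⊆ (V.erase i).erase j → T.card = k →
      Φ (x i) (x j) (∑ t ∈ T, x t) = Ψ (x i) (x j) (∑ t ∈ T, x t)) :
    win k V x Φ = win k V x Ψ :=
  le_antisymm (win_mono fun i hi j hj T hT hc => (h i hi j hj T hT hc).le)
    (win_mono fun i hi j hj T hT hc => (h i hi j hj T hT hc).ge)

theorem win_zero (k : ℕ) (V : Finset α) (x : α → ℝ) :
    win k V x (fun _ _ _ => 0) = 0 := by
  have h := win_mul k V x 0 (fun _ _ _ => (0 : ℝ))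
  simpa using h

/-- The window sum as an average over the `k + 1` element sets `S`, `i` in `S`, `j` outside. -/
theorem win_eq {k : ℕ} {V : Finset α} (hk : k + 2 ≤ V.card) (x : α → ℝ)
    (Φ : ℝ → ℝ → ℝ → ℝ) :
    ((k + 1 : ℝ) * ((V.card : ℝ) - (k + 1)) / (V.card * ((V.card : ℝ) - 1))) * win k V x Φ =
      av (k + 1) V (fun S => ∑ i ∈ S, ∑ j ∈ V \ S,
        Φ (x i) (x j) (∑ t ∈ S, x t - x i)) := by
  have hN : (k : ℝ) + 2 ≤ V.card := by exact_mod_cast hk
  have hk0 : (0 : ℝ) ≤ k := Nat.cast_nonneg k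
  have hN0 : (V.card : ℝ) ≠ 0 := by linarith
  have hN1 : (V.card : ℝ) - 1 ≠ 0 := by linarith
  have hN2 : (V.card : ℝ) - (k + 1) ≠ 0 := by linarith
  -- the right side, peeled at i
  have h1 : av (k + 1) V (fun S => ∑ i ∈ S, ∑ j ∈ V \ S, Φ (x i) (x j) (∑ t ∈ S, x t - x i)) =
      av (k + 1) V (fun S => ∑ i ∈ S, (fun i S' => ∑ j ∈ (V.erase i) \ S',
        Φ (x i) (x j) (∑ t ∈ S', x t)) i (S.erase i)) := by
    refine av_congr fun S hS hc => ?_
    refine Finset.sum_congr rfl fun i hi => ?_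
    have e1 : (V.erase i) \ (S.erase i) = V \ S := by
      ext j
      simp only [Finset.mem_sdiff, Finset.mem_erase]
      constructor
      · rintro ⟨⟨hji, hjV⟩, hj⟩
        exact ⟨hjV, fun hjS => hj ⟨hji, hjS⟩⟩
      · rintro ⟨hjV, hjS⟩
        refine ⟨⟨?_, hjV⟩, fun hj => hjS hj.2⟩
        rintro rfl
        exact hjS hi
    have e2 : ∑ t ∈ S.erase i, x t = ∑ t ∈ S, x t - x i := sum_erase_one hi x
    simp only
    rw [e1, e2]
  rw [h1, av_peel (V := V) (k := k) (by omega) (fun i S' => ∑ j ∈ (V.erase i) \ S',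
        Φ (x i) (x j) (∑ t ∈ S', x t))]
  have h2 : ∀ i ∈ V, av k (V.erase i) (fun S' => ∑ j ∈ (V.erase i) \ S',
        Φ (x i) (x j) (∑ t ∈ S', x t)) =
      (((V.card : ℝ) - (k + 1)) / ((V.card : ℝ) - 1)) *
        ∑ j ∈ V.erase i, av k ((V.erase i).erase j)
          (fun T => Φ (x i) (x j) (∑ t ∈ T, x t)) := by
    intro i hi
    have hc : (V.erase i).card = V.card - 1 := Finset.card_erase_of_mem hi
    have h3 := av_avoid (k := k) (V := V.erase i) (by omega)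
      (fun j T => Φ (x i) (x j) (∑ t ∈ T, x t))
    rw [card_erase_cast hi] at h3
    have hN3 : (V.card : ℝ) - 1 - k ≠ 0 := by
      intro h0; apply hN2; linarith
    rw [div_eq_div_iff hN1 hN3] at h3
    rw [div_mul_eq_mul_div, eq_div_iff hN1]
    rw [← h3]; ring
  rw [Finset.sum_congr rfl h2, ← Finset.mul_sum]
  unfold win
  field_simp

/-- The window sum vanishes if all inner sums over `i ∈ S`, `j ∉ S` vanish. -/
theorem win_eq_zero {k : ℕ} {V : Finset α} (hk : k + 2 ≤ V.card) {x : α → ℝ}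
    {Φ : ℝ → ℝ → ℝ → ℝ}
    (h : ∀ S, S ⊆ V → S.card = k + 1 → ∑ i ∈ S, ∑ j ∈ V \ S,
        Φ (x i) (x j) (∑ t ∈ S, x t - x i) = 0) : win k V x Φ = 0 := by
  have hN : (k : ℝ) + 2 ≤ V.card := by exact_mod_cast hk
  have hk0 : (0 : ℝ) ≤ k := Nat.cast_nonneg k
  have h1 := win_eq hk x Φ
  have h2 : av (k + 1) V (fun S => ∑ i ∈ S, ∑ j ∈ V \ S,
        Φ (x i) (x j) (∑ t ∈ S, x t - x i)) = 0 := by
    rw [av_congr (G := fun _ => (0 : ℝ)) h, av_const (by omega)]
  rw [h2] at h1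
  have hne : (k + 1 : ℝ) * ((V.card : ℝ) - (k + 1)) / (V.card * ((V.card : ℝ) - 1)) ≠ 0 := by
    have : 0 < (k + 1 : ℝ) * ((V.card : ℝ) - (k + 1)) / (V.card * ((V.card : ℝ) - 1)) := by
      apply div_pos
      · apply mul_pos <;> linarith
      · apply mul_pos <;> linarith
    exact this.ne'
  exact (mul_eq_zero.1 h1).resolve_left hne

theorem card_out {k : ℕ} {V S : Finset α} (hS : S ⊆ V) (hc : S.card = k + 1) :
    ((V \ S).card : ℝ) = V.card - (k + 1) := by
  rw [Finset.card_sdiff_of_subset hS, Nat.cast_sub (Finset.card_le_card hS), hc]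
  push_cast; ring

theorem sum_out {V S : Finset α} (hS : S ⊆ V) (x : α → ℝ) :
    ∑ j ∈ V \ S, x j = ∑ j ∈ V, x j - ∑ j ∈ S, x j := by
  rw [← Finset.sum_sdiff hS]; ring

section Zero

variable {k : ℕ} {V : Finset α} {x : α → ℝ}

/-- Elements outside `S`, with a function of the element in `S` and of `x(S)`. -/
theorem win_G (hk : k + 2 ≤ V.card) (hx : ∑ i ∈ V, x i = 0) (G : ℝ → ℝ → ℝ) :
    win k V x (fun a b y => (((V.card : ℝ) - (k + 1)) * b + (y + a)) * G a (y + a)) = 0 := by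
  refine win_eq_zero hk fun S hS hc => ?_
  refine Finset.sum_eq_zero fun i _ => ?_
  rw [← Finset.sum_mul]
  have : ∑ j ∈ V \ S, (((V.card : ℝ) - (k + 1)) * x j + (∑ t ∈ S, x t - x i + x i)) = 0 := by
    rw [Finset.sum_add_distrib, ← Finset.mul_sum, Finset.sum_const, nsmul_eq_mul,
      card_out hS hc, sum_out hS, hx]
    ring
  rw [this, zero_mul]

/-- Elements of `S`, with a function of the element outside `S` and of `x(S)`. -/
theorem win_H (hk : k + 2 ≤ V.card) (H : ℝ → ℝ → ℝ) :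
    win k V x (fun a b y => ((k + 1 : ℝ) * b - (y + b)) * H a (y + b)) = 0 := by
  rw [← win_swap]
  refine win_eq_zero hk fun S hS hc => ?_
  rw [Finset.sum_comm]
  refine Finset.sum_eq_zero fun j _ => ?_
  have e : ∀ i ∈ S, ((k + 1 : ℝ) * x i - (∑ t ∈ S, x t - x i + x i)) *
      H (x j) (∑ t ∈ S, x t - x i + x i) =
      ((k + 1 : ℝ) * x i - ∑ t ∈ S, x t) * H (x j) (∑ t ∈ S, x t) := by
    intro i _
    rw [sub_add_cancel]
  rw [Finset.sum_congr rfl e, ← Finset.sum_mul]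
  have : ∑ i ∈ S, ((k + 1 : ℝ) * x i - ∑ t ∈ S, x t) = 0 := by
    rw [Finset.sum_sub_distrib, ← Finset.mul_sum, Finset.sum_const, nsmul_eq_mul, hc]
    push_cast; ring
  rw [this, zero_mul]

/-- The product identity. -/
theorem win_prod (hk : k + 2 ≤ V.card) (hx : ∑ i ∈ V, x i = 0) (ψ : ℝ → ℝ) :
    win k V x (fun a b y => ((k + 1 : ℝ) * ((V.card : ℝ) - (k + 1)) * (a * b) + (y + a) ^ 2) *
      ψ (y + a)) = 0 := by
  refine win_eq_zero hk fun S hS hc => ?_
  have e : ∀ i ∈ S, ∀ j ∈ V \ S, ((k + 1 : ℝ) * ((V.card : ℝ) - (k + 1)) * (x i * x j) +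
      (∑ t ∈ S, x t - x i + x i) ^ 2) * ψ (∑ t ∈ S, x t - x i + x i) =
      ((k + 1 : ℝ) * ((V.card : ℝ) - (k + 1)) * (x i * x j) + (∑ t ∈ S, x t) ^ 2) *
        ψ (∑ t ∈ S, x t) := by
    intro i _ j _
    rw [sub_add_cancel]
  rw [Finset.sum_congr rfl fun i hi => Finset.sum_congr rfl (e i hi)]
  have e2 : ∀ i ∈ S, ∑ j ∈ V \ S, ((k + 1 : ℝ) * ((V.card : ℝ) - (k + 1)) * (x i * x j) +
      (∑ t ∈ S, x t) ^ 2) * ψ (∑ t ∈ S, x t) =
      ((k + 1 : ℝ) * ((V.card : ℝ) - (k + 1)) * (x i * (- ∑ t ∈ S, x t)) +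
        ((V.card : ℝ) - (k + 1)) * (∑ t ∈ S, x t) ^ 2) * ψ (∑ t ∈ S, x t) := by
    intro i _
    rw [← Finset.sum_mul, Finset.sum_add_distrib, ← Finset.mul_sum, ← Finset.mul_sum,
      Finset.sum_const, nsmul_eq_mul, card_out hS hc, sum_out hS, hx, zero_sub]
  rw [Finset.sum_congr rfl e2, ← Finset.sum_mul, Finset.sum_add_distrib, ← Finset.mul_sum,
    ← Finset.sum_mul, Finset.sum_const, nsmul_eq_mul, hc]
  push_cast; ring

/-- The sum of squares identity. -/
theorem win_sq (hk : k + 2 ≤ V.card) (ψ : ℝ → ℝ) :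
    win k V x (fun a b y => ((k + 1 : ℝ) * a ^ 2 + ((V.card : ℝ) - (k + 1)) * b ^ 2 -
      ∑ i ∈ V, x i ^ 2) * ψ (y + a)) = 0 := by
  refine win_eq_zero hk fun S hS hc => ?_
  have e : ∀ i ∈ S, ∑ j ∈ V \ S, ((k + 1 : ℝ) * x i ^ 2 + ((V.card : ℝ) - (k + 1)) * x j ^ 2 -
      ∑ i ∈ V, x i ^ 2) * ψ (∑ t ∈ S, x t - x i + x i) =
      (((V.card : ℝ) - (k + 1)) * ((k + 1 : ℝ) * x i ^ 2) +
        ((V.card : ℝ) - (k + 1)) * (∑ j ∈ V \ S, x j ^ 2) -
        ((V.card : ℝ) - (k + 1)) * ∑ i ∈ V, x i ^ 2) * ψ (∑ t ∈ S, x t) := by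
    intro i _
    rw [sub_add_cancel, ← Finset.sum_mul, Finset.sum_sub_distrib, Finset.sum_add_distrib,
      ← Finset.mul_sum (V \ S) (fun j => x j ^ 2), Finset.sum_const, Finset.sum_const,
      nsmul_eq_mul, nsmul_eq_mul, card_out hS hc]
  rw [Finset.sum_congr rfl e, ← Finset.sum_mul, Finset.sum_sub_distrib, Finset.sum_add_distrib,
    ← Finset.mul_sum, ← Finset.mul_sum, Finset.sum_const, Finset.sum_const, nsmul_eq_mul,
    nsmul_eq_mul, hc, sum_out hS (fun j => x j ^ 2)]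
  push_cast; ring

/-- The Stein form. -/
theorem win_stein (hk : k + 2 ≤ V.card) (hx : ∑ i ∈ V, x i = 0) (ψ : ℝ → ℝ) :
    win k V x (fun a b y => ((k + 1 : ℝ) * ((V.card : ℝ) - (k + 1)) * (a - b) -
      (V.card : ℝ) * (y + a)) * ψ (y + a)) = 0 := by
  refine win_eq_zero hk fun S hS hc => ?_
  have e : ∀ i ∈ S, ∑ j ∈ V \ S, ((k + 1 : ℝ) * ((V.card : ℝ) - (k + 1)) * (x i - x j) -
      (V.card : ℝ) * (∑ t ∈ S, x t - x i + x i)) * ψ (∑ t ∈ S, x t - x i + x i) =
      ((k + 1 : ℝ) * ((V.card : ℝ) - (k + 1)) * (((V.card : ℝ) - (k + 1)) * x i +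
        ∑ t ∈ S, x t) - ((V.card : ℝ) - (k + 1)) * (V.card : ℝ) * (∑ t ∈ S, x t)) *
        ψ (∑ t ∈ S, x t) := by
    intro i _
    rw [sub_add_cancel, ← Finset.sum_mul, Finset.sum_sub_distrib, ← Finset.mul_sum,
      Finset.sum_sub_distrib, Finset.sum_const, Finset.sum_const, nsmul_eq_mul, nsmul_eq_mul,
      card_out hS hc, sum_out hS, hx]
    ring
  rw [Finset.sum_congr rfl e, ← Finset.sum_mul, Finset.sum_sub_distrib, ← Finset.mul_sum,
    Finset.sum_add_distrib, ← Finset.mul_sum, Finset.sum_const, Finset.sum_const, nsmul_eq_mul,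
    nsmul_eq_mul, hc]
  push_cast; ring

/-- Functions of the first element only, second one averaged: first moment. -/
theorem win_phi1 (hk : k + 2 ≤ V.card) (hx : ∑ i ∈ V, x i = 0) (φ : ℝ → ℝ) :
    win k V x (fun a b _ => φ a * (((V.card : ℝ) - 1) * b + a)) = 0 := by
  unfold win
  refine Finset.sum_eq_zero fun i hi => ?_
  have e : ∀ j ∈ V.erase i, av k ((V.erase i).erase j)
      (fun T => φ (x i) * (((V.card : ℝ) - 1) * x j + x i)) =
      φ (x i) * (((V.card : ℝ) - 1) * x j + x i) := by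
    intro j hj
    rw [av_const]
    rw [Finset.card_erase_of_mem hj, Finset.card_erase_of_mem hi]; omega
  rw [Finset.sum_congr rfl e, ← Finset.mul_sum, Finset.sum_add_distrib, ← Finset.mul_sum,
    Finset.sum_const, nsmul_eq_mul, card_erase_cast hi, sum_erase_one hi, hx]
  ring

/-- Functions of the first element only, second one averaged: second moment. -/
theorem win_phi2 (hk : k + 2 ≤ V.card) (φ : ℝ → ℝ) :
    win k V x (fun a b _ => φ a * (((V.card : ℝ) - 1) * b ^ 2 - (∑ i ∈ V, x i ^ 2 - a ^ 2))) =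
      0 := by
  unfold win
  refine Finset.sum_eq_zero fun i hi => ?_
  have e : ∀ j ∈ V.erase i, av k ((V.erase i).erase j)
      (fun T => φ (x i) * (((V.card : ℝ) - 1) * x j ^ 2 - (∑ i ∈ V, x i ^ 2 - x i ^ 2))) =
      φ (x i) * (((V.card : ℝ) - 1) * x j ^ 2 - (∑ i ∈ V, x i ^ 2 - x i ^ 2)) := by
    intro j hj
    rw [av_const]
    rw [Finset.card_erase_of_mem hj, Finset.card_erase_of_mem hi]; omega
  rw [Finset.sum_congr rfl e, ← Finset.mul_sum, Finset.sum_sub_distrib, ← Finset.mul_sum,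
    Finset.sum_const, nsmul_eq_mul, card_erase_cast hi, sum_erase_pow hi]
  ring

/-- Pair windows: the first moment of the rest. -/
theorem win_mu1 (hk : k + 2 ≤ V.card) (hN : 3 ≤ V.card) (hx : ∑ i ∈ V, x i = 0)
    (μ : ℝ → ℝ → ℝ) :
    win k V x (fun a b y => μ a b * (((V.card : ℝ) - 2) * y + k * (a + b))) = 0 := by
  have hN' : (3 : ℝ) ≤ V.card := by exact_mod_cast hN
  unfold win
  refine Finset.sum_eq_zero fun i hi => Finset.sum_eq_zero fun j hj => ?_
  have hc : ((V.erase i).erase j).card = V.card - 2 := by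
    rw [Finset.card_erase_of_mem hj, Finset.card_erase_of_mem hi]; omega
  have hcR : (((V.erase i).erase j).card : ℝ) = V.card - 2 := by
    rw [hc, Nat.cast_sub (by omega)]; norm_num
  have hm := mom1 (k := k) (V := (V.erase i).erase j) (by omega) (by omega) x
  rw [hcR, sum_erase_one hj, sum_erase_one hi, hx] at hm
  rw [av_mul, av_add, av_mul, av_const (by omega), hm]
  have : (V.card : ℝ) - 2 ≠ 0 := by linarith
  field_simp
  ring

/-- Pair windows: the second moment of the rest. -/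
theorem win_mu2 (hk : k + 2 ≤ V.card) (hN : 4 ≤ V.card) (hx : ∑ i ∈ V, x i = 0)
    (μ : ℝ → ℝ → ℝ) :
    win k V x (fun a b y => μ a b * (((V.card : ℝ) - 2) * ((V.card : ℝ) - 3) * y ^ 2 -
      (k * ((V.card : ℝ) - 2 - k) * (∑ i ∈ V, x i ^ 2 - a ^ 2 - b ^ 2) +
        k * (k - 1) * (a + b) ^ 2))) = 0 := by
  have hN' : (4 : ℝ) ≤ V.card := by exact_mod_cast hN
  unfold win
  refine Finset.sum_eq_zero fun i hi => Finset.sum_eq_zero fun j hj => ?_
  have hc : ((V.erase i).erase j).card = V.card - 2 := by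
    rw [Finset.card_erase_of_mem hj, Finset.card_erase_of_mem hi]; omega
  have hcR : (((V.erase i).erase j).card : ℝ) = V.card - 2 := by
    rw [hc, Nat.cast_sub (by omega)]; norm_num
  have hm := mom2 (k := k) (V := (V.erase i).erase j) (by omega) (by omega) x
  have hs1 : ∑ j ∈ (V.erase i).erase j, x j = - x i - x j := by
    rw [sum_erase_one hj, sum_erase_one hi, hx]; ring
  rw [hcR, hs1, sum_erase_pow hj, sum_erase_pow hi] at hm
  rw [av_mul, av_sub, av_mul, av_const (by omega), hm]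
  have h2 : (V.card : ℝ) - 2 ≠ 0 := by linarith
  have h3 : (V.card : ℝ) - 2 - 1 ≠ 0 := by linarith
  have h3' : (V.card : ℝ) - 3 ≠ 0 := by linarith
  have e3 : (V.card : ℝ) - 2 - 1 = V.card - 3 := by ring
  rw [e3]
  field_simp
  ring

end Zero

end Pool.Agent.MMS36
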